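import Pool.Agent.Helper236.Plane

namespace Pool.Agent.Helper236

open Set Module Submodule

theorem card_dual_killing {F V : Type*} [Field F] [AddCommGroup V] [Module F V] [Finite F]
    [FiniteDimensional F V] (U : Submodule F V) :
    Nat.card {f : V →ₗ[F] F // ∀ x ∈ U, f x = 0} =
      (Nat.card F) ^ (finrank F V - finrank F U) := by
  rw [Nat.card_congr (homEquiv U F), Module.natCard_eq_pow_finrank (K := F),
    Module.finrank_linearMap, Submodule.finrank_quotient, Module.finrank_self, mul_one]

/-- In a projective plane of order four there are no nine points such that each of them lies on a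
tangent and some line misses all of them. -/
theorem no_nine {F V : Type*} [Field F] [AddCommGroup V] [Module F V] [Finite F]
    (hF : Nat.card F = 4) [FiniteDimensional F V] (hV : finrank F V = 3) (w : Fin 9 → V)
    (f : Fin 9 → (V →ₗ[F] F)) (g : V →ₗ[F] F)
    (hf0 : ∀ i, f i (w i) = 0) (hf : ∀ i j, i ≠ j → f i (w j) ≠ 0) (hg : ∀ j, g (w j) ≠ 0) :
    False := by
  classical
  have hfin : Finite (V →ₗ[F] F) := Module.finite_of_finite F
  have hft : Fintype (V →ₗ[F] F) := Fintype.ofFinite _
  have hFt : Fintype F := Fintype.ofFinite _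
  have hw : ∀ i, w i ≠ 0 := by
    intro i h0
    apply hg i
    rw [h0, map_zero]
  have hind : ∀ i j, i ≠ j → LinearIndependent F ![w i, w j] := by
    intro i j hij
    rw [LinearIndependent.pair_iff' (hw i)]
    intro c hc
    apply hf i j hij
    rw [← hc, map_smul, hf0, smul_zero]
  have hcard1 : ∀ i, (Finset.univ.filter (fun φ : V →ₗ[F] F => φ (w i) = 0)).card = 16 := by
    intro i
    have h1 := card_dual_killing (F := F) (span F {w i})
    rw [hF, hV, finrank_span_singleton (hw i)] at h1
    rw [← Fintype.card_subtype, ← Nat.card_eq_fintype_card]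
    have h2 : Nat.card {φ : V →ₗ[F] F // φ (w i) = 0} =
        Nat.card {f : V →ₗ[F] F // ∀ x ∈ span F {w i}, f x = 0} := by
      apply Nat.card_congr
      apply Equiv.subtypeEquivRight
      intro φ
      constructor
      · intro h x hx
        obtain ⟨c, rfl⟩ := mem_span_singleton.1 hx
        rw [map_smul, h, smul_zero]
      · intro h
        exact h _ (mem_span_singleton_self _)
    rw [h2, h1]
    norm_num
  have hcard2 : ∀ i j, i ≠ j →
      (Finset.univ.filter (fun φ : V →ₗ[F] F => φ (w i) = 0 ∧ φ (w j) = 0)).card = 4 := by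
    intro i j hij
    have h1 := card_dual_killing (F := F) (span F (Set.range ![w i, w j]))
    have h3 : finrank F (span F (Set.range ![w i, w j])) = 2 := by
      rw [finrank_span_eq_card (hind i j hij)]
      simp
    rw [hF, hV, h3] at h1
    rw [← Fintype.card_subtype, ← Nat.card_eq_fintype_card]
    have h2 : Nat.card {φ : V →ₗ[F] F // φ (w i) = 0 ∧ φ (w j) = 0} =
        Nat.card {f : V →ₗ[F] F // ∀ x ∈ span F (Set.range ![w i, w j]), f x = 0} := by
      apply Nat.card_congr
      apply Equiv.subtypeEquivRight
      intro φ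
      constructor
      · intro h x hx
        have : span F (Set.range ![w i, w j]) ≤ LinearMap.ker φ := by
          rw [span_le]
          rintro _ ⟨t, rfl⟩
          fin_cases t
          · exact h.1
          · exact h.2
        exact this hx
      · intro h
        exact ⟨h _ (subset_span ⟨0, rfl⟩), h _ (subset_span ⟨1, rfl⟩)⟩
    rw [h2, h1]
    norm_num
  have hcard0 : Fintype.card (V →ₗ[F] F) = 64 := by
    rw [← Nat.card_eq_fintype_card, Module.natCard_eq_pow_finrank (K := F),
      Module.finrank_linearMap, Module.finrank_self, hV, hF]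
    norm_num
  -- the number of zeros
  set n : (V →ₗ[F] F) → ℤ := fun φ => ∑ i : Fin 9, if φ (w i) = 0 then 1 else 0 with hn
  have hsum1 : ∑ φ : V →ₗ[F] F, n φ = 144 := by
    rw [hn, Finset.sum_comm]
    have : ∀ i : Fin 9, (∑ φ : V →ₗ[F] F, if φ (w i) = 0 then (1 : ℤ) else 0) = 16 := by
      intro i
      rw [Finset.sum_boole, hcard1 i]
      norm_num
    rw [Finset.sum_congr rfl (fun i _ => this i)]
    norm_num
  have hsum2 : ∑ φ : V →ₗ[F] F, n φ * n φ = 432 := by
    have h1 : ∀ φ : V →ₗ[F] F, n φ * n φ = ∑ i : Fin 9, ∑ j : Fin 9,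
        if φ (w i) = 0 ∧ φ (w j) = 0 then (1 : ℤ) else 0 := by
      intro φ
      rw [hn, Finset.sum_mul_sum]
      refine Finset.sum_congr rfl fun i _ => Finset.sum_congr rfl fun j _ => ?_
      by_cases h1 : φ (w i) = 0 <;> by_cases h2 : φ (w j) = 0 <;> simp [h1, h2]
    rw [Finset.sum_congr rfl (fun φ _ => h1 φ), Finset.sum_comm]
    have h2 : ∀ i : Fin 9, (∑ φ : V →ₗ[F] F, ∑ j : Fin 9,
        if φ (w i) = 0 ∧ φ (w j) = 0 then (1 : ℤ) else 0) = 48 := by
      intro i
      rw [Finset.sum_comm]
      have h3 : ∀ j : Fin 9, (∑ φ : V →ₗ[F] F,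
          if φ (w i) = 0 ∧ φ (w j) = 0 then (1 : ℤ) else 0) = if i = j then 16 else 4 := by
        intro j
        rw [Finset.sum_boole]
        by_cases hij : i = j
        · subst hij
          simp only [and_self, if_true]
          rw [hcard1 i]
          norm_num
        · rw [hcard2 i j hij, if_neg hij]
          norm_num
      rw [Finset.sum_congr rfl (fun j _ => h3 j), Finset.sum_ite, Finset.sum_const,
        Finset.sum_const, Finset.filter_eq, if_pos (Finset.mem_univ _), Finset.card_singleton,
        Finset.filter_ne, Finset.card_erase_of_mem (Finset.mem_univ _), Finset.card_univ,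
        Fintype.card_fin]
      norm_num
    rw [Finset.sum_congr rfl (fun i _ => h2 i)]
    norm_num
  have hsum3 : ∑ φ : V →ₗ[F] F, (n φ - 3) ^ 2 = 144 := by
    have h1 : ∀ φ : V →ₗ[F] F, (n φ - 3) ^ 2 = n φ * n φ - 6 * n φ + 9 := by
      intro φ
      ring
    rw [Finset.sum_congr rfl (fun φ _ => h1 φ), Finset.sum_add_distrib, Finset.sum_sub_distrib,
      hsum2, ← Finset.mul_sum, hsum1, Finset.sum_const, Finset.card_univ, hcard0]
    norm_num
  -- the lower bound
  let G : Option (Fin 9) → (V →ₗ[F] F) := fun o => o.elim g f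
  have hG : ∀ (o : Option (Fin 9)) (j : Fin 9), G o (w j) = 0 ↔ o = some j := by
    intro o j
    cases o with
    | none => simpa [G] using hg j
    | some i =>
      by_cases hij : i = j
      · subst hij
        simpa [G] using hf0 i
      · simpa [G, hij] using hf i j hij
  let ι : Option (Fin 9) × Fˣ → (V →ₗ[F] F) := fun p => (p.2 : F) • G p.1
  have hι : ∀ p j, ι p (w j) = 0 ↔ p.1 = some j := by
    intro p j
    rw [← hG p.1 j]
    simp [ι]
  have hinj : Function.Injective ι := by
    rintro ⟨o, c⟩ ⟨o', c'⟩ h
    have ho : o = o' := by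
      cases o with
      | none =>
        cases o' with
        | none => rfl
        | some j =>
          exfalso
          have h1 := (hι (some j, c') j).2 rfl
          rw [← h] at h1
          have := (hι (none, c) j).1 h1
          simp at this
      | some i =>
        have h1 := (hι (some i, c) i).2 rfl
        rw [h] at h1
        exact ((hι (o', c') i).1 h1).symm
    subst ho
    obtain ⟨j, hj⟩ : ∃ j, o ≠ some j := by
      by_cases h0 : o = some 0
      · exact ⟨1, by rw [h0]; simp⟩
      · exact ⟨0, h0⟩
    have h2 : (c : F) * G o (w j) = (c' : F) * G o (w j) := by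
      have := LinearMap.congr_fun h (w j)
      simpa [ι] using this
    have h3 : G o (w j) ≠ 0 := fun h => hj ((hG o j).1 h)
    have h4 := mul_right_cancel₀ h3 h2
    rw [Units.ext h4]
  have hnz : (0 : V →ₗ[F] F) ∉ Finset.univ.image ι := by
    intro h
    obtain ⟨p, -, hp⟩ := Finset.mem_image.1 h
    obtain ⟨j, hj⟩ : ∃ j, p.1 ≠ some j := by
      by_cases h0 : p.1 = some 0
      · exact ⟨1, by rw [h0]; simp⟩
      · exact ⟨0, h0⟩
    apply hj
    rw [← hι p j, hp]
    simp
  have hcu : Fintype.card Fˣ = 3 := by
    rw [Fintype.card_units, ← Nat.card_eq_fintype_card, hF]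
  have hval : ∀ p : Option (Fin 9) × Fˣ, (n (ι p) - 3) ^ 2 = if p.1 = none then 9 else 4 := by
    intro p
    have h1 : n (ι p) = if p.1 = none then 0 else 1 := by
      rw [hn]
      simp only [hι]
      rcases p with ⟨o, c⟩
      cases o with
      | none => simp
      | some i => simp
    rw [h1]
    split_ifs <;> norm_num
  have hlow : (171 : ℤ) ≤ ∑ φ : V →ₗ[F] F, (n φ - 3) ^ 2 := by
    have h1 : ∑ φ ∈ insert 0 (Finset.univ.image ι), (n φ - 3) ^ 2 ≤
        ∑ φ : V →ₗ[F] F, (n φ - 3) ^ 2 := by
      apply Finset.sum_le_sum_of_subset_of_nonneg (Finset.subset_univ _)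
      intro φ _ _
      positivity
    refine le_trans ?_ h1
    rw [Finset.sum_insert hnz, Finset.sum_image (fun x _ y _ h => hinj h)]
    rw [Finset.sum_congr rfl (fun p _ => hval p)]
    have h0 : n (0 : V →ₗ[F] F) = 9 := by
      rw [hn]
      simp
    rw [h0, Fintype.sum_prod_type]
    rw [Fintype.sum_option]
    simp
    rw [hcu]
    norm_num
  rw [hsum3] at hlow
  norm_num at hlow

end Pool.Agent.Helper236
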