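import Pool.Agent.Helper236.Crit

namespace Pool.Agent.Helper236

open Set Module Submodule

variable {F W : Type*} [Field F] [AddCommGroup W] [Module F W] {n : ℕ}

/-- the difference vector of an edge -/
noncomputable def diffVec (a : Fin n → W) (s : Sym2 (Fin n)) : W :=
  a (Quot.out s).1 - a (Quot.out s).2

theorem out_eq (s : Sym2 (Fin n)) : s((Quot.out s).1, (Quot.out s).2) = s := by
  have := Quot.out_eq s
  exact this

theorem diffVec_mk (a : Fin n → W) (i j : Fin n) :
    diffVec a s(i, j) = a i - a j ∨ diffVec a s(i, j) = a j - a i := by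
  have h := out_eq s(i, j)
  rw [Sym2.eq_iff] at h
  rcases h with ⟨h1, h2⟩ | ⟨h1, h2⟩
  · left
    rw [diffVec, h1, h2]
  · right
    rw [diffVec, h1, h2]

theorem diffVec_mem_iff (a : Fin n → W) (i j : Fin n) (U : Submodule F W) :
    diffVec a s(i, j) ∈ U ↔ a i - a j ∈ U := by
  rcases diffVec_mk a i j with h | h
  · rw [h]
  · rw [h, ← neg_sub, neg_mem_iff]

/-- the standard vectors -/
noncomputable def std (F : Type*) [Field F] (n : ℕ) (i : Fin n) : Fin n → F := Pi.single i 1

theorem acyclic_iff (I : Set (Sym2 (Fin n))) (hI : I ⊆ (⊤ : SimpleGraph (Fin n)).edgeSet) :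
    (SimpleGraph.fromEdgeSet I).IsAcyclic ↔ LinearIndepOn F (diffVec (std F n)) I := by
  classical
  rw [SimpleGraph.isAcyclic_iff_forall_isBridge, linearIndepOn_iff_notMem_span]
  have hne : ∀ e ∈ I, ¬ e.IsDiag := by
    intro e he
    have := hI he
    simpa using this
  have hset : (SimpleGraph.fromEdgeSet I).edgeSet = I := by
    rw [SimpleGraph.edgeSet_fromEdgeSet]
    ext e
    simp only [Set.mem_sdiff]
    constructor
    · rintro ⟨h, _⟩
      exact h
    · intro h
      exact ⟨h, hne e h⟩
  rw [hset]
  refine forall₂_congr fun e he => ?_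
  induction e with
  | _ a b =>
  have hab : a ≠ b := by
    have := hne _ he
    simpa using this
  rw [SimpleGraph.isBridge_iff, not_iff_not, diffVec_mem_iff]
  set G' := (SimpleGraph.fromEdgeSet I).deleteEdges {s(a, b)} with hG'
  have hadj : ∀ c d, G'.Adj c d ↔ s(c, d) ∈ I \ {s(a, b)} ∧ c ≠ d := by
    intro c d
    rw [hG', SimpleGraph.deleteEdges_adj, SimpleGraph.fromEdgeSet_adj]
    simp only [Set.mem_singleton_iff, Set.mem_sdiff]
    tauto
  constructor
  · intro hr
    have key : ∀ c d, G'.Reachable c d →
        std F n c - std F n d ∈ span F (diffVec (std F n) '' (I \ {s(a, b)})) := by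
      rintro c d ⟨w⟩
      induction w with
      | nil => simp
      | cons h p ih =>
        rename_i u v w
        have h1 := (hadj _ _).1 h
        have h2 : std F n u - std F n v ∈ span F (diffVec (std F n) '' (I \ {s(a, b)})) := by
          rw [← diffVec_mem_iff]
          exact subset_span (mem_image_of_mem _ h1.1)
        have := add_mem h2 ih
        simpa using this
    exact key a b hr
  · intro hmem
    by_contra hnr
    let φ : (Fin n → F) →ₗ[F] F :=
      { toFun := fun x => ∑ i, if G'.Reachable a i then x i else 0
        map_add' := by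
          intro x y
          rw [← Finset.sum_add_distrib]
          refine Finset.sum_congr rfl fun i _ => ?_
          split_ifs <;> simp
        map_smul' := by
          intro c x
          simp only [Pi.smul_apply, smul_eq_mul, RingHom.id_apply, Finset.mul_sum]
          refine Finset.sum_congr rfl fun i _ => ?_
          split_ifs <;> simp }
    have hφ : ∀ i, φ (std F n i) = if G'.Reachable a i then 1 else 0 := by
      intro i
      simp only [φ, std, LinearMap.coe_mk, AddHom.coe_mk]
      rw [Finset.sum_eq_single i]
      · simp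
      · intro j _ hji
        simp [hji]
      · simp
    have hle : span F (diffVec (std F n) '' (I \ {s(a, b)})) ≤ LinearMap.ker φ := by
      rw [span_le]
      rintro _ ⟨e', he', rfl⟩
      induction e' with
      | _ c d =>
      rw [SetLike.mem_coe, diffVec_mem_iff, LinearMap.mem_ker, map_sub, hφ, hφ, sub_eq_zero]
      have hcd : c ≠ d := by
        have := hne _ he'.1
        simpa using this
      have hA : G'.Adj c d := (hadj c d).2 ⟨he', hcd⟩
      have : G'.Reachable a c ↔ G'.Reachable a d :=
        ⟨fun h => h.trans hA.reachable, fun h => h.trans hA.symm.reachable⟩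
      simp [this]
    have h0 := hle hmem
    rw [LinearMap.mem_ker, map_sub, hφ, hφ, if_pos (SimpleGraph.Reachable.refl a),
      if_neg hnr] at h0
    simp at h0

/-- the cycle matroid of the complete graph, represented over `F` -/
noncomputable def cyc (F : Type*) [Field F] (n : ℕ) : Matroid (Sym2 (Fin n)) :=
  linMatroid F (diffVec (std F n)) (⊤ : SimpleGraph (Fin n)).edgeSet (Set.toFinite _)

theorem cyc_isCompleteGraphMatroid (F : Type*) [Field F] (n : ℕ) :
    IsCompleteGraphMatroid n (cyc F n) := by
  refine ⟨rfl, fun I hI => ?_⟩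
  rw [acyclic_iff (F := F) I hI]
  exact and_iff_right hI

/-- the matroid of all differences of the points `a i` -/
noncomputable def diffMatroid (F : Type*) [Field F] {W : Type*} [AddCommGroup W] [Module F W]
    {n : ℕ} (a : Fin n → W) : Matroid (Sym2 (Fin n)) :=
  linMatroid F (diffVec a) (⊤ : SimpleGraph (Fin n)).edgeSet (Set.toFinite _)

theorem diffMatroid_rep (a : Fin n → W) : Rep F (diffMatroid F a) (diffVec a) :=
  linMatroid_rep _ _ _

theorem diffMatroid_isQuotient (a : Fin n → W) : IsQuotient (diffMatroid F a) (cyc F n) := by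
  refine ⟨rfl, fun G hG => ?_⟩
  have hGE : G ⊆ (⊤ : SimpleGraph (Fin n)).edgeSet := hG.subset_ground
  rw [Matroid.isFlat_iff_closure_eq]
  apply Subset.antisymm _ ((cyc F n).subset_closure G hGE)
  intro e he
  have heE : e ∈ (⊤ : SimpleGraph (Fin n)).edgeSet := (cyc F n).closure_subset_ground G he
  have h1 := ((linMatroid_rep (F := F) (diffVec (std F n))
    (⊤ : SimpleGraph (Fin n)).edgeSet (Set.toFinite _)).mem_closure_iff hGE heE).1 he
  have h2 : e ∈ (diffMatroid F a).closure G := by
    rw [(diffMatroid_rep (F := F) a).mem_closure_iff hGE heE]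
    let T : (Fin n → F) →ₗ[F] W := Fintype.linearCombination F a
    have hT : ∀ s, T (diffVec (std F n) s) = diffVec a s := by
      intro s
      simp [T, diffVec, std]
    have h3 := Submodule.mem_map_of_mem (f := T) h1
    rw [Submodule.map_span, ← Set.image_comp, hT] at h3
    have h4 : (T ∘ diffVec (std F n)) '' G = diffVec a '' G := by
      apply Set.image_congr
      intro s _
      exact hT s
    rwa [h4] at h3
  rwa [hG.closure] at h2

end Pool.Agent.Helper236
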