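import Pool.Agent.Helper236.Tang

namespace Pool.Agent.Helper236.Ex5

open Set Module Submodule Pool.Agent.Helper236

instance fact5 : Fact (Nat.Prime 5) := ⟨by norm_num⟩

/-- ten points of the projective plane over `GF(5)` -/
def pt : Fin 10 → (Fin 3 → ZMod 5) :=
  ![![1, 0, 0], ![0, 1, 0], ![0, 0, 1], ![1, 1, 0], ![1, 0, 1], ![1, 4, 0], ![1, 0, 4],
    ![0, 1, 4], ![1, 4, 1], ![1, 1, 4]]

/-- six points of the affine space -/
def six : Fin 6 → (Fin 3 → ZMod 5) :=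
  ![![0, 0, 0], ![1, 0, 0], ![0, 1, 0], ![0, 0, 1], ![1, 1, 0], ![1, 0, 1]]

/-- evaluation of a coordinate functional -/
def ev (a b c : ZMod 5) (x : Fin 3 → ZMod 5) : ZMod 5 := a * x 0 + b * x 1 + c * x 2

theorem fact_block : ∀ a b c : ZMod 5, ∃ i : Fin 10, ev a b c (pt i) = 0 := by
  decide +kernel

theorem fact_tangent : ∀ i : Fin 10, ∃ a b c : ZMod 5, ev a b c (pt i) = 0 ∧
    ∀ j : Fin 10, j ≠ i → ev a b c (pt j) ≠ 0 := by
  decide +kernel

theorem fact_simple : ∀ i j : Fin 10, i ≠ j → ∀ c : ZMod 5, c • pt i ≠ pt j := by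
  decide +kernel

theorem fact_nomod : ∀ a b c : ZMod 5, (∃ i : Fin 10, ev a b c (pt i) ≠ 0) →
    ∃ i j : Fin 10, i ≠ j ∧ ev a b c (pt i) ≠ 0 ∧ ev a b c (pt j) ≠ 0 ∧
      ∀ (l : Fin 10) (d : ZMod 5),
        ev a b c (pt j) • pt i - ev a b c (pt i) • pt j ≠ d • pt l := by
  decide +kernel

theorem fact_key : ∀ i j : Fin 6, i ≠ j → ∃ x : Fin 10, ∃ c : ZMod 5, c ≠ 0 ∧
    six i - six j = c • pt x := by
  decide +kernel

theorem fact_surj : ∀ e : Fin 10, ∃ i j : Fin 6, i ≠ j ∧ ∃ c : ZMod 5,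
    six i - six j = c • pt e := by
  decide +kernel

/-- the linear functional with given coefficients -/
def evL (a b c : ZMod 5) : (Fin 3 → ZMod 5) →ₗ[ZMod 5] ZMod 5 where
  toFun := ev a b c
  map_add' x y := by simp only [ev, Pi.add_apply]; ring
  map_smul' d x := by simp only [ev, Pi.smul_apply, smul_eq_mul, RingHom.id_apply]; ring

theorem eq_ev (f : (Fin 3 → ZMod 5) →ₗ[ZMod 5] ZMod 5) (x : Fin 3 → ZMod 5) :
    f x = ev (f (Pi.single 0 1)) (f (Pi.single 1 1)) (f (Pi.single 2 1)) x := by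
  have hx : x = x 0 • Pi.single 0 1 + x 1 • Pi.single 1 1 + x 2 • Pi.single 2 1 := by
    ext i
    fin_cases i <;> simp
  conv_lhs => rw [hx]
  simp only [map_add, map_smul, smul_eq_mul, ev]
  ring

/-- the rank three matroid on ten points -/
noncomputable def Mat : Matroid (Fin 10) := linMatroid (ZMod 5) pt univ (Set.toFinite _)

theorem Mat_E : Mat.E = univ := rfl

theorem Mat_finite : Mat.Finite := ⟨Set.toFinite _⟩

theorem Mat_rep : Rep (ZMod 5) Mat pt := linMatroid_rep _ _ _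

theorem pt_ne_zero (i : Fin 10) : pt i ≠ 0 := by
  revert i
  decide +kernel

theorem Mat_simple : IsSimple Mat := by
  intro e _ f _
  rw [Mat_rep _ (subset_univ _)]
  by_cases hef : e = f
  · subst hef
    simpa using pt_ne_zero e
  · rw [linearIndepOn_pair_iff _ hef (pt_ne_zero e)]
    exact fact_simple e f hef

theorem Mat_rank : rk Mat Mat.E ≤ 3 := by
  have := Mat_finite
  rw [Mat_rep.rk_eq Subset.rfl]
  refine (Submodule.finrank_le _).trans ?_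
  rw [Module.finrank_fin_fun]

theorem Mat_block (f : (Fin 3 → ZMod 5) →ₗ[ZMod 5] (Fin 1 → ZMod 5)) :
    ∃ e ∈ Mat.E, f (pt e) = 0 := by
  let g : (Fin 3 → ZMod 5) →ₗ[ZMod 5] ZMod 5 := (LinearMap.proj 0).comp f
  obtain ⟨i, hi⟩ := fact_block (g (Pi.single 0 1)) (g (Pi.single 1 1)) (g (Pi.single 2 1))
  rw [← eq_ev] at hi
  refine ⟨i, mem_univ _, ?_⟩
  ext j
  rw [Subsingleton.elim j 0]
  exact hi

theorem Mat_tangent : ∀ e ∈ Mat.E, ∃ f : (Fin 3 → ZMod 5) →ₗ[ZMod 5] ZMod 5,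
    f (pt e) = 0 ∧ ∀ x ∈ Mat.E, x ≠ e → f (pt x) ≠ 0 := by
  intro e _
  obtain ⟨a, b, c, h1, h2⟩ := fact_tangent e
  exact ⟨evL a b c, h1, fun x _ hx => h2 x hx⟩

theorem Mat_flats (G : Set (Fin 10)) (hG : Mat.IsFlat G) (hGne : G.Nonempty) :
    ∃ f : (Fin 3 → ZMod 5) →ₗ[ZMod 5] (Fin 1 → ZMod 5),
      (∀ x ∈ G, f (pt x) = 0) ∧ ∀ x ∈ Mat.E, x ∉ G → f (pt x) ≠ 0 := by
  have := Mat_finite
  exact rank_three_flats Mat_rep Mat_simple Mat_rank Mat_tangent G hG hGne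

theorem Mat_critExp_gt : ((1 : ℕ) : ℕ∞) < critExp Mat (Nat.card (ZMod 5)) := by
  have := Mat_finite
  exact (lt_critExp_iff Mat_rep 1).2 Mat_block

theorem Mat_minor {N : Matroid (Fin 10)} (hN : N.IsMinor Mat) (hne : N ≠ Mat)
    (hl : ∀ e ∈ N.E, N.IsNonloop e) : critExp N (Nat.card (ZMod 5)) ≤ (1 : ℕ) := by
  have := Mat_finite
  exact minor_le Mat_rep Mat_simple Mat_flats hN hne hl

theorem Mat_normal : IsNormal 5 1 Mat := by
  refine isNormal_of_points (F := ZMod 5) (q := 5) (k := 1) Mat_rep Mat_simple ⟨0, mem_univ _⟩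
    six ?_ ?_
  · intro i j hij
    obtain ⟨x, c, hc, h⟩ := fact_key i j hij
    exact ⟨x, mem_univ _, c, hc, h⟩
  · intro e _
    exact fact_surj e

theorem Mat_not_modular : ¬ ∃ H, IsModularHyperplane Mat H := by
  have := Mat_finite
  rintro ⟨H, hH⟩
  obtain ⟨φ, hφ0, hφ1⟩ := exists_functional Mat_rep hH.1.1 hH.2
  have hne : ∃ i, i ∉ H := by
    by_contra hcon
    push Not at hcon
    have h1 : H = Mat.E := Subset.antisymm (subset_univ _) (fun x _ => hcon x)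
    have h2 := hH.2
    rw [h1] at h2
    omega
  obtain ⟨i₀, hi₀⟩ := hne
  obtain ⟨i, j, hij, hi, hj, hl⟩ := fact_nomod (φ (Pi.single 0 1)) (φ (Pi.single 1 1))
    (φ (Pi.single 2 1)) ⟨i₀, by rw [← eq_ev]; exact hφ1 _ (mem_univ _) hi₀⟩
  simp only [← eq_ev] at hi hj hl
  have hiH : i ∉ H := fun h => hi (hφ0 i h)
  have hjH : j ∉ H := fun h => hj (hφ0 j h)
  obtain ⟨x, hx, c, hc, hxc⟩ := modular_diff Mat_rep Mat_simple hH hφ0 hφ1 (mem_univ i) hiH
    (mem_univ j) hjH hij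
  apply hl x (φ (pt i) * φ (pt j) * c)
  have h3 : (φ (pt i) * φ (pt j)) • ((φ (pt i))⁻¹ • pt i - (φ (pt j))⁻¹ • pt j) =
      (φ (pt i) * φ (pt j)) • (c • pt x) := by rw [hxc]
  rw [smul_sub, smul_smul, smul_smul, smul_smul] at h3
  rw [← h3]
  congr 2
  · field_simp
  · field_simp

end Pool.Agent.Helper236.Ex5
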