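import Pool.Agent.Helper236.Tang

namespace Pool.Agent.Helper236

/-- the field with four elements: `a + b w` with `w ^ 2 = w + 1` -/
structure F4 where
  a : ZMod 2
  b : ZMod 2
deriving DecidableEq

namespace F4

def equiv : (ZMod 2 × ZMod 2) ≃ F4 where
  toFun p := ⟨p.1, p.2⟩
  invFun x := (x.a, x.b)
  left_inv _ := rfl
  right_inv _ := rfl

instance : Fintype F4 := Fintype.ofEquiv _ equiv

instance : Zero F4 := ⟨⟨0, 0⟩⟩
instance : One F4 := ⟨⟨1, 0⟩⟩
instance : Add F4 := ⟨fun x y => ⟨x.a + y.a, x.b + y.b⟩⟩
instance : Neg F4 := ⟨fun x => x⟩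
instance : Mul F4 := ⟨fun x y => ⟨x.a * y.a + x.b * y.b, x.a * y.b + x.b * y.a + x.b * y.b⟩⟩
instance : Inv F4 := ⟨fun x => x * x⟩

instance : CommRing F4 where
  add_assoc := by decide +kernel
  zero_add := by decide +kernel
  add_zero := by decide +kernel
  add_comm := by decide +kernel
  neg_add_cancel := by decide +kernel
  mul_assoc := by decide +kernel
  one_mul := by decide +kernel
  mul_one := by decide +kernel
  mul_comm := by decide +kernel
  left_distrib := by decide +kernel
  right_distrib := by decide +kernel
  zero_mul := by decide +kernel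
  mul_zero := by decide +kernel
  nsmul := nsmulRec
  zsmul := zsmulRec

instance : Field F4 where
  exists_pair_ne := ⟨0, 1, by decide +kernel⟩
  mul_inv_cancel := by decide +kernel
  inv_zero := by decide +kernel
  nnqsmul := _
  qsmul := _

end F4

end Pool.Agent.Helper236
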