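import Pool.Agent.Helper236.Tang

namespace Pool.Agent.Helper236

/-- the field with nine elements: `a + b i` with `i ^ 2 = -1` -/
structure F9 where
  a : ZMod 3
  b : ZMod 3
deriving DecidableEq

namespace F9

def equiv : (ZMod 3 × ZMod 3) ≃ F9 where
  toFun p := ⟨p.1, p.2⟩
  invFun x := (x.a, x.b)
  left_inv _ := rfl
  right_inv _ := rfl

instance : Fintype F9 := Fintype.ofEquiv _ equiv

instance : Zero F9 := ⟨⟨0, 0⟩⟩
instance : One F9 := ⟨⟨1, 0⟩⟩
instance : Add F9 := ⟨fun x y => ⟨x.a + y.a, x.b + y.b⟩⟩
instance : Neg F9 := ⟨fun x => ⟨-x.a, -x.b⟩⟩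
instance : Mul F9 := ⟨fun x y => ⟨x.a * y.a - x.b * y.b, x.a * y.b + x.b * y.a⟩⟩
instance : Inv F9 := ⟨fun x => ⟨(x.a * x.a + x.b * x.b) * x.a, -((x.a * x.a + x.b * x.b) * x.b)⟩⟩

instance : CommRing F9 where
  add_assoc := by decide +kernel
  zero_add := by decide +kernel
  add_zero := by decide +kernel
  add_comm := by decide +kernel
  neg_add_cancel := by decide +kernel
  mul_assoc := by decide +kernel
  one_mul := by decide +kernel
  mul_one := by decide +kernel
  mul_comm := by decide +kernel
  left_distrib := by decide +kernel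
  right_distrib := by decide +kernel
  zero_mul := by decide +kernel
  mul_zero := by decide +kernel
  nsmul := nsmulRec
  zsmul := zsmulRec

instance : Field F9 where
  exists_pair_ne := ⟨0, 1, by decide +kernel⟩
  mul_inv_cancel := by decide +kernel
  inv_zero := by decide +kernel
  nnqsmul := _
  qsmul := _

/-- conjugation -/
def conj : F9 →+* F9 where
  toFun x := ⟨x.a, -x.b⟩
  map_one' := by decide +kernel
  map_mul' := by decide +kernel
  map_zero' := by decide +kernel
  map_add' := by decide +kernel

theorem conj_conj (x : F9) : conj (conj x) = x := by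
  revert x
  decide +kernel

theorem natCard : Nat.card F9 = 9 := by
  rw [Nat.card_congr equiv.symm, Nat.card_prod, Nat.card_zmod]

end F9

end Pool.Agent.Helper236
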