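import Pool.Agent.Helper236.Onan

namespace Pool.Agent.Helper236

open Set Module Submodule

variable {F : Type} [Field F]

theorem linearIndepOn_triple {α W : Type*} [AddCommGroup W] [Module F W] (v : α → W) {i j l : α}
    (hij : i ≠ j) (hil : i ≠ l) (hjl : j ≠ l) :
    LinearIndepOn F v {i, j, l} ↔ LinearIndependent F ![v i, v j, v l] := by
  have hinj : Function.Injective ![i, j, l] := by
    intro a b hab
    fin_cases a <;> fin_cases b <;> simp_all
  have h1 := linearIndepOn_range_iff (R := F) hinj v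
  have h2 : Set.range ![i, j, l] = {i, j, l} := by
    ext x
    simp only [Set.mem_range, Set.mem_insert_iff, Set.mem_singleton_iff]
    constructor
    · rintro ⟨a, rfl⟩
      fin_cases a <;> simp
    · rintro (rfl | rfl | rfl)
      · exact ⟨0, rfl⟩
      · exact ⟨1, rfl⟩
      · exact ⟨2, rfl⟩
  have h3 : v ∘ ![i, j, l] = ![v i, v j, v l] := by
    ext a
    fin_cases a <;> rfl
  rw [← h2, h1, h3]

theorem linearIndependent_of_det3 {x y z : Fin 3 → F} (h : det3 x y z ≠ 0) :
    LinearIndependent F ![x, y, z] := by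
  have h1 : (Matrix.of ![x, y, z]).det ≠ 0 := by
    intro h0
    apply h
    rw [Matrix.det_fin_three] at h0
    simp only [Matrix.of_apply, Matrix.cons_val_zero, Matrix.cons_val_one, Matrix.cons_val] at h0
    simp only [det3]
    linear_combination h0
  have h3 := Matrix.linearIndependent_rows_iff_isUnit (A := Matrix.of ![x, y, z]).2
    ((Matrix.isUnit_iff_isUnit_det _).2 (isUnit_iff_ne_zero.2 h1))
  exact h3

/-- facts about the cycle matroid of `K_4` -/
theorem K4_facts {K : Matroid (Sym2 (Fin 4))} (hK : IsCompleteGraphMatroid 4 K) :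
    K.Indep {s(0, 1), s(0, 2), s(0, 3)} ∧ ¬ K.Indep {s(0, 1), s(0, 2), s(1, 2)} ∧
    ¬ K.Indep {s(0, 1), s(0, 3), s(1, 3)} ∧ ¬ K.Indep {s(0, 2), s(0, 3), s(2, 3)} ∧
    ¬ K.Indep {s(1, 2), s(1, 3), s(2, 3)} := by
  have hE := hK.1
  have hind : ∀ a b c : Sym2 (Fin 4), ¬ a.IsDiag → ¬ b.IsDiag → ¬ c.IsDiag →
      (K.Indep {a, b, c} ↔ LinearIndepOn ℚ (diffVec (std ℚ 4)) {a, b, c}) := by
    intro a b c ha hb hc
    have hsub : ({a, b, c} : Set (Sym2 (Fin 4))) ⊆ (⊤ : SimpleGraph (Fin 4)).edgeSet := by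
      intro x hx
      rcases hx with rfl | rfl | rfl <;> simpa using ‹_›
    rw [hK.2 _ (hE ▸ hsub), acyclic_iff (F := ℚ) _ hsub]
  have htri : ∀ i j l : Fin 4, i ≠ j → i ≠ l → j ≠ l →
      ¬ K.Indep {s(i, j), s(i, l), s(j, l)} := by
    intro i j l hij hil hjl
    rw [hind _ _ _ (by simpa using hij) (by simpa using hil) (by simpa using hjl)]
    rw [linearIndepOn_iff_notMem_span]
    push Not
    refine ⟨s(j, l), by simp, ?_⟩
    rw [diffVec_mem_iff]
    have h1 : ({s(i, j), s(i, l), s(j, l)} : Set (Sym2 (Fin 4))) \ {s(j, l)} =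
        {s(i, j), s(i, l)} := by
      ext x
      simp only [mem_sdiff, mem_insert_iff, mem_singleton_iff]
      constructor
      · rintro ⟨h | h | h, h'⟩
        · exact Or.inl h
        · exact Or.inr h
        · exact absurd h h'
      · rintro (rfl | rfl)
        · refine ⟨Or.inl rfl, ?_⟩
          rw [Sym2.eq_iff]
          push Not
          exact ⟨fun h => absurd h hij, fun h => absurd h hil⟩
        · refine ⟨Or.inr (Or.inl rfl), ?_⟩
          rw [Sym2.eq_iff]
          push Not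
          exact ⟨fun h => absurd h hij, fun h => absurd h hil⟩
    rw [h1]
    have h2 : std ℚ 4 i - std ℚ 4 j ∈ span ℚ (diffVec (std ℚ 4) '' {s(i, j), s(i, l)}) := by
      rw [← diffVec_mem_iff]
      exact subset_span (mem_image_of_mem _ (by simp))
    have h3 : std ℚ 4 i - std ℚ 4 l ∈ span ℚ (diffVec (std ℚ 4) '' {s(i, j), s(i, l)}) := by
      rw [← diffVec_mem_iff]
      exact subset_span (mem_image_of_mem _ (by simp))
    have h4 := sub_mem h3 h2
    simpa using h4
  refine ⟨?_, htri 0 1 2 (by decide) (by decide) (by decide),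
    htri 0 1 3 (by decide) (by decide) (by decide),
    htri 0 2 3 (by decide) (by decide) (by decide),
    htri 1 2 3 (by decide) (by decide) (by decide)⟩
  rw [hind _ _ _ (by simp) (by simp) (by simp), linearIndepOn_iff_notMem_span]
  have key : ∀ i : Fin 4, i ≠ 0 → ∀ X : Set (Sym2 (Fin 4)),
      (∀ x ∈ X, ∃ j, j ≠ i ∧ x = s(0, j)) →
      diffVec (std ℚ 4) s(0, i) ∉ span ℚ (diffVec (std ℚ 4) '' X) := by
    intro i hi X hX hmem
    have hle : span ℚ (diffVec (std ℚ 4) '' X) ≤
        LinearMap.ker (LinearMap.proj (R := ℚ) (φ := fun _ : Fin 4 => ℚ) i) := by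
      rw [span_le]
      rintro _ ⟨x, hx, rfl⟩
      obtain ⟨j, hj, rfl⟩ := hX x hx
      rw [SetLike.mem_coe, diffVec_mem_iff, LinearMap.mem_ker]
      simp [std, hi, hj.symm]
    have h1 := hle hmem
    rw [diffVec_mem_iff, LinearMap.mem_ker] at h1
    simp [std, hi] at h1
  rintro x (rfl | rfl | rfl)
  · apply key 1 (by decide)
    rintro y ⟨rfl | rfl | rfl, hy⟩
    · simp at hy
    · exact ⟨2, by decide, rfl⟩
    · exact ⟨3, by decide, rfl⟩
  · apply key 2 (by decide)
    rintro y ⟨rfl | rfl | rfl, hy⟩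
    · exact ⟨1, by decide, rfl⟩
    · simp at hy
    · exact ⟨3, by decide, rfl⟩
  · apply key 3 (by decide)
    rintro y ⟨rfl | rfl | rfl, hy⟩
    · exact ⟨1, by decide, rfl⟩
    · exact ⟨2, by decide, rfl⟩
    · simp at hy

/-- For a plane point set, a minor with an independent triple is a deletion. -/
theorem minor_indep_iff {m : ℕ} (pt : Fin m → (Fin 3 → F)) (hs : IsSimple (planeMat pt))
    {N : Matroid (Fin m)} (hN : N.IsMinor (planeMat pt)) {X : Set (Fin m)} (hX : N.Indep X)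
    (hX3 : X.ncard = 3) (Y : Set (Fin m)) (hY : Y ⊆ N.E) :
    N.Indep Y ↔ LinearIndepOn F pt Y := by
  obtain ⟨C, D, hC, hD, hCD, rfl⟩ := hN.exists_eq_contract_delete_disjoint
  have hCe : C = ∅ := by
    by_contra hne
    obtain ⟨c, hc⟩ := Set.nonempty_iff_ne_empty.2 hne
    have hci : (planeMat pt).Indep {c} := by simpa using hs c (hC hc) c (hC hc)
    obtain ⟨J, hJ, hcJ⟩ := hci.subset_isBasis_of_subset (Set.singleton_subset_iff.2 hc)
    have h1 := hX.of_delete
    rw [hJ.contract_indep_iff] at h1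
    have h2 := (planeMat_rep pt _ (subset_univ _)).1 h1.1
    have h3 := finrank_span_of_linearIndepOn h2 (Set.toFinite _)
    have h4 : finrank F (span F (pt '' (X ∪ J))) ≤ 3 := by
      refine (Submodule.finrank_le _).trans ?_
      rw [Module.finrank_fin_fun]
    have h5 : c ∉ X := fun hcX => Set.disjoint_left.1 h1.2 hc hcX
    have h6 : (insert c X).ncard = 4 := by
      rw [Set.ncard_insert_of_notMem h5 (Set.toFinite _), hX3]
    have h7 : (insert c X).ncard ≤ (X ∪ J).ncard := by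
      apply Set.ncard_le_ncard _ (Set.toFinite _)
      rw [Set.insert_subset_iff]
      exact ⟨Set.mem_union_right _ (hcJ rfl), Set.subset_union_left⟩
    omega
  subst hCe
  have hYD : Disjoint Y D := by
    rw [Set.disjoint_left]
    intro x hx
    exact (hY hx).2
  rw [Matroid.delete_indep_iff, and_iff_left hYD, Matroid.contract_empty,
    planeMat_rep pt _ (subset_univ _)]

/-- A set of points of a Hermitian curve has no minor isomorphic to the cycle matroid of `K_4`. -/
theorem no_K4 {m : ℕ} (pt : Fin m → (Fin 3 → F)) (hs : IsSimple (planeMat pt)) (σ : F →+* F)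
    (hiso : ∀ i, herm σ (pt i) (pt i) = 0) {N : Matroid (Fin m)}
    (hN : N.IsMinor (planeMat pt)) {K : Matroid (Sym2 (Fin 4))} (hK : IsCompleteGraphMatroid 4 K)
    (hNK : Iso N K) : False := by
  obtain ⟨e, he⟩ := hNK
  have hE := hK.1
  have hmem : ∀ i j : Fin 4, i ≠ j → s(i, j) ∈ K.E := by
    intro i j hij
    rw [hE]
    simpa using hij
  have htrans : ∀ (a b c : Sym2 (Fin 4)) (ha : a ∈ K.E) (hb : b ∈ K.E) (hc : c ∈ K.E),
      K.Indep {a, b, c} ↔
        N.Indep {(e.symm ⟨a, ha⟩ : Fin m), (e.symm ⟨b, hb⟩ : Fin m), (e.symm ⟨c, hc⟩ : Fin m)} := by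
    intro a b c ha hb hc
    have h1 := he {e.symm ⟨a, ha⟩, e.symm ⟨b, hb⟩, e.symm ⟨c, hc⟩}
    simp only [Set.image_insert_eq, Set.image_singleton, Equiv.apply_symm_apply] at h1
    exact h1.symm
  obtain ⟨k0, k1, k2, k3, k4⟩ := K4_facts hK
  have h01 := hmem 0 1 (by decide)
  have h02 := hmem 0 2 (by decide)
  have h03 := hmem 0 3 (by decide)
  have h12 := hmem 1 2 (by decide)
  have h13 := hmem 1 3 (by decide)
  have h23 := hmem 2 3 (by decide)
  rw [htrans _ _ _ h01 h02 h03] at k0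
  rw [htrans _ _ _ h01 h02 h12] at k1
  rw [htrans _ _ _ h01 h03 h13] at k2
  rw [htrans _ _ _ h02 h03 h23] at k3
  rw [htrans _ _ _ h12 h13 h23] at k4
  have hne : ∀ (a b : Sym2 (Fin 4)) (ha : a ∈ K.E) (hb : b ∈ K.E), a ≠ b →
      (e.symm ⟨a, ha⟩ : Fin m) ≠ (e.symm ⟨b, hb⟩ : Fin m) := by
    intro a b ha hb hab h
    apply hab
    have := e.symm.injective (Subtype.ext h)
    exact congrArg Subtype.val this
  set p01 := (e.symm ⟨_, h01⟩ : Fin m) with hp01
  set p02 := (e.symm ⟨_, h02⟩ : Fin m) with hp02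
  set p03 := (e.symm ⟨_, h03⟩ : Fin m) with hp03
  set p12 := (e.symm ⟨_, h12⟩ : Fin m) with hp12
  set p13 := (e.symm ⟨_, h13⟩ : Fin m) with hp13
  set p23 := (e.symm ⟨_, h23⟩ : Fin m) with hp23
  have n12 : p01 ≠ p02 := hne _ _ h01 h02 (by decide)
  have n13 : p01 ≠ p03 := hne _ _ h01 h03 (by decide)
  have n23 : p02 ≠ p03 := hne _ _ h02 h03 (by decide)
  have m1 : p01 ≠ p12 := hne _ _ h01 h12 (by decide)
  have m2 : p02 ≠ p12 := hne _ _ h02 h12 (by decide)
  have m3 : p01 ≠ p13 := hne _ _ h01 h13 (by decide)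
  have m4 : p03 ≠ p13 := hne _ _ h03 h13 (by decide)
  have m5 : p02 ≠ p23 := hne _ _ h02 h23 (by decide)
  have m6 : p03 ≠ p23 := hne _ _ h03 h23 (by decide)
  have m7 : p12 ≠ p13 := hne _ _ h12 h13 (by decide)
  have m8 : p12 ≠ p23 := hne _ _ h12 h23 (by decide)
  have m9 : p13 ≠ p23 := hne _ _ h13 h23 (by decide)
  have hcard : ({p01, p02, p03} : Set (Fin m)).ncard = 3 := by
    rw [Set.ncard_eq_three]
    exact ⟨_, _, _, n12, n13, n23, rfl⟩
  have hiff := minor_indep_iff pt hs hN k0 hcard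
  have hpE : ∀ a : Sym2 (Fin 4), ∀ ha : a ∈ K.E, (e.symm ⟨a, ha⟩ : Fin m) ∈ N.E :=
    fun a ha => (e.symm ⟨a, ha⟩).2
  have hsub : ∀ x y z : Fin m, x ∈ N.E → y ∈ N.E → z ∈ N.E → ({x, y, z} : Set (Fin m)) ⊆ N.E := by
    rintro x y z hx hy hz w (rfl | rfl | rfl) <;> assumption
  rw [hiff _ (hsub _ _ _ (hpE _ _) (hpE _ _) (hpE _ _)), linearIndepOn_triple _ n12 n13 n23] at k0
  rw [hiff _ (hsub _ _ _ (hpE _ _) (hpE _ _) (hpE _ _))] at k1 k2 k3 k4
  rw [linearIndepOn_triple _ m7 m8 m9] at k4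
  -- coefficients
  have hcoef : ∀ x y z : Fin m, x ≠ y → x ≠ z → y ≠ z → ¬ LinearIndepOn F pt {x, y, z} →
      ∃ a b : F, pt z = a • pt x + b • pt y ∧ b ≠ 0 ∧ a ≠ 0 := by
    intro x y z hxy hxz hyz h
    have hpair : LinearIndepOn F pt {x, y} := by
      rw [← planeMat_rep pt _ (subset_univ _)]
      exact hs x (mem_univ _) y (mem_univ _)
    have hmemz : pt z ∈ span F (pt '' {x, y}) := by
      by_contra hnot
      apply h
      have := hpair.insert hnot
      have heq : insert z ({x, y} : Set (Fin m)) = {x, y, z} := by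
        ext w
        simp only [mem_insert_iff, mem_singleton_iff]
        tauto
      rwa [heq] at this
    rw [image_pair, mem_span_pair] at hmemz
    obtain ⟨a, b, hab⟩ := hmemz
    refine ⟨a, b, hab.symm, ?_, ?_⟩
    · rintro rfl
      rw [zero_smul, add_zero] at hab
      exact hxz ((planeMat_rep pt).eq_of_smul hs (mem_univ _) (mem_univ _) hab.symm).symm
    · rintro rfl
      rw [zero_smul, zero_add] at hab
      exact hyz ((planeMat_rep pt).eq_of_smul hs (mem_univ _) (mem_univ _) hab.symm).symm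
  obtain ⟨a1, a2, ha, ha2, ha1⟩ := hcoef _ _ _ n12 m1 m2 k1
  obtain ⟨b1, b3, hb, hb3, hb1⟩ := hcoef _ _ _ n13 m3 m4 k2
  obtain ⟨c2, c3, hc, hc3, hc2⟩ := hcoef _ _ _ n23 m5 m6 k3
  have hdet := det3_ne_zero k0
  have hdet2 : det3 (pt p12) (pt p13) (pt p23) = 0 := by
    by_contra h
    exact k4 (linearIndependent_of_det3 h)
  have hcol : a1 * b3 * c2 + a2 * b1 * c3 = 0 := by
    have h1 : det3 (pt p12) (pt p13) (pt p23) =
        - ((a1 * b3 * c2 + a2 * b1 * c3) * det3 (pt p01) (pt p02) (pt p03)) := by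
      rw [ha, hb, hc]
      simp only [det3, Pi.add_apply, Pi.smul_apply, smul_eq_mul]
      ring
    rw [hdet2] at h1
    rcases mul_eq_zero.1 (neg_eq_zero.1 h1.symm) with h | h
    · exact h
    · exact absurd h hdet
  exact onan σ (pt p01) (pt p02) (pt p03) hdet (hiso _) (hiso _) (hiso _) ha2 hb1 hc3
    (ha ▸ hiso _) (hb ▸ hiso _) (hc ▸ hiso _) hcol

/-- A rank two simple matroid of critical exponent one has at most `q` points. -/
theorem ncard_le_of_rank_two [Finite F] {α W : Type*} [AddCommGroup W] [Module F W]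
    [FiniteDimensional F W] {N : Matroid α} [N.Finite] {u : α → W} (h : Rep F N u)
    (hs : IsSimple N) (hr : rk N N.E ≤ 2) (f : W →ₗ[F] (Fin 1 → F))
    (hf : ∀ x ∈ N.E, f (u x) ≠ 0) : N.E.ncard ≤ Nat.card F := by
  rcases N.E.eq_empty_or_nonempty with h0 | ⟨x₀, hx₀⟩
  · rw [h0, Set.ncard_empty]
    exact Nat.zero_le _
  let g : W →ₗ[F] F := (LinearMap.proj 0).comp f
  have hg : ∀ x ∈ N.E, g (u x) ≠ 0 := by
    intro x hx h0
    apply hf x hx
    ext i
    rw [Subsingleton.elim i 0]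
    exact h0
  set V := span F (u '' N.E) with hV
  have hVr : finrank F V ≤ 2 := by rwa [← h.rk_eq Subset.rfl]
  let gV : V →ₗ[F] F := g.comp V.subtype
  set K := LinearMap.ker gV with hK
  have hmem : ∀ x ∈ N.E, u x ∈ V := fun x hx => subset_span (mem_image_of_mem u hx)
  have hKr : finrank F K ≤ 1 := by
    have h1 := LinearMap.finrank_range_add_finrank_ker gV
    have h2 : 1 ≤ finrank F (LinearMap.range gV) := by
      rw [Nat.one_le_iff_ne_zero, Ne, Submodule.finrank_eq_zero]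
      intro hbot
      have h3 : gV ⟨u x₀, hmem x₀ hx₀⟩ ∈ LinearMap.range gV := ⟨_, rfl⟩
      rw [hbot, Submodule.mem_bot] at h3
      exact hg x₀ hx₀ h3
    have h4 : finrank F K = finrank F (LinearMap.ker gV) := rfl
    omega
  have hKc : Nat.card K ≤ Nat.card F := by
    rw [Module.natCard_eq_pow_finrank (K := F)]
    calc Nat.card F ^ finrank F K ≤ Nat.card F ^ 1 := Nat.pow_le_pow_right Nat.card_pos hKr
      _ = Nat.card F := pow_one _
  refine le_trans ?_ hKc
  rw [← Nat.card_coe_set_eq]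
  have hfK : Finite K := Module.finite_of_finite F
  let y : N.E → V := fun x => (g (u x))⁻¹ • ⟨u x, hmem x x.2⟩
  have hy : ∀ x, gV (y x) = 1 := by
    intro x
    simp only [y, map_smul, smul_eq_mul]
    exact inv_mul_cancel₀ (hg x x.2)
  refine Nat.card_le_card_of_injective
    (fun x : N.E => (⟨y x - y ⟨x₀, hx₀⟩, by rw [hK, LinearMap.mem_ker, map_sub, hy, hy, sub_self]⟩ : K)) ?_
  intro a b hab
  have h1 : y a = y b := by
    have := congrArg Subtype.val hab
    simpa using this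
  have h2 : (g (u a))⁻¹ • u a = (g (u b))⁻¹ • u b := congrArg Subtype.val h1
  apply Subtype.ext
  refine h.eq_of_smul hs a.2 b.2 (c := g (u a) * (g (u b))⁻¹) ?_
  rw [← smul_smul, ← h2, smul_smul, mul_inv_cancel₀ (hg a a.2), one_smul]

end Pool.Agent.Helper236
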