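import Pool.Agent.Helper236.Defs

namespace Pool.Agent.Helper236

open Set Module Submodule

variable {α β F W : Type*} [Field F] [AddCommGroup W] [Module F W]

/-- representation by vectors in an arbitrary space -/
def Rep (F : Type*) [Field F] {W : Type*} [AddCommGroup W] [Module F W]
    (M : Matroid α) (v : α → W) : Prop :=
  ∀ I ⊆ M.E, M.Indep I ↔ LinearIndepOn F v I

theorem finrank_span_of_linearIndepOn {v : α → W} {I : Set α} (hI : LinearIndepOn F v I)
    (hIf : I.Finite) : finrank F (span F (v '' I)) = I.ncard := by
  have : Fintype I := hIf.fintype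
  have h := finrank_span_eq_card (R := F) (b := fun x : I => v x) hI.linearIndependent
  rw [← image_eq_range] at h
  rw [h, Set.ncard_eq_toFinset_card' I, Set.toFinset_card]

theorem linAug {v : α → W} {I J : Set α} (hI : LinearIndepOn F v I) (hJ : LinearIndepOn F v J)
    (hIf : I.Finite) (hJf : J.Finite) (h : I.ncard < J.ncard) :
    ∃ e ∈ J, e ∉ I ∧ LinearIndepOn F v (insert e I) := by
  by_contra hcon
  push Not at hcon
  have hsub : v '' J ⊆ span F (v '' I) := by
    rintro _ ⟨e, heJ, rfl⟩
    by_contra hnot
    have heI : e ∉ I := fun he => hnot (subset_span (mem_image_of_mem v he))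
    exact hcon e heJ heI (hI.insert hnot)
  have hle : span F (v '' J) ≤ span F (v '' I) := span_le.2 hsub
  have hfd : FiniteDimensional F (span F (v '' I)) :=
    FiniteDimensional.span_of_finite F (hIf.image v)
  have h1 : finrank F (span F (v '' J)) ≤ finrank F (span F (v '' I)) :=
    Submodule.finrank_mono hle
  rw [finrank_span_of_linearIndepOn hI hIf, finrank_span_of_linearIndepOn hJ hJf] at h1
  omega

/-- the matroid of a finite family of vectors -/
noncomputable def linMatroid (F : Type*) [Field F] {W : Type*} [AddCommGroup W] [Module F W]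
    (v : α → W) (E : Set α) (hE : E.Finite) : Matroid α :=
  (IndepMatroid.ofFinite hE (fun I => I ⊆ E ∧ LinearIndepOn F v I)
    ⟨empty_subset _, linearIndepOn_empty _ _⟩
    (fun _ _ hJ hIJ => ⟨hIJ.trans hJ.1, hJ.2.mono hIJ⟩)
    (by
      intro I J hI hJ hlt
      obtain ⟨e, heJ, heI, hi⟩ := linAug hI.2 hJ.2 (hE.subset hI.1) (hE.subset hJ.1) hlt
      exact ⟨e, heJ, heI, insert_subset (hJ.1 heJ) hI.1, hi⟩)
    (fun _ h => h.1)).matroid

@[simp] theorem linMatroid_E (v : α → W) (E : Set α) (hE : E.Finite) :
    (linMatroid F v E hE).E = E := rfl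

theorem linMatroid_indep (v : α → W) (E : Set α) (hE : E.Finite) (I : Set α) :
    (linMatroid F v E hE).Indep I ↔ I ⊆ E ∧ LinearIndepOn F v I := Iff.rfl

theorem linMatroid_finite (v : α → W) (E : Set α) (hE : E.Finite) :
    (linMatroid F v E hE).Finite := ⟨hE⟩

theorem linMatroid_rep (v : α → W) (E : Set α) (hE : E.Finite) :
    Rep F (linMatroid F v E hE) v := by
  intro I hI
  rw [linMatroid_indep]
  exact and_iff_right hI

variable {M : Matroid α} {v : α → W}

theorem Rep.mem_closure_iff (h : Rep F M v) {X : Set α} (hX : X ⊆ M.E) {e : α} (he : e ∈ M.E) :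
    e ∈ M.closure X ↔ v e ∈ span F (v '' X) := by
  obtain ⟨I, hI⟩ := M.exists_isBasis X hX
  have hIi : LinearIndepOn F v I := (h I (hI.subset.trans hX)).1 hI.indep
  have hspan : span F (v '' I) = span F (v '' X) := by
    apply le_antisymm (span_mono (image_mono hI.subset))
    rw [span_le]
    rintro _ ⟨x, hx, rfl⟩
    by_contra hnot
    have hins := (h (insert x I) (insert_subset (hX hx) (hI.subset.trans hX))).2 (hIi.insert hnot)
    have := hI.mem_of_insert_indep hx hins
    exact hnot (subset_span (mem_image_of_mem v this))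
  rw [← hI.closure_eq_closure, ← hspan, hI.indep.mem_closure_iff']
  constructor
  · rintro ⟨-, h2⟩
    by_contra hnot
    have := h2 ((h (insert e I) (insert_subset he (hI.subset.trans hX))).2 (hIi.insert hnot))
    exact hnot (subset_span (mem_image_of_mem v this))
  · intro h2
    refine ⟨he, fun hins => ?_⟩
    by_contra heI
    have := (h (insert e I) (insert_subset he (hI.subset.trans hX))).1 hins
    exact this.notMem_span_of_insert heI h2

theorem Rep.rk_eq (h : Rep F M v) [M.Finite] {X : Set α} (hX : X ⊆ M.E) :
    rk M X = finrank F (span F (v '' X)) := by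
  obtain ⟨I, hI⟩ := M.exists_isBasis X hX
  have hIi : LinearIndepOn F v I := (h I (hI.subset.trans hX)).1 hI.indep
  have hIf : I.Finite := M.ground_finite.subset (hI.subset.trans hX)
  have hspan : span F (v '' I) = span F (v '' X) := by
    apply le_antisymm (span_mono (image_mono hI.subset))
    rw [span_le]
    rintro _ ⟨x, hx, rfl⟩
    by_contra hnot
    have hins := (h (insert x I) (insert_subset (hX hx) (hI.subset.trans hX))).2 (hIi.insert hnot)
    have := hI.mem_of_insert_indep hx hins
    exact hnot (subset_span (mem_image_of_mem v this))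
  rw [rk, ← hI.encard_eq_eRk, ← hspan, finrank_span_of_linearIndepOn hIi hIf]
  rfl

theorem Rep.comp_injective (h : Rep F M v) {W' : Type*} [AddCommGroup W'] [Module F W']
    (g : W →ₗ[F] W') (hg : Function.Injective g) : Rep F M (g ∘ v) := by
  intro I hI
  rw [h I hI]
  constructor
  · intro hi
    exact hi.map_injOn g hg.injOn
  · intro hi
    exact hi.of_comp g

/-- a minor `M ／ C ＼ D` is represented in the quotient space. -/
theorem Rep.minor (h : Rep F M v) (C D : Set α) (hC : C ⊆ M.E) :
    Rep F ((M.contract C).delete D) ((span F (v '' C)).mkQ ∘ v) := by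
  intro J hJ
  have hJE : J ⊆ M.E := hJ.trans (sdiff_subset.trans sdiff_subset)
  have hJC : Disjoint C J := by
    rw [Set.disjoint_left]
    intro x hxC hxJ
    exact (hJ hxJ).1.2 hxC
  have hJD : Disjoint J D := by
    rw [Set.disjoint_left]
    intro x hxJ hxD
    exact (hJ hxJ).2 hxD
  obtain ⟨I, hI⟩ := M.exists_isBasis C hC
  have hIi : LinearIndepOn F v I := (h I (hI.subset.trans hC)).1 hI.indep
  have hspan : span F (v '' I) = span F (v '' C) := by
    apply le_antisymm (span_mono (image_mono hI.subset))
    rw [span_le]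
    rintro _ ⟨x, hx, rfl⟩
    by_contra hnot
    have hins := (h (insert x I) (insert_subset (hC hx) (hI.subset.trans hC))).2 (hIi.insert hnot)
    have := hI.mem_of_insert_indep hx hins
    exact hnot (subset_span (mem_image_of_mem v this))
  rw [Matroid.delete_indep_iff, and_iff_left hJD, hI.contract_indep_iff, and_iff_left hJC,
    union_comm, h _ (union_subset (hI.subset.trans hC) hJE), ← hspan]
  have hIJ : Disjoint I J := hJC.mono_left hI.subset
  rw [linearIndepOn_union_iff_quotient hIJ, and_iff_right hIi]

end Pool.Agent.Helper236
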