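import Mathlib

namespace Pool.Agent.Helper236.LinSpace

open Finset

variable {ι : Type*} [Fintype ι] [DecidableEq ι] {line : ι → ι → Finset ι}

/-- the axioms of a finite linear space, `line a b` being used for `a ≠ b` only -/
structure Axioms (line : ι → ι → Finset ι) : Prop where
  left : ∀ a b, a ≠ b → a ∈ line a b
  right : ∀ a b, a ≠ b → b ∈ line a b
  uniq : ∀ a b c d, a ≠ b → c ∈ line a b → d ∈ line a b → c ≠ d → line c d = line a b

/-- lines through a point -/
def lines (line : ι → ι → Finset ι) (a : ι) : Finset (Finset ι) := (univ.erase a).image (line a)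

/-- long lines through a point -/
def longs (line : ι → ι → Finset ι) (a : ι) : Finset (Finset ι) :=
  (lines line a).filter (fun L => 3 ≤ L.card)

theorem mem_lines {a : ι} {L : Finset ι} : L ∈ lines line a ↔ ∃ b, b ≠ a ∧ line a b = L := by
  simp [lines]

theorem self_mem (h : Axioms line) {a : ι} {L : Finset ι} (hL : L ∈ lines line a) : a ∈ L := by
  obtain ⟨b, hb, rfl⟩ := mem_lines.1 hL
  exact h.left a b hb.symm

theorem two_le (h : Axioms line) {a : ι} {L : Finset ι} (hL : L ∈ lines line a) :
    2 ≤ L.card := by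
  obtain ⟨b, hb, rfl⟩ := mem_lines.1 hL
  have : ({a, b} : Finset ι) ⊆ line a b := by
    intro x hx
    simp only [mem_insert, mem_singleton] at hx
    rcases hx with rfl | rfl
    · exact h.left _ _ hb.symm
    · exact h.right _ _ hb.symm
  calc 2 = ({a, b} : Finset ι).card := (card_pair hb.symm).symm
    _ ≤ _ := card_le_card this

theorem line_eq (h : Axioms line) {a c : ι} {L : Finset ι} (hL : L ∈ lines line a)
    (hc : c ∈ L) (hca : c ≠ a) : line a c = L := by
  obtain ⟨b, hb, rfl⟩ := mem_lines.1 hL
  exact h.uniq a b a c hb.symm (h.left _ _ hb.symm) hc hca.symm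

theorem mem_lines_of_mem (h : Axioms line) {a c : ι} {L : Finset ι} (hL : L ∈ lines line a)
    (hc : c ∈ L) : L ∈ lines line c := by
  by_cases hca : c = a
  · rw [hca]
    exact hL
  · have h1 := line_eq h hL hc hca
    refine mem_lines.2 ⟨a, Ne.symm hca, ?_⟩
    rw [← h1]
    exact h.uniq a c c a (Ne.symm hca) (h.right _ _ (Ne.symm hca)) (h.left _ _ (Ne.symm hca)) hca

theorem sum_lines (h : Axioms line) (a : ι) :
    ∑ L ∈ lines line a, ((L.card : ℤ) - 1) = (Fintype.card ι : ℤ) - 1 := by
  have h1 := Finset.card_eq_sum_card_image (line a) (univ.erase a)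
  have h2 : ∀ L ∈ lines line a, (((univ.erase a).filter (fun x => line a x = L)).card : ℤ) =
      (L.card : ℤ) - 1 := by
    intro L hL
    have h3 : (univ.erase a).filter (fun x => line a x = L) = L.erase a := by
      ext x
      simp only [mem_filter, mem_erase, mem_univ, and_true]
      constructor
      · rintro ⟨hx, rfl⟩
        exact ⟨hx, h.right _ _ (Ne.symm hx)⟩
      · rintro ⟨hx, hxL⟩
        exact ⟨hx, line_eq h hL hxL hx⟩
    rw [h3, card_erase_of_mem (self_mem h hL)]
    have := two_le h hL
    omega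
  rw [← Finset.sum_congr rfl h2]
  rw [← Nat.cast_sum]
  have h4 : (univ.erase a).card = Fintype.card ι - 1 := by
    rw [card_erase_of_mem (mem_univ a), card_univ]
  have h5 : 0 < Fintype.card ι := Fintype.card_pos_iff.2 ⟨a⟩
  have h6 : ∑ L ∈ lines line a, ((univ.erase a).filter (fun x => line a x = L)).card =
      Fintype.card ι - 1 := by
    rw [← h4, h1]
    rfl
  rw [h6]
  omega

theorem sum_longs (h : Axioms line) (a : ι) :
    ∑ L ∈ longs line a, ((L.card : ℤ) - 2) =
      (Fintype.card ι : ℤ) - 1 - (lines line a).card := by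
  have h1 : ∑ L ∈ lines line a, ((L.card : ℤ) - 2) =
      (Fintype.card ι : ℤ) - 1 - (lines line a).card := by
    rw [← sum_lines h a]
    simp only [Finset.sum_sub_distrib, sum_const, mul_one, nsmul_eq_mul]
    ring
  rw [← h1, longs, Finset.sum_filter]
  refine Finset.sum_congr rfl fun L hL => ?_
  split_ifs with h3
  · rfl
  · have := two_le h hL
    have : L.card = 2 := by omega
    rw [this]
    norm_num

/-- the inequality for a long line -/
theorem long_ineq (h : Axioms line)
    (htri : ∀ a b c, a ≠ b → a ≠ c → b ≠ c → 3 ≤ (line a b).card → 3 ≤ (line a c).card →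
      3 ≤ (line b c).card → c ∈ line a b)
    {p : ι} {L : Finset ι} (hL : L ∈ longs line p) :
    ∑ a ∈ L, ((Fintype.card ι : ℤ) - (lines line a).card + (longs line a).card - L.card) ≤
      (Fintype.card ι : ℤ) - L.card := by
  have hL1 : L ∈ lines line p := (mem_filter.1 hL).1
  have hL3 : 3 ≤ L.card := (mem_filter.1 hL).2
  have hLa : ∀ a ∈ L, L ∈ longs line a := fun a ha =>
    mem_filter.2 ⟨mem_lines_of_mem h hL1 ha, hL3⟩
  -- the number of outside points on long lines through `a`
  have key : ∀ a ∈ L, (Fintype.card ι : ℤ) - (lines line a).card + (longs line a).card - L.card ≤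
      (((univ \ L).filter (fun c => 3 ≤ (line a c).card)).card : ℤ) := by
    intro a ha
    have h1 : ∑ L' ∈ (longs line a).erase L, ((L'.card : ℤ) - 1) =
        (Fintype.card ι : ℤ) - (lines line a).card + (longs line a).card - L.card := by
      have h2 := Finset.add_sum_erase (longs line a) (fun L' => (L'.card : ℤ) - 1) (hLa a ha)
      have h3 : ∑ L' ∈ longs line a, ((L'.card : ℤ) - 1) =
          (Fintype.card ι : ℤ) - 1 - (lines line a).card + (longs line a).card := by
        rw [← sum_longs h a]
        simp only [Finset.sum_sub_distrib, sum_const, nsmul_eq_mul]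
        ring
      linarith
    rw [← h1]
    have hdisj : ((longs line a).erase L : Set (Finset ι)).PairwiseDisjoint
        (fun L' => L'.erase a) := by
      intro L1 hL1' L2 hL2' hne
      rw [Function.onFun, Finset.disjoint_left]
      intro x hx1 hx2
      apply hne
      have hx1' := mem_erase.1 hx1
      have hx2' := mem_erase.1 hx2
      have e1 := line_eq h (mem_filter.1 (mem_erase.1 hL1').2).1 hx1'.2 hx1'.1
      have e2 := line_eq h (mem_filter.1 (mem_erase.1 hL2').2).1 hx2'.2 hx2'.1
      rw [← e1, ← e2]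
    have h4 : ∑ L' ∈ (longs line a).erase L, ((L'.card : ℤ) - 1) =
        ((((longs line a).erase L).biUnion (fun L' => L'.erase a)).card : ℤ) := by
      rw [Finset.card_biUnion hdisj, Nat.cast_sum]
      refine Finset.sum_congr rfl fun L' hL' => ?_
      have hm := (mem_filter.1 (mem_erase.1 hL').2)
      rw [card_erase_of_mem (self_mem h hm.1)]
      have := hm.2
      omega
    rw [h4]
    have h5 : ((longs line a).erase L).biUnion (fun L' => L'.erase a) ⊆
        (univ \ L).filter (fun c => 3 ≤ (line a c).card) := by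
      intro c hc
      obtain ⟨L', hL', hc'⟩ := mem_biUnion.1 hc
      have hm := (mem_filter.1 (mem_erase.1 hL').2)
      have hc'' := mem_erase.1 hc'
      have e1 := line_eq h hm.1 hc''.2 hc''.1
      refine mem_filter.2 ⟨mem_sdiff.2 ⟨mem_univ _, ?_⟩, by rw [e1]; exact hm.2⟩
      intro hcL
      apply (mem_erase.1 hL').1
      rw [← e1]
      exact line_eq h (mem_filter.1 (hLa a ha)).1 hcL hc''.1
    exact_mod_cast card_le_card h5
  refine (Finset.sum_le_sum key).trans ?_
  have h6 : ∑ a ∈ L, (((univ \ L).filter (fun c => 3 ≤ (line a c).card)).card : ℤ) =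
      ∑ c ∈ univ \ L, ((L.filter (fun a => 3 ≤ (line a c).card)).card : ℤ) := by
    simp only [card_filter, Nat.cast_sum]
    rw [Finset.sum_comm]
  rw [h6]
  have h7 : ∀ c ∈ univ \ L, ((L.filter (fun a => 3 ≤ (line a c).card)).card : ℤ) ≤ 1 := by
    intro c hc
    have hcL : c ∉ L := (mem_sdiff.1 hc).2
    have : (L.filter (fun a => 3 ≤ (line a c).card)).card ≤ 1 := by
      rw [Finset.card_le_one]
      intro a ha b hb
      by_contra hab
      have ha' := mem_filter.1 ha
      have hb' := mem_filter.1 hb
      have hac : a ≠ c := fun h => hcL (h ▸ ha'.1)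
      have hbc : b ≠ c := fun h => hcL (h ▸ hb'.1)
      have e1 := line_eq h (mem_filter.1 (hLa a ha'.1)).1 hb'.1 (Ne.symm hab)
      apply hcL
      rw [← e1]
      exact htri a b c hab hac hbc (by rw [e1]; exact hL3) ha'.2 hb'.2
    exact_mod_cast this
  refine (Finset.sum_le_sum h7).trans ?_
  rw [sum_const, nsmul_eq_mul, mul_one, card_sdiff, Finset.inter_univ, card_univ]
  have : L.card ≤ Fintype.card ι := card_le_univ L
  omega


section bounds

variable {q : ℕ} (h : Axioms line) (hd : ∀ a, (lines line a).card ≤ q)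
  (hc : ∀ a, ∀ L ∈ lines line a, L.card + q ≤ Fintype.card ι)
  (hne : ∃ a b : ι, a ≠ b)
  (htri : ∀ a b c, a ≠ b → a ≠ c → b ≠ c → 3 ≤ (line a b).card → 3 ≤ (line a c).card →
      3 ≤ (line b c).card → c ∈ line a b)

include h hd hc hne

theorem two_le_longs (a : ι) : 2 ≤ (longs line a).card := by
  obtain ⟨x, y, hxy⟩ := hne
  obtain ⟨b, hb⟩ : ∃ b, b ≠ a := by
    by_cases hxa : x = a
    · exact ⟨y, fun hy => hxy (hxa.trans hy.symm)⟩
    · exact ⟨x, hxa⟩
  have hL0 : line a b ∈ lines line a := mem_lines.2 ⟨b, hb, rfl⟩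
  have h1 := hc a _ hL0
  have h2 := two_le h hL0
  have h3 := sum_longs h a
  have h4 := hd a
  have h5 : ∑ L ∈ longs line a, ((L.card : ℤ) - 2) ≤
      ∑ L ∈ longs line a, ((Fintype.card ι : ℤ) - q - 2) := by
    refine Finset.sum_le_sum fun L hL => ?_
    have := hc a L (mem_filter.1 hL).1
    omega
  rw [h3, sum_const, nsmul_eq_mul] at h5
  by_contra hlt
  have h6 : (longs line a).card = 0 ∨ (longs line a).card = 1 := by omega
  rcases h6 with h6 | h6 <;> rw [h6] at h5 <;> push_cast at h5 <;> omega

include htri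

/-- The main inequality for the number of points. -/
theorem card_bound : 2 * Fintype.card ι ≤ 3 * q := by
  obtain ⟨x, y, hxy⟩ := hne
  have h2 := two_le_longs h hd hc ⟨x, y, hxy⟩
  obtain ⟨L, hL⟩ : (longs line x).Nonempty := by
    rw [← Finset.card_pos]
    have := h2 x
    omega
  have h1 := long_ineq h htri hL
  have hL3 : 3 ≤ L.card := (mem_filter.1 hL).2
  have hLk := hc x L (mem_filter.1 hL).1
  have h3 : ∑ a ∈ L, ((Fintype.card ι : ℤ) - q + 2 - L.card) ≤
      ∑ a ∈ L, ((Fintype.card ι : ℤ) - (lines line a).card + (longs line a).card - L.card) := by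
    refine Finset.sum_le_sum fun a _ => ?_
    have := hd a
    have := h2 a
    omega
  have h4 := h3.trans h1
  rw [sum_const, nsmul_eq_mul] at h4
  have h5 : (3 : ℤ) ≤ L.card := by exact_mod_cast hL3
  have h6 : (L.card : ℤ) + q ≤ Fintype.card ι := by exact_mod_cast hLk
  have h7 : (2 : ℤ) * Fintype.card ι ≤ 3 * q := by nlinarith
  exact_mod_cast h7

/-- There is no such linear space with many tangents. -/
theorem no_space (hT : 2 * ((q : ℤ) ^ 2 + q + 1) ≤ (Fintype.card ι : ℤ) * (q + 1) +
    ∑ a, ((q : ℤ) + 1 - (lines line a).card)) : False := by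
  have hb := card_bound h hd hc hne htri
  have h2 := two_le_longs h hd hc hne
  obtain ⟨x0, y0, hxy⟩ := hne
  set τ : ι → ℤ := fun a => (q : ℤ) + 1 - (lines line a).card with hτ
  set k : ℤ := (Fintype.card ι : ℤ) - q with hk
  obtain ⟨p, -, hp⟩ := Finset.exists_max_image (univ : Finset ι) τ ⟨x0, mem_univ _⟩
  -- long lines through `p`
  have hlong : ∀ L ∈ longs line p, ∑ c ∈ L.erase p, τ c ≤
      (q : ℤ) + 2 - k - (longs line p).card - τ p := by
    intro L hL
    have h1 := long_ineq h htri hL
    have hL1 : L ∈ lines line p := (mem_filter.1 hL).1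
    have hL3 : 3 ≤ L.card := (mem_filter.1 hL).2
    have hLk := hc p L hL1
    have hpL : p ∈ L := self_mem h hL1
    rw [← Finset.add_sum_erase _ _ hpL] at h1
    have h3 : ∑ c ∈ L.erase p, (τ c + (k + 1 - L.card)) ≤
        ∑ a ∈ L.erase p, ((Fintype.card ι : ℤ) - (lines line a).card +
          (longs line a).card - L.card) := by
      refine Finset.sum_le_sum fun a _ => ?_
      have := h2 a
      simp only [hτ, hk]
      omega
    rw [Finset.sum_add_distrib, sum_const, card_erase_of_mem hpL, nsmul_eq_mul] at h3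
    have h5 : (3 : ℤ) ≤ L.card := by exact_mod_cast hL3
    have h6 : (L.card : ℤ) + q ≤ Fintype.card ι := by exact_mod_cast hLk
    have h8 : ((L.card - 1 : ℕ) : ℤ) = (L.card : ℤ) - 1 := by omega
    rw [h8] at h3
    have h9 : (Fintype.card ι : ℤ) - (lines line p).card + (longs line p).card - L.card =
        k - 1 + τ p + (longs line p).card - L.card := by
      simp only [hτ, hk]
      ring
    rw [h9] at h1
    have h10 : (Fintype.card ι : ℤ) = q + k := by rw [hk]; ring
    have h11 : 0 ≤ ((L.card : ℤ) - 2) * (k - L.card) :=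
      mul_nonneg (by linarith) (by linarith)
    nlinarith [h1, h3, h11, h10]
  -- splitting the sum
  have hsplit : ∑ c, τ c = τ p + ∑ L ∈ lines line p, ∑ c ∈ L.erase p, τ c := by
    rw [← Finset.add_sum_erase _ _ (mem_univ p)]
    congr 1
    have hdisj : (lines line p : Set (Finset ι)).PairwiseDisjoint (fun L' => L'.erase p) := by
      intro L1 hL1' L2 hL2' hne
      rw [Function.onFun, Finset.disjoint_left]
      intro x hx1 hx2
      apply hne
      have hx1' := mem_erase.1 hx1
      have hx2' := mem_erase.1 hx2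
      have e1 := line_eq h hL1' hx1'.2 hx1'.1
      have e2 := line_eq h hL2' hx2'.2 hx2'.1
      rw [← e1, ← e2]
    rw [← Finset.sum_biUnion hdisj]
    congr 1
    ext c
    simp only [mem_erase, mem_univ, and_true, mem_biUnion]
    constructor
    · intro hc'
      exact ⟨line p c, mem_lines.2 ⟨c, hc', rfl⟩, hc', h.right _ _ (Ne.symm hc')⟩
    · rintro ⟨L, -, hc', -⟩
      exact hc'
  have hsum : ∑ L ∈ lines line p, ∑ c ∈ L.erase p, τ c ≤
      ((lines line p).card - (longs line p).card : ℤ) * τ p +
      (longs line p).card * ((q : ℤ) + 2 - k - (longs line p).card - τ p) := by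
    rw [← Finset.sum_filter_add_sum_filter_not (lines line p) (fun L => 3 ≤ L.card)]
    have e1 : ∑ L ∈ (lines line p).filter (fun L => 3 ≤ L.card), ∑ c ∈ L.erase p, τ c ≤
        (longs line p).card * ((q : ℤ) + 2 - k - (longs line p).card - τ p) := by
      have := Finset.sum_le_card_nsmul (longs line p) (fun L => ∑ c ∈ L.erase p, τ c) _ hlong
      rw [nsmul_eq_mul] at this
      exact this
    have e2 : ∑ L ∈ (lines line p).filter (fun L => ¬ 3 ≤ L.card), ∑ c ∈ L.erase p, τ c ≤
        (((lines line p).filter (fun L => ¬ 3 ≤ L.card)).card : ℤ) * τ p := by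
      have := Finset.sum_le_card_nsmul ((lines line p).filter (fun L => ¬ 3 ≤ L.card))
        (fun L => ∑ c ∈ L.erase p, τ c) (τ p) (by
          intro L hL
          have hL' := mem_filter.1 hL
          have h3 := two_le h hL'.1
          have h4 : (L.erase p).card = 1 := by
            rw [card_erase_of_mem (self_mem h hL'.1)]
            have := hL'.2
            omega
          obtain ⟨c, hc'⟩ := Finset.card_eq_one.1 h4
          rw [hc', sum_singleton]
          exact hp c (mem_univ c))
      rw [nsmul_eq_mul] at this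
      exact this
    have e3 : (((lines line p).filter (fun L => ¬ 3 ≤ L.card)).card : ℤ) =
        (lines line p).card - (longs line p).card := by
      have := Finset.card_filter_add_card_filter_not (s := lines line p) (fun L => 3 ≤ L.card)
      rw [longs]
      omega
    rw [e3] at e2
    linarith
  have hTk : 2 * ((q : ℤ) ^ 2 + q + 1) ≤ (q + k) * (q + 1) + ∑ c, τ c := by
    have : (q : ℤ) + k = Fintype.card ι := by rw [hk]; ring
    rw [this]
    exact hT
  have ht2 : (2 : ℤ) ≤ (longs line p).card := by exact_mod_cast h2 p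
  have hlines : ((lines line p).card : ℤ) = q + 1 - τ p := by
    simp only [hτ]
    ring
  rw [hlines] at hsum
  rw [hsplit] at hTk
  have hk2 : 2 * k ≤ q := by
    rw [hk]
    have : (2 : ℤ) * Fintype.card ι ≤ 3 * q := by exact_mod_cast hb
    linarith
  have hk0 : 0 ≤ k := by
    have hL0 : line x0 y0 ∈ lines line x0 := mem_lines.2 ⟨y0, hxy.symm, rfl⟩
    have := hc x0 _ hL0
    rw [hk]
    omega
  have hq0 : (0 : ℤ) ≤ q := by positivity
  set t : ℤ := ((longs line p).card : ℤ) with ht
  set u : ℤ := τ p with hu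
  nlinarith [sq_nonneg (2 * (t + u) - (q + 2)), mul_nonneg hk0 (sub_nonneg.2 ht2),
    mul_nonneg hq0 (sub_nonneg.2 hk2)]

end bounds

end Pool.Agent.Helper236.LinSpace
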