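import Pool.Agent.Helper236.Cycle

namespace Pool.Agent.Helper236

open Set Module Submodule

variable {α F W : Type*} [Field F] [AddCommGroup W] [Module F W] {k : ℕ}

theorem linearIndepOn_scale {v w : α → W} {c : α → F} {I : Set α}
    (h : ∀ i ∈ I, w i = c i • v i) (hc : ∀ i ∈ I, c i ≠ 0) :
    LinearIndepOn F v I → LinearIndepOn F w I := by
  intro hI
  have h1 := hI.linearIndependent.units_smul (fun i : I => Units.mk0 (c i) (hc i i.2))
  have h2 : ((fun i : I => Units.mk0 (c i) (hc i i.2)) • fun i : I => v i) =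
      fun i : I => w i := by
    ext i
    simp only [Pi.smul_apply', Units.smul_mk0]
    exact (h i i.2).symm
  rw [h2] at h1
  exact h1

theorem linearIndepOn_scale_iff {v w : α → W} {c : α → F} {I : Set α}
    (h : ∀ i ∈ I, w i = c i • v i) (hc : ∀ i ∈ I, c i ≠ 0) :
    LinearIndepOn F v I ↔ LinearIndepOn F w I := by
  refine ⟨linearIndepOn_scale h hc, linearIndepOn_scale (c := fun i => (c i)⁻¹) ?_ ?_⟩
  · intro i hi
    rw [h i hi, smul_smul, inv_mul_cancel₀ (hc i hi), one_smul]
  · intro i hi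
    exact inv_ne_zero (hc i hi)

variable {M : Matroid α} {v : α → W}

theorem Rep.ne_zero (h : Rep F M v) (hs : IsSimple M) {e : α} (he : e ∈ M.E) : v e ≠ 0 := by
  have h1 : M.Indep {e} := by simpa using hs e he e he
  rw [h _ (by simpa using he)] at h1
  simpa using h1

theorem Rep.eq_of_smul (h : Rep F M v) (hs : IsSimple M) {e f : α} (he : e ∈ M.E)
    (hf : f ∈ M.E) {c : F} (hc : v e = c • v f) : e = f := by
  by_contra hne
  have h1 := hs e he f hf
  rw [h _ (by intro x hx; rcases hx with rfl | rfl <;> assumption)] at h1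
  rw [linearIndepOn_pair_iff v hne (h.ne_zero hs he)] at h1
  have hc0 : c ≠ 0 := by
    rintro rfl
    rw [zero_smul] at hc
    exact h.ne_zero hs he hc
  exact h1 c⁻¹ (by rw [hc, smul_smul, inv_mul_cancel₀ hc0, one_smul])

theorem exists_functional (h : Rep F M v) [M.Finite] {H : Set α}
    (hH : M.IsFlat H) (hr : rk M H + 1 = rk M M.E) :
    ∃ φ : W →ₗ[F] F, (∀ x ∈ H, φ (v x) = 0) ∧ ∀ e ∈ M.E, e ∉ H → φ (v e) ≠ 0 := by
  have hHE : H ⊆ M.E := hH.subset_ground
  have hne : ∃ e₀ ∈ M.E, e₀ ∉ H := by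
    by_contra hcon
    push Not at hcon
    have : H = M.E := Subset.antisymm hHE hcon
    rw [this] at hr
    omega
  obtain ⟨e₀, he₀, he₀H⟩ := hne
  have hnot : v e₀ ∉ span F (v '' H) := by
    intro hmem
    have := (h.mem_closure_iff hHE he₀).2 hmem
    rw [hH.closure] at this
    exact he₀H this
  obtain ⟨φ, hφ1, hφ2⟩ := Submodule.exists_le_ker_of_notMem hnot
  refine ⟨φ, fun x hx => hφ2 (subset_span (mem_image_of_mem v hx)), ?_⟩
  intro e he heH h0
  -- the span of `v '' (insert e₀ H)` is the whole span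
  have hle : span F (v '' insert e₀ H) ≤ span F (v '' M.E) :=
    span_mono (image_mono (insert_subset he₀ hHE))
  have hfdE : FiniteDimensional F (span F (v '' M.E)) :=
    FiniteDimensional.span_of_finite F (M.ground_finite.image v)
  have hlt : span F (v '' H) < span F (v '' insert e₀ H) := by
    refine lt_of_le_of_ne (span_mono (image_mono (subset_insert _ _))) fun heq => hnot ?_
    rw [heq]
    exact subset_span (mem_image_of_mem v (mem_insert _ _))
  have hfdI : FiniteDimensional F (span F (v '' insert e₀ H)) :=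
    FiniteDimensional.span_of_finite F
      ((M.ground_finite.subset (insert_subset he₀ hHE)).image v)
  have hlt' := Submodule.finrank_lt_finrank_of_lt hlt
  rw [← h.rk_eq hHE] at hlt'
  have heq : span F (v '' insert e₀ H) = span F (v '' M.E) := by
    apply Submodule.eq_of_le_of_finrank_le hle
    rw [← h.rk_eq (M := M) Subset.rfl]
    omega
  have hemem : v e ∈ span F (v '' insert e₀ H) := by
    rw [heq]
    exact subset_span (mem_image_of_mem v he)
  rw [image_insert_eq, mem_span_insert] at hemem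
  obtain ⟨c, z, hz, hcz⟩ := hemem
  have hφz : φ z = 0 := hφ2 hz
  rw [hcz, map_add, hφz, add_zero, map_smul, smul_eq_mul] at h0
  have hc : c = 0 := by
    rcases mul_eq_zero.1 h0 with h0 | h0
    · exact h0
    · exact absurd h0 hφ1
  rw [hc, zero_smul, zero_add] at hcz
  have : e ∈ M.closure H := (h.mem_closure_iff hHE he).2 (hcz ▸ hz)
  rw [hH.closure] at this
  exact heH this

/-- In a modular hyperplane, the difference of two normalised points off the hyperplane is
proportional to a point of the hyperplane. -/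
theorem modular_diff (h : Rep F M v) [M.Finite] (hs : IsSimple M) {H : Set α}
    (hH : IsModularHyperplane M H) {φ : W →ₗ[F] F} (hφ0 : ∀ x ∈ H, φ (v x) = 0)
    (hφ1 : ∀ e ∈ M.E, e ∉ H → φ (v e) ≠ 0) {e f : α} (he : e ∈ M.E) (heH : e ∉ H)
    (hf : f ∈ M.E) (hfH : f ∉ H) (hef : e ≠ f) :
    ∃ x ∈ H, ∃ c : F, c ≠ 0 ∧
      (φ (v e))⁻¹ • v e - (φ (v f))⁻¹ • v f = c • v x := by
  have hHE : H ⊆ M.E := hH.1.1.subset_ground
  set L := M.closure {e, f} with hL
  have hefE : ({e, f} : Set α) ⊆ M.E := by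
    intro x hx
    rcases hx with rfl | rfl <;> assumption
  have hLE : L ⊆ M.E := M.closure_subset_ground _
  have hLflat : M.IsFlat L := M.isFlat_closure _
  have hind : M.Indep {e, f} := hs e he f hf
  have hrL : rk M L = 2 := by
    rw [rk, hL, M.eRk_closure_eq, hind.eRk_eq_encard, Set.encard_pair hef]
    rfl
  have hmod := hH.1.2 L hLflat
  have heL : e ∈ L := M.mem_closure_of_mem' (by simp) he
  have hfL : f ∈ L := M.mem_closure_of_mem' (by simp) hf
  have hunion : rk M (H ∪ L) = rk M M.E := by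
    have hsub : H ∪ L ⊆ M.E := union_subset hHE hLE
    have h1 : rk M (H ∪ L) ≤ rk M M.E := by
      rw [h.rk_eq hsub, h.rk_eq Subset.rfl]
      have : FiniteDimensional F (span F (v '' M.E)) :=
        FiniteDimensional.span_of_finite F (M.ground_finite.image v)
      exact Submodule.finrank_mono (span_mono (image_mono hsub))
    have h2 : rk M H < rk M (H ∪ L) := by
      rw [h.rk_eq hsub, h.rk_eq hHE]
      have : FiniteDimensional F (span F (v '' (H ∪ L))) :=
        FiniteDimensional.span_of_finite F ((M.ground_finite.subset hsub).image v)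
      apply Submodule.finrank_lt_finrank_of_lt
      refine lt_of_le_of_ne (span_mono (image_mono subset_union_left)) fun heq => ?_
      have : v e ∈ span F (v '' H) := by
        rw [heq]
        exact subset_span (mem_image_of_mem v (Or.inr heL))
      have := (h.mem_closure_iff hHE he).2 this
      rw [hH.1.1.closure] at this
      exact heH this
    have := hH.2
    omega
  have hinter : rk M (H ∩ L) = 1 := by
    have := hH.2
    omega
  have hne : (H ∩ L).Nonempty := by
    by_contra hcon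
    rw [Set.not_nonempty_iff_eq_empty] at hcon
    rw [hcon, rk] at hinter
    simp at hinter
  obtain ⟨x, hxH, hxL⟩ := hne
  have hxE : x ∈ M.E := hHE hxH
  have hspan := (h.mem_closure_iff hefE hxE).1 hxL
  rw [image_pair, mem_span_pair] at hspan
  obtain ⟨a, b, hab⟩ := hspan
  have h0 : φ (v x) = 0 := hφ0 x hxH
  rw [← hab, map_add, map_smul, map_smul, smul_eq_mul, smul_eq_mul] at h0
  have hφe := hφ1 e he heH
  have hφf := hφ1 f hf hfH
  have ha : a ≠ 0 := by
    rintro rfl
    rw [zero_mul, zero_add] at h0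
    have hb : b = 0 := by
      rcases mul_eq_zero.1 h0 with h0 | h0
      · exact h0
      · exact absurd h0 hφf
    rw [hb, zero_smul, zero_smul, add_zero] at hab
    exact h.ne_zero hs hxE hab.symm
  have hb : b = - (a * φ (v e)) * (φ (v f))⁻¹ := by
    field_simp
    linear_combination h0
  refine ⟨x, hxH, (a * φ (v e))⁻¹, inv_ne_zero (mul_ne_zero ha hφe), ?_⟩
  rw [← hab, hb, smul_add, smul_smul, smul_smul, sub_eq_add_neg, ← neg_smul]
  congr 2
  · field_simp
  · field_simp

theorem diffMatroid_indep_iff {n : ℕ} (a : Fin n → W) {I : Set (Sym2 (Fin n))}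
    (hI : I ⊆ (⊤ : SimpleGraph (Fin n)).edgeSet) :
    (diffMatroid F a).Indep I ↔ LinearIndepOn F (diffVec a) I :=
  diffMatroid_rep a I hI

/-- A general criterion for normality: every element of `M` is the direction of some difference
`a i - a j`, and all these directions are elements of `M`. -/
theorem isNormal_of_diff {q : ℕ} (h : Rep F M v) (hs : IsSimple M)
    (a : Fin (q ^ k + 1) → W)
    (ψ : Sym2 (Fin (q ^ k + 1)) → α) (c : Sym2 (Fin (q ^ k + 1)) → F)
    (hψ : ∀ s ∈ (⊤ : SimpleGraph (Fin (q ^ k + 1))).edgeSet,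
      ψ s ∈ M.E ∧ c s ≠ 0 ∧ diffVec a s = c s • v (ψ s))
    (hsurj : ∀ e ∈ M.E, ∃ s ∈ (⊤ : SimpleGraph (Fin (q ^ k + 1))).edgeSet, ψ s = e) :
    IsNormal q k M := by
  classical
  set E := (⊤ : SimpleGraph (Fin (q ^ k + 1))).edgeSet with hE
  choose! σ hσE hσ using hsurj
  have hσinj : InjOn σ M.E := by
    intro x hx y hy hxy
    rw [← hσ x hx, ← hσ y hy, hxy]
  refine ⟨cyc F _, diffMatroid F a, (diffMatroid F a).restrict (σ '' M.E),
    cyc_isCompleteGraphMatroid F _, diffMatroid_isQuotient a, ⟨σ '' M.E, ?_, ?_, rfl⟩, ?_⟩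
  · rintro _ ⟨e, he, rfl⟩
    rw [← Matroid.indep_singleton, diffMatroid_indep_iff a (singleton_subset_iff.2 (hσE e he))]
    rw [linearIndepOn_singleton_iff, (hψ _ (hσE e he)).2.2, hσ e he]
    exact smul_ne_zero (hψ _ (hσE e he)).2.1 (h.ne_zero hs he)
  · intro f hf
    have hfE : f ∈ E := hf.mem_ground
    obtain ⟨hψf, hcf, hvf⟩ := hψ f hfE
    refine ⟨σ (ψ f), ⟨⟨ψ f, hψf, rfl⟩, ?_⟩, ?_⟩
    · by_cases heq : σ (ψ f) = f
      · exact Or.inl heq
      · right
        obtain ⟨-, hc2, hv2⟩ := hψ _ (hσE _ hψf)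
        rw [diffMatroid_indep_iff a (by
          intro x hx
          rcases hx with rfl | rfl
          · exact hσE _ hψf
          · exact hfE)]
        rw [linearIndepOn_pair_iff _ heq (by
          rw [hv2, hσ _ hψf]
          exact smul_ne_zero hc2 (h.ne_zero hs hψf))]
        push Not
        refine ⟨c f * (c (σ (ψ f)))⁻¹, ?_⟩
        rw [hv2, hσ _ hψf, hvf, smul_smul, mul_assoc, inv_mul_cancel₀ hc2, mul_one]
    · rintro _ ⟨⟨x, hx, rfl⟩, hy⟩
      have hxf : x = ψ f := by
        rcases hy with hy | hy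
        · rw [← hy, hσ x hx]
        · by_contra hne
          apply hy
          have hne' : σ x ≠ f := by
            rintro rfl
            exact hne (hσ x hx).symm
          obtain ⟨-, hc2, hv2⟩ := hψ _ (hσE x hx)
          rw [diffMatroid_indep_iff a (by
            intro y hy
            rcases hy with rfl | rfl
            · exact hσE _ hx
            · exact hfE)]
          rw [linearIndepOn_pair_iff _ hne' (by
            rw [hv2, hσ _ hx]
            exact smul_ne_zero hc2 (h.ne_zero hs hx))]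
          intro d hd
          rw [hv2, hσ x hx, hvf, smul_smul] at hd
          apply hne
          refine (h.eq_of_smul hs hψf hx (c := (c f)⁻¹ * (d * c (σ x))) ?_).symm
          rw [← smul_smul, hd, smul_smul, inv_mul_cancel₀ hcf, one_smul]
      rw [hxf]
  · let e : M.E ≃ ((diffMatroid F a).restrict (σ '' M.E)).E :=
      Equiv.Set.imageOfInjOn σ M.E hσinj
    refine ⟨e, fun I => ?_⟩
    have himg : ((↑) '' (e '' I) : Set (Sym2 _)) = σ '' ((↑) '' I : Set α) := by
      ext y
      constructor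
      · rintro ⟨_, ⟨x, hx, rfl⟩, rfl⟩
        exact ⟨x, ⟨x, hx, rfl⟩, rfl⟩
      · rintro ⟨_, ⟨x, hx, rfl⟩, rfl⟩
        exact ⟨e x, ⟨x, hx, rfl⟩, rfl⟩
    have hIE : ((↑) '' I : Set α) ⊆ M.E := by
      rintro _ ⟨x, _, rfl⟩
      exact x.2
    have hsub : σ '' ((↑) '' I : Set α) ⊆ E := by
      rintro _ ⟨x, hx, rfl⟩
      exact hσE x (hIE hx)
    rw [himg, Matroid.restrict_indep_iff, and_iff_left (image_mono hIE),
      diffMatroid_indep_iff a hsub, h _ hIE]
    have hinj : InjOn σ ((↑) '' I : Set α) := hσinj.mono hIE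
    have hcomp : LinearIndepOn F (diffVec a) (σ '' ((↑) '' I : Set α)) ↔
        LinearIndepOn F (diffVec a ∘ σ) ((↑) '' I : Set α) :=
      ⟨fun h' => h'.comp_of_image hinj, fun h' => h'.image_of_comp _ _⟩
    rw [hcomp]
    refine linearIndepOn_scale_iff (c := fun x => c (σ x)) ?_ ?_
    · intro x hx
      rw [Function.comp_apply, (hψ _ (hσE x (hIE hx))).2.2, hσ x (hIE hx)]
    · intro x hx
      exact (hψ _ (hσE x (hIE hx))).2.1

theorem isNormal_of_points {q : ℕ} (h : Rep F M v) (hs : IsSimple M) (hne : M.E.Nonempty)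
    (a : Fin (q ^ k + 1) → W)
    (hkey : ∀ i j, i ≠ j → ∃ x ∈ M.E, ∃ c : F, c ≠ 0 ∧ a i - a j = c • v x)
    (hsurj : ∀ e ∈ M.E, ∃ i j, i ≠ j ∧ ∃ c : F, a i - a j = c • v e) :
    IsNormal q k M := by
  classical
  have key2 : ∀ s ∈ (⊤ : SimpleGraph (Fin (q ^ k + 1))).edgeSet,
      ∃ x, ∃ c : F, x ∈ M.E ∧ c ≠ 0 ∧ diffVec a s = c • v x := by
    intro s hs'
    have hne : (Quot.out s).1 ≠ (Quot.out s).2 := by
      rw [← out_eq s] at hs'
      simpa using hs'
    obtain ⟨x, hx, c, hc, hxc⟩ := hkey _ _ hne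
    exact ⟨x, c, hx, hc, hxc⟩
  obtain ⟨e₀, he₀⟩ := hne
  have : Nonempty α := ⟨e₀⟩
  choose! ψ c hψ using key2
  refine isNormal_of_diff h hs a ψ c hψ ?_
  intro e he
  obtain ⟨i, j, hij, d, hd⟩ := hsurj e he
  have hsE : s(i, j) ∈ (⊤ : SimpleGraph (Fin (q ^ k + 1))).edgeSet := by
    simpa using hij
  refine ⟨s(i, j), hsE, ?_⟩
  obtain ⟨hψE, hc, hv⟩ := hψ _ hsE
  have hv2 : diffVec a s(i, j) ∈ span F {v e} := by
    rw [diffVec_mem_iff, hd]
    exact smul_mem _ _ (mem_span_singleton_self _)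
  rw [hv, mem_span_singleton] at hv2
  obtain ⟨b, hb⟩ := hv2
  refine h.eq_of_smul hs hψE he (c := (c s(i, j))⁻¹ * b) ?_
  rw [← smul_smul, hb, smul_smul, inv_mul_cancel₀ hc, one_smul]

/-- Main theorem: a restriction-minimal `k`-block with a modular hyperplane is normal. -/
theorem isNormal_of_modular [Finite F] (h : Rep F M v) [M.Finite] (hs : IsSimple M)
    (hblock : ∀ f : W →ₗ[F] (Fin k → F), ∃ e ∈ M.E, f (v e) = 0)
    (htan : ∀ e ∈ M.E, ∃ f : W →ₗ[F] (Fin k → F), ∀ x ∈ M.E, x ≠ e → f (v x) ≠ 0)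
    {H : Set α} (hH : IsModularHyperplane M H) : IsNormal (Nat.card F) k M := by
  classical
  have hHE : H ⊆ M.E := hH.1.1.subset_ground
  obtain ⟨φ, hφ0, hφ1⟩ := exists_functional h hH.1.1 hH.2
  have hne : ∃ e₀ ∈ M.E, e₀ ∉ H := by
    by_contra hcon
    push Not at hcon
    have h1 : H = M.E := Subset.antisymm hHE hcon
    have h2 := hH.2
    rw [h1] at h2
    omega
  obtain ⟨e₀, he₀, he₀H⟩ := hne
  obtain ⟨g, hg⟩ := htan e₀ he₀
  set u : α → W := fun e => (φ (v e))⁻¹ • v e with hu
  have hsurj : ∀ c : Fin k → F, ∃ e, (e ∈ M.E ∧ e ∉ H) ∧ g (u e) = c := by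
    intro c
    let f : W →ₗ[F] (Fin k → F) := g - (φ.smulRight c)
    obtain ⟨e, he, hfe⟩ := hblock f
    have hfe' : g (v e) = φ (v e) • c := by
      simpa [f, sub_eq_zero] using hfe
    have heH : e ∉ H := by
      intro heH
      rw [hφ0 e heH, zero_smul] at hfe'
      exact hg e he (fun heq => he₀H (heq ▸ heH)) hfe'
    refine ⟨e, ⟨he, heH⟩, ?_⟩
    rw [hu]
    simp only [map_smul]
    rw [hfe', smul_smul, inv_mul_cancel₀ (hφ1 e he heH), one_smul]
  choose η hη hgη using hsurj
  have hηinj : Function.Injective η := by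
    intro c d hcd
    rw [← hgη c, ← hgη d, hcd]
  have hcard : Nat.card (Fin k → F) = Nat.card F ^ k := by
    rw [Nat.card_fun, Nat.card_fin]
  let enum : Fin (Nat.card F ^ k) ≃ (Fin k → F) := (Finite.equivFinOfCardEq hcard).symm
  let a : Fin (Nat.card F ^ k + 1) → W := Fin.cons 0 (fun i => u (η (enum i)))
  have key : ∀ i j : Fin (Nat.card F ^ k + 1), i ≠ j →
      ∃ x ∈ M.E, ∃ c : F, c ≠ 0 ∧ a i - a j = c • v x := by
    intro i j hij
    induction i using Fin.cases with
    | zero =>
      induction j using Fin.cases with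
      | zero => exact absurd rfl hij
      | succ j =>
        refine ⟨η (enum j), (hη _).1, - (φ (v (η (enum j))))⁻¹,
          neg_ne_zero.2 (inv_ne_zero (hφ1 _ (hη _).1 (hη _).2)), ?_⟩
        simp [a, hu]
    | succ i =>
      induction j using Fin.cases with
      | zero =>
        refine ⟨η (enum i), (hη _).1, (φ (v (η (enum i))))⁻¹,
          inv_ne_zero (hφ1 _ (hη _).1 (hη _).2), ?_⟩
        simp [a, hu]
      | succ j =>
        have hne : η (enum i) ≠ η (enum j) := by
          intro heq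
          apply hij
          rw [enum.injective (hηinj heq)]
        obtain ⟨x, hx, c, hc, hxc⟩ := modular_diff h hs hH hφ0 hφ1 (hη (enum i)).1
          (hη (enum i)).2 (hη (enum j)).1 (hη (enum j)).2 hne
        exact ⟨x, hHE hx, c, hc, by simpa [a, hu] using hxc⟩
  have key2 : ∀ s ∈ (⊤ : SimpleGraph (Fin (Nat.card F ^ k + 1))).edgeSet,
      ∃ x, ∃ c : F, x ∈ M.E ∧ c ≠ 0 ∧ diffVec a s = c • v x := by
    intro s hs'
    have hne : (Quot.out s).1 ≠ (Quot.out s).2 := by
      rw [← out_eq s] at hs'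
      simpa using hs'
    obtain ⟨x, hx, c, hc, hxc⟩ := key _ _ hne
    exact ⟨x, c, hx, hc, hxc⟩
  have : Nonempty α := ⟨e₀⟩
  choose! ψ c hψ using key2
  refine isNormal_of_diff h hs a ψ c hψ ?_
  intro e he
  by_contra hcon
  push Not at hcon
  obtain ⟨f, hf⟩ := htan e he
  have : ∃ i j : Fin (Nat.card F ^ k + 1), i ≠ j ∧ f (a i) = f (a j) := by
    have hlt : Nat.card (Fin k → F) < Nat.card (Fin (Nat.card F ^ k + 1)) := by
      rw [hcard, Nat.card_fin]
      omega
    by_contra hno
    push Not at hno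
    have hinj : Function.Injective (fun i => f (a i)) := by
      intro i j hij
      by_contra hne
      exact hno i j hne hij
    exact absurd (Nat.card_le_card_of_injective _ hinj) (not_le.2 hlt)
  obtain ⟨i, j, hij, hfij⟩ := this
  have hsE : s(i, j) ∈ (⊤ : SimpleGraph (Fin (Nat.card F ^ k + 1))).edgeSet := by
    simpa using hij
  obtain ⟨hψE, hc, hv⟩ := hψ _ hsE
  have hmem : diffVec a s(i, j) ∈ LinearMap.ker f := by
    rw [diffVec_mem_iff, LinearMap.mem_ker, map_sub, hfij, sub_self]
  rw [hv, LinearMap.mem_ker, map_smul] at hmem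
  have h0 : f (v (ψ s(i, j))) = 0 := by
    rcases smul_eq_zero.1 hmem with h0 | h0
    · exact absurd h0 hc
    · exact h0
  exact hf _ hψE (hcon _ hsE) h0

end Pool.Agent.Helper236
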