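import Pool.Agent.Helper236.Plane

namespace Pool.Agent.Helper236

open Set Module Submodule

variable {F : Type} [Field F]

/-- the Hermitian form -/
def herm (σ : F →+* F) (x y : Fin 3 → F) : F := x 0 * σ (y 0) + x 1 * σ (y 1) + x 2 * σ (y 2)

theorem herm_conj (σ : F →+* F) (hσ : ∀ x, σ (σ x) = x) (x y : Fin 3 → F) :
    σ (herm σ x y) = herm σ y x := by
  simp only [herm, map_add, map_mul, hσ]
  ring

theorem herm_comb (σ : F →+* F) (a b : F) (x y : Fin 3 → F) (hx : herm σ x x = 0)
    (hy : herm σ y y = 0) (h : herm σ (a • x + b • y) (a • x + b • y) = 0) :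
    a * σ b * herm σ x y + b * σ a * herm σ y x = 0 := by
  simp only [herm, Pi.add_apply, Pi.smul_apply, smul_eq_mul, map_add, map_mul] at *
  linear_combination h - a * σ a * hx - b * σ b * hy

/-- the determinant of three vectors -/
def det3 (x y z : Fin 3 → F) : F :=
  x 0 * (y 1 * z 2 - y 2 * z 1) - x 1 * (y 0 * z 2 - y 2 * z 0) + x 2 * (y 0 * z 1 - y 1 * z 0)

theorem gram (σ : F →+* F) (x y z : Fin 3 → F) (hx : herm σ x x = 0) (hy : herm σ y y = 0)
    (hz : herm σ z z = 0) :
    herm σ x y * herm σ y z * herm σ z x + herm σ x z * herm σ y x * herm σ z y =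
      det3 x y z * σ (det3 x y z) := by
  have h1 : det3 x y z * σ (det3 x y z) =
      herm σ x x * (herm σ y y * herm σ z z - herm σ y z * herm σ z y)
      - herm σ x y * (herm σ y x * herm σ z z - herm σ y z * herm σ z x)
      + herm σ x z * (herm σ y x * herm σ z y - herm σ y y * herm σ z x) := by
    simp only [herm, det3, map_add, map_mul, map_sub]
    ring
  rw [h1, hx, hy, hz]
  ring

/-- There is no O'Nan configuration on a Hermitian curve. -/
theorem onan (σ : F →+* F) (x y z : Fin 3 → F)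
    (hdet : det3 x y z ≠ 0) (hx : herm σ x x = 0) (hy : herm σ y y = 0) (hz : herm σ z z = 0)
    {a1 a2 b1 b3 c2 c3 : F} (ha2 : a2 ≠ 0) (hb1 : b1 ≠ 0) (hc3 : c3 ≠ 0)
    (h4 : herm σ (a1 • x + a2 • y) (a1 • x + a2 • y) = 0)
    (h5 : herm σ (b1 • x + b3 • z) (b1 • x + b3 • z) = 0)
    (h6 : herm σ (c2 • y + c3 • z) (c2 • y + c3 • z) = 0)
    (hcol : a1 * b3 * c2 + a2 * b1 * c3 = 0) : False := by
  have e4 := herm_comb σ a1 a2 x y hx hy h4
  have e5 := herm_comb σ b1 b3 x z hx hz h5
  have e6 := herm_comb σ c2 c3 y z hy hz h6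
  have hσ0 : ∀ t : F, t ≠ 0 → σ t ≠ 0 := fun t ht => by simpa using ht
  have hG := gram σ x y z hx hy hz
  -- abbreviations
  set h12 := herm σ x y with h12d
  set h21 := herm σ y x with h21d
  set h23 := herm σ y z with h23d
  set h32 := herm σ z y with h32d
  set h13 := herm σ x z with h13d
  set h31 := herm σ z x with h31d
  have hcol' : σ a1 * σ b3 * σ c2 + σ a2 * σ b1 * σ c3 = 0 := by
    have := congrArg σ hcol
    simpa using this
  -- multiply the three relations
  have e : (a1 * σ a2 * h12) * (c2 * σ c3 * h23) * (b3 * σ b1 * h31) =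
      - ((a2 * σ a1 * h21) * (c3 * σ c2 * h32) * (b1 * σ b3 * h13)) := by
    have e4' : a1 * σ a2 * h12 = - (a2 * σ a1 * h21) := by linear_combination e4
    have e6' : c2 * σ c3 * h23 = - (c3 * σ c2 * h32) := by linear_combination e6
    have e5' : b3 * σ b1 * h31 = - (b1 * σ b3 * h13) := by linear_combination e5
    rw [e4', e6', e5']
    ring
  have e' : (a2 * b1 * c3) * (σ a2 * σ b1 * σ c3) *
      (h12 * h23 * h31 + h13 * h21 * h32) = 0 := by
    have hA : a1 * b3 * c2 = - (a2 * b1 * c3) := by linear_combination hcol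
    have hA' : σ a1 * σ b3 * σ c2 = - (σ a2 * σ b1 * σ c3) := by linear_combination hcol'
    have e1 : (a1 * b3 * c2) * (σ a2 * σ b1 * σ c3) * (h12 * h23 * h31) =
        - ((a2 * b1 * c3) * (σ a1 * σ b3 * σ c2) * (h13 * h21 * h32)) := by
      linear_combination e
    rw [hA, hA'] at e1
    linear_combination -e1
  rw [hG] at e'
  have hne : (a2 * b1 * c3) * (σ a2 * σ b1 * σ c3) * (det3 x y z * σ (det3 x y z)) ≠ 0 :=
    mul_ne_zero (mul_ne_zero (mul_ne_zero (mul_ne_zero ha2 hb1) hc3)
      (mul_ne_zero (mul_ne_zero (hσ0 _ ha2) (hσ0 _ hb1)) (hσ0 _ hc3)))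
      (mul_ne_zero hdet (hσ0 _ hdet))
  exact hne e'

theorem det3_ne_zero {x y z : Fin 3 → F} (h : LinearIndependent F ![x, y, z]) :
    det3 x y z ≠ 0 := by
  have h1 : (Matrix.of ![x, y, z]).det ≠ 0 := by
    have h2 : LinearIndependent F (Matrix.of ![x, y, z]).row := h
    have h3 := Matrix.linearIndependent_rows_iff_isUnit.1 h2
    rw [Matrix.isUnit_iff_isUnit_det] at h3
    exact h3.ne_zero
  intro h0
  apply h1
  rw [Matrix.det_fin_three]
  simp only [Matrix.of_apply, Matrix.cons_val_zero, Matrix.cons_val_one, Matrix.cons_val]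
  simp only [det3] at h0
  linear_combination h0

end Pool.Agent.Helper236
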