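import Pool.Agent.Helper236.PavSetup

namespace Pool.Agent.Helper236.Tug

open Set Module Submodule Pool.Agent.Helper236

variable {F : Type} [Field F] {α : Type} {M : Matroid α} {W : Type*} [AddCommGroup W] [Module F W]
  {v : α → W} {F0 : Set α} [Fintype (Pt M F0)] [DecidableEq (Pt M F0)]

open Classical in
/-- the points on which a functional vanishes -/
noncomputable def zs (F : Type) [Field F] {α : Type} (M : Matroid α) {W : Type*} [AddCommGroup W]
    [Module F W] (v : α → W) (F0 : Set α) [Fintype (Pt M F0)] (φ : W →ₗ[F] F) :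
    Finset (Pt M F0) := Finset.univ.filter (fun a => φ (v a) = 0)

omit [DecidableEq (Pt M F0)] in
theorem mem_zs {φ : W →ₗ[F] F} {a : Pt M F0} : a ∈ zs F M v F0 φ ↔ φ (v a) = 0 := by
  simp [zs]

theorem card_kill [Finite F] [FiniteDimensional F W] [Fintype (W →ₗ[F] F)] {x : W}
    (hx : x ≠ 0) [DecidablePred (fun φ : W →ₗ[F] F => φ x = 0)] :
    (Finset.univ.filter (fun φ : W →ₗ[F] F => φ x = 0)).card =
      (Nat.card F) ^ (finrank F W - 1) := by
  have h1 := card_dual_killing (F := F) (span F {x})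
  rw [finrank_span_singleton hx] at h1
  rw [← Fintype.card_subtype, ← Nat.card_eq_fintype_card, ← h1]
  apply Nat.card_congr
  apply Equiv.subtypeEquivRight
  intro φ
  constructor
  · intro h y hy
    obtain ⟨c, rfl⟩ := mem_span_singleton.1 hy
    rw [map_smul, h, smul_zero]
  · intro h
    exact h _ (mem_span_singleton_self _)

/-- tangents at a point of a contraction of rank three, in rank three -/
theorem Setup.tangents [Finite F] [FiniteDimensional F W] [Fintype (W →ₗ[F] F)]
    [DecidableEq (W →ₗ[F] F)] (h : Setup F M v F0) (h0 : F0 = ∅)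
    (hne : ∃ a b : Pt M F0, a ≠ b) (a : Pt M F0) :
    (Finset.univ.filter (fun φ : W →ₗ[F] F => zs F M v F0 φ = {a})).card +
      (Nat.card F - 1) * (LinSpace.lines (ln F M v F0) a).card + 1 ≤ (Nat.card F) ^ 2 := by
  classical
  have hFt : Fintype F := Fintype.ofFinite F
  have hF0 : F0.ncard = 0 := by rw [h0, ncard_empty]
  have hrk := h.hrk
  rw [hF0] at hrk
  obtain ⟨b0, hb0⟩ : ∃ b, b ≠ a := by
    obtain ⟨x, y, hxy⟩ := hne
    by_cases hxa : x = a
    · exact ⟨y, fun hy => hxy (hxa.trans hy.symm)⟩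
    · exact ⟨x, hxa⟩
  have hva : v a ≠ 0 := h.rep.ne_zero h.tan.1.2.1 a.2.1
  -- functionals of lines
  have hch : ∀ L : Finset (Pt M F0), ∃ f : W →ₗ[F] F,
      L ∈ LinSpace.lines (ln F M v F0) a → zs F M v F0 f = L ∧ f (v a) = 0 := by
    intro L
    by_cases hL : L ∈ LinSpace.lines (ln F M v F0) a
    · obtain ⟨b, hb, hb'⟩ := LinSpace.mem_lines.1 hL
      obtain ⟨f, hf⟩ := exists_ker (sp F v F0 a b) (by
        rw [h.finrank_sp a.2.1 b.2.1 a.2.2 b.2.2 (fun h => hb (Subtype.ext h.symm)), h.hrk])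
      refine ⟨f, fun _ => ⟨?_, (hf _).2 (mem_sp_left _ _)⟩⟩
      rw [← hb']
      ext y
      rw [mem_zs, mem_ln, hf]
    · exact ⟨0, fun h => absurd h hL⟩
  choose f hf using hch
  let ι : {L // L ∈ LinSpace.lines (ln F M v F0) a} × Fˣ → (W →ₗ[F] F) :=
    fun p => (p.2 : F) • f p.1
  have hzι : ∀ p, zs F M v F0 (ι p) = p.1 := by
    intro p
    rw [← (hf p.1 p.1.2).1]
    ext y
    rw [mem_zs, mem_zs]
    simp [ι]
  have hex : ∀ L ∈ LinSpace.lines (ln F M v F0) a, ∃ y : Pt M F0, f L (v y) ≠ 0 := by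
    intro L hL
    by_contra hcon
    push Not at hcon
    have h1 : L = Finset.univ := by
      rw [← (hf L hL).1]
      ext y
      rw [mem_zs]
      simp [hcon y]
    have h2 := h.card_line a L hL
    rw [h1, Finset.card_univ] at h2
    have := Nat.card_pos (α := F)
    omega
  have hinj : Function.Injective ι := by
    rintro ⟨L, c⟩ ⟨L', c'⟩ heq
    have hL : L = L' := by
      apply Subtype.ext
      rw [← hzι (L, c), ← hzι (L', c'), heq]
    subst hL
    obtain ⟨y, hy⟩ := hex L L.2
    have h2 : (c : F) * f L (v y) = (c' : F) * f L (v y) := by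
      have := LinearMap.congr_fun heq (v y)
      simpa [ι] using this
    rw [Units.ext (mul_right_cancel₀ hy h2)]
  set T := Finset.univ.filter (fun φ : W →ₗ[F] F => zs F M v F0 φ = {a}) with hT
  set R := Finset.univ.image ι with hR
  have hK := card_kill (F := F) hva
  rw [hrk] at hK
  have hsub : insert 0 (T ∪ R) ⊆ Finset.univ.filter (fun φ : W →ₗ[F] F => φ (v a) = 0) := by
    intro φ hφ
    rw [Finset.mem_filter]
    refine ⟨Finset.mem_univ _, ?_⟩
    rw [Finset.mem_insert, Finset.mem_union] at hφ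
    rcases hφ with rfl | hφ | hφ
    · simp
    · have h1 := (Finset.mem_filter.1 hφ).2
      have : a ∈ zs F M v F0 φ := by rw [h1]; exact Finset.mem_singleton_self _
      exact mem_zs.1 this
    · obtain ⟨p, -, rfl⟩ := Finset.mem_image.1 hφ
      simp [ι, (hf p.1 p.1.2).2]
  have hTR : Disjoint T R := by
    rw [Finset.disjoint_left]
    intro φ hφ hφ'
    have h1 := (Finset.mem_filter.1 hφ).2
    obtain ⟨p, -, rfl⟩ := Finset.mem_image.1 hφ'
    rw [hzι] at h1
    have h2 := LinSpace.two_le h.axioms p.1.2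
    rw [h1, Finset.card_singleton] at h2
    omega
  have h0n : (0 : W →ₗ[F] F) ∉ T ∪ R := by
    have hz0 : zs F M v F0 (0 : W →ₗ[F] F) = Finset.univ := by
      ext y
      rw [mem_zs]
      simp
    rw [Finset.mem_union]
    rintro (h1 | h1)
    · have h2 := (Finset.mem_filter.1 h1).2
      rw [hz0] at h2
      have : b0 ∈ ({a} : Finset (Pt M F0)) := by rw [← h2]; exact Finset.mem_univ _
      exact hb0 (Finset.mem_singleton.1 this)
    · obtain ⟨p, -, hp⟩ := Finset.mem_image.1 h1
      have h2 := hzι p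
      rw [hp, hz0] at h2
      have h3 := h.card_line a p.1 p.1.2
      rw [← h2, Finset.card_univ] at h3
      have := Nat.card_pos (α := F)
      omega
  have h5 := Finset.card_le_card hsub
  rw [hK, Finset.card_insert_of_notMem h0n, Finset.card_union_of_disjoint hTR, hR,
    Finset.card_image_of_injective _ hinj, Finset.card_univ, Fintype.card_prod,
    Fintype.card_units, Fintype.card_coe, ← Nat.card_eq_fintype_card (α := F)] at h5
  have h6 : (LinSpace.lines (ln F M v F0) a).card * (Nat.card F - 1) =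
      (Nat.card F - 1) * (LinSpace.lines (ln F M v F0) a).card := Nat.mul_comm _ _
  simp only [Nat.reduceSub, zero_add] at h5
  omega

/-- the count of tangents in rank three -/
theorem Setup.hT [Finite F] [FiniteDimensional F W] (h : Setup F M v F0) (h0 : F0 = ∅)
    (hne : ∃ a b : Pt M F0, a ≠ b) :
    2 * ((Nat.card F : ℤ) ^ 2 + Nat.card F + 1) ≤
      (Fintype.card (Pt M F0) : ℤ) * (Nat.card F + 1) +
        ∑ a, ((Nat.card F : ℤ) + 1 - (LinSpace.lines (ln F M v F0) a).card) := by
  classical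
  have hfin : Finite (W →ₗ[F] F) := Module.finite_of_finite F
  have hft : Fintype (W →ₗ[F] F) := Fintype.ofFinite _
  have hF0 : F0.ncard = 0 := by rw [h0, ncard_empty]
  have hrk := h.hrk
  rw [hF0, zero_add] at hrk
  set q := Nat.card F with hq
  have hq2 : 2 ≤ q := Finite.one_lt_card
  set s := Fintype.card (Pt M F0) with hs
  have hcard0 : Fintype.card (W →ₗ[F] F) = q ^ 3 := by
    rw [← Nat.card_eq_fintype_card, Module.natCard_eq_pow_finrank (K := F),
      Module.finrank_linearMap, Module.finrank_self, hrk]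
  have hsum1 : ∑ φ : W →ₗ[F] F, ((zs F M v F0 φ).card : ℤ) = s * q ^ 2 := by
    have h1 : ∀ φ : W →ₗ[F] F, ((zs F M v F0 φ).card : ℤ) =
        ∑ a : Pt M F0, if φ (v a) = 0 then (1 : ℤ) else 0 := by
      intro φ
      rw [Finset.sum_boole, zs]
    rw [Finset.sum_congr rfl (fun φ _ => h1 φ), Finset.sum_comm]
    have h2 : ∀ a : Pt M F0, (∑ φ : W →ₗ[F] F, if φ (v a) = 0 then (1 : ℤ) else 0) = q ^ 2 := by
      intro a
      rw [Finset.sum_boole, card_kill (h.rep.ne_zero h.tan.1.2.1 a.2.1), hrk]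
      push_cast
      rfl
    rw [Finset.sum_congr rfl (fun a _ => h2 a), Finset.sum_const, nsmul_eq_mul,
      Finset.card_univ]
  set t : (W →ₗ[F] F) → ℤ := fun φ => ∑ a : Pt M F0, if zs F M v F0 φ = {a} then (1 : ℤ) else 0
    with ht
  have hsum2 : ∑ φ : W →ₗ[F] F, t φ ≤
      ∑ a : Pt M F0, ((q : ℤ) - 1) * ((q : ℤ) + 1 - (LinSpace.lines (ln F M v F0) a).card) := by
    rw [ht, Finset.sum_comm]
    refine Finset.sum_le_sum fun a _ => ?_
    rw [Finset.sum_boole]
    have h1 := h.tangents h0 hne a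
    rw [← hq] at h1
    have h2 : (((Finset.univ.filter (fun φ : W →ₗ[F] F => zs F M v F0 φ = {a})).card +
      (q - 1) * (LinSpace.lines (ln F M v F0) a).card + 1 : ℕ) : ℤ) ≤ ((q ^ 2 : ℕ) : ℤ) := by
      exact_mod_cast h1
    push_cast [Nat.cast_sub (show 1 ≤ q by omega)] at h2
    linarith
  have hnn : ∀ φ : W →ₗ[F] F, φ ≠ 0 → 0 ≤ ((zs F M v F0 φ).card : ℤ) - 2 + t φ := by
    intro φ _
    have h1 : 1 ≤ (zs F M v F0 φ).card := by
      obtain ⟨e, heE, he⟩ := block_functional h.rep h.tan.1 φ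
      rw [Nat.succ_le_iff, Finset.card_pos]
      exact ⟨⟨e, heE, by rw [h0]; exact notMem_empty _⟩, mem_zs.2 he⟩
    by_cases h2 : (zs F M v F0 φ).card = 1
    · obtain ⟨a, ha⟩ := Finset.card_eq_one.1 h2
      have h3 : t φ = 1 := by
        rw [ht]
        simp only [ha]
        rw [Finset.sum_eq_single a]
        · simp
        · intro b _ hb
          rw [if_neg]
          intro h4
          exact hb (Finset.singleton_injective h4).symm
        · intro h4
          exact absurd (Finset.mem_univ _) h4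
      rw [h3, h2]
      norm_num
    · have h3 : 0 ≤ t φ := by
        rw [ht]
        apply Finset.sum_nonneg
        intro a _
        split_ifs <;> norm_num
      have h4 : 2 ≤ (zs F M v F0 φ).card := by omega
      have h5 : (2 : ℤ) ≤ ((zs F M v F0 φ).card : ℤ) := by exact_mod_cast h4
      linarith
  have hzero : (s : ℤ) - 2 ≤ ((zs F M v F0 (0 : W →ₗ[F] F)).card : ℤ) - 2 + t 0 := by
    have hz0 : zs F M v F0 (0 : W →ₗ[F] F) = Finset.univ := by
      ext y
      rw [mem_zs]
      simp
    have h3 : 0 ≤ t 0 := by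
      rw [ht]
      apply Finset.sum_nonneg
      intro a _
      split_ifs <;> norm_num
    rw [hz0, Finset.card_univ, ← hs]
    linarith
  have htot : (s : ℤ) - 2 ≤ ∑ φ : W →ₗ[F] F, (((zs F M v F0 φ).card : ℤ) - 2 + t φ) := by
    rw [← Finset.add_sum_erase _ _ (Finset.mem_univ (0 : W →ₗ[F] F))]
    have : 0 ≤ ∑ φ ∈ Finset.univ.erase (0 : W →ₗ[F] F),
        (((zs F M v F0 φ).card : ℤ) - 2 + t φ) := by
      apply Finset.sum_nonneg
      intro φ hφ
      exact hnn φ (Finset.ne_of_mem_erase hφ)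
    linarith
  rw [Finset.sum_add_distrib, Finset.sum_sub_distrib, hsum1, Finset.sum_const, Finset.card_univ,
    hcard0, nsmul_eq_mul] at htot
  push_cast at htot
  rw [← Finset.mul_sum] at hsum2
  set τ := ∑ a, ((q : ℤ) + 1 - (LinSpace.lines (ln F M v F0) a).card) with hτ
  have hfinal : 0 ≤ ((q : ℤ) - 1) * ((s : ℤ) * (q + 1) + τ - 2 * ((q : ℤ) ^ 2 + q + 1)) := by
    nlinarith [htot, hsum2]
  have hq1 : (0 : ℤ) < (q : ℤ) - 1 := by
    have : (2 : ℤ) ≤ q := by exact_mod_cast hq2
    linarith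
  have := nonneg_of_mul_nonneg_right hfinal hq1
  linarith

end Pool.Agent.Helper236.Tug
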