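import Pool.Agent.Helper236.PavMoment

namespace Pool.Agent.Helper236.Tug

open Set Module Submodule Pool.Agent.Helper236

variable {F : Type} [Field F] {α : Type} {M : Matroid α}

theorem paving_indep (hfin : M.Finite) (hp : IsPaving M) {I : Set α} (hI : I ⊆ M.E)
    (hc : I.ncard < rk M M.E) : M.Indep I := by
  by_contra hnot
  have hdep : M.Dep I := (Matroid.not_indep_iff hI).1 hnot
  obtain ⟨C, hCI, hC⟩ := hdep.exists_isCircuit_subset
  have h1 := hp C hC
  have h2 := ncard_le_ncard hCI (M.ground_finite.subset hI)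
  omega

theorem arith {q s : ℤ} (hk : q + 3 ≤ s) (hs : 2 * s ≤ 3 * q)
    (h : 0 ≤ s * (s - 1) * (s - 2) - 6 * (q - 1) * s * (s - 1) + 16 * q * (q - 1) * s -
      16 * q ^ 2 * (q - 1)) : False := by
  obtain ⟨k, rfl⟩ : ∃ k, s = q + k := ⟨s - q, by ring⟩
  have hk3 : 3 ≤ k := by linarith
  have hkq : 2 * k ≤ q := by linarith
  have h1 : 0 ≤ (q + k) * (q + k - 1) * (k - 5 * q + 4) + 16 * q * (q - 1) * k := by
    have : (q + k) * (q + k - 1) * (k - 5 * q + 4) + 16 * q * (q - 1) * k =
      (q + k) * (q + k - 1) * (q + k - 2) - 6 * (q - 1) * (q + k) * (q + k - 1) +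
        16 * q * (q - 1) * (q + k) - 16 * q ^ 2 * (q - 1) := by ring
    rw [this]
    exact h
  -- `(q + k) (q + k - 1) ≥ 4 (q - 1) k + (q - 1 + k)`
  have h2 : 4 * (q - 1) * k + (q - 1 + k) ≤ (q + k) * (q + k - 1) := by
    nlinarith [sq_nonneg (q - 1 - k)]
  have h3 : 0 < 5 * q - 4 - k := by linarith
  have h4 : (4 * (q - 1) * k + (q - 1 + k)) * (5 * q - 4 - k) ≤
      (q + k) * (q + k - 1) * (5 * q - 4 - k) := mul_le_mul_of_nonneg_right h2 h3.le
  have h5 : (4 * (q - 1) * k + (q - 1 + k)) * (5 * q - 4 - k) ≤ 16 * q * (q - 1) * k := by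
    linarith
  have h6 : 9 * q - 8 ≤ 2 * (5 * q - 4 - k) := by linarith
  have hpos : 0 ≤ 4 * (q - 1) * k + (q - 1 + k) := by nlinarith
  have h7 : (4 * (q - 1) * k + (q - 1 + k)) * (9 * q - 8) ≤ 32 * q * (q - 1) * k := by
    have := mul_le_mul_of_nonneg_left h6 hpos
    linarith
  -- hence `(q - 1) k (4 q - 32) + (q - 1 + k) (9 q - 8) ≤ 0`
  have h8 : (q - 1) * k * (4 * q - 32) + (q - 1 + k) * (9 * q - 8) ≤ 0 := by linarith
  have hq6 : 6 ≤ q := by linarith
  by_cases hq8 : 8 ≤ q
  · have h9 : 0 ≤ (q - 1) * k * (4 * q - 32) :=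
      mul_nonneg (mul_nonneg (by linarith) (by linarith)) (by linarith)
    have h10 : 0 < (q - 1 + k) * (9 * q - 8) := mul_pos (by linarith) (by linarith)
    linarith
  · have hk' : k = 3 := by omega
    subst hk'
    interval_cases q <;> omega

/-- the case of rank at least three -/
theorem paving_rank_ge_three [Finite F] (hM : IsTangentialBlock F 1 M) (hp : IsPaving M)
    (hr : 3 ≤ rk M M.E) : ∃ N : Matroid α, N.IsMinor M ∧ (IsK4 N ∨ IsWhirl3 N) := by
  classical
  by_contra hcon
  push Not at hcon
  have hfin : M.Finite := hM.1.1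
  obtain ⟨m, v, hrep, hspan, hm⟩ := exists_full hfin hM.1.2.2.1
  obtain ⟨B, hB⟩ := M.exists_isBase
  have hBc : B.ncard = rk M M.E := by
    rw [rk, Matroid.eRk_ground, ← hB.encard_eq_eRank]
    rfl
  obtain ⟨F0, hF0B, hF0c⟩ := Set.exists_subset_card_eq (s := B) (n := rk M M.E - 3) (by omega)
  have hBE := hB.subset_ground
  have hBfin : B.Finite := M.ground_finite.subset hBE
  have hset : Setup F M v F0 := by
    refine ⟨hrep, hM, hspan, hF0B.trans hBE, ?_, ?_⟩
    · rw [Module.finrank_fin_fun, hm, hF0c]
      omega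
    · intro I hI hIc
      exact (hrep I hI).1 (paving_indep hfin hp hI (by omega))
  have hPfin := hset.finite
  have hPft : Fintype (Pt M F0) := Fintype.ofFinite _
  have hne : ∃ a b : Pt M F0, a ≠ b := by
    have h1 : 1 < (B \ F0).ncard := by
      rw [ncard_sdiff hF0B (hBfin.subset hF0B)]
      omega
    obtain ⟨a, ha, b, hb, hab⟩ := (one_lt_ncard (hBfin.subset sdiff_subset)).1 h1
    exact ⟨⟨a, hBE ha.1, ha.2⟩, ⟨b, hBE hb.1, hb.2⟩, fun h => hab (congrArg Subtype.val h)⟩
  have hno : ∀ N : Matroid α, N.IsMinor M → ¬ IsK4 N ∧ ¬ IsWhirl3 N := hcon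
  have htri : ∀ a b c : Pt M F0, a ≠ b → a ≠ c → b ≠ c → 3 ≤ (ln F M v F0 a b).card →
      3 ≤ (ln F M v F0 a c).card → 3 ≤ (ln F M v F0 b c).card → c ∈ ln F M v F0 a b :=
    fun a b c => hset.tri hno a b c
  rcases F0.eq_empty_or_nonempty with h0 | h0
  · exact LinSpace.no_space hset.axioms hset.card_lines hset.card_line hne htri
      (hset.hT h0 hne)
  · have hb := LinSpace.card_bound hset.axioms hset.card_lines hset.card_line hne htri
    have h2 := LinSpace.two_le_longs hset.axioms hset.card_lines hset.card_line hne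
    obtain ⟨a, b, hab⟩ := hne
    obtain ⟨L, hL⟩ : (LinSpace.longs (ln F M v F0) a).Nonempty := by
      rw [← Finset.card_pos]
      have := h2 a
      omega
    have hL3 : 3 ≤ L.card := (Finset.mem_filter.1 hL).2
    have hLc := hset.card_line a L (Finset.mem_filter.1 hL).1
    have hmom := hset.moment h0
    set s := Fintype.card (Pt M F0) with hs
    set q := Nat.card F with hq
    apply arith (q := (q : ℤ)) (s := (s : ℤ))
    · have : q + 3 ≤ s := by omega
      exact_mod_cast this
    · exact_mod_cast hb
    · exact_mod_cast hmom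

/-- the case of rank two -/
theorem paving_rank_two [Finite F] (hM : IsTangentialBlock F 1 M) (hr : rk M M.E = 2) :
    IsLine (Nat.card F + 1) M := by
  classical
  have hfin : M.Finite := hM.1.1
  obtain ⟨m, v, hrep, hspan, hm⟩ := exists_full hfin hM.1.2.2.1
  obtain ⟨a, ha, -⟩ := block_functional hrep hM.1 0
  have hva : v a ≠ 0 := hrep.ne_zero hM.1.2.1 ha
  have hfr : Module.finrank F (Fin m → F) = 2 := by
    rw [Module.finrank_fin_fun, hm, hr]
  -- lower bound
  have h1 := hyp_count hrep hM hspan (span F {v a}) (by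
    rw [finrank_span_singleton hva, hfr])
  have h2 : {x ∈ M.E | v x ∉ span F {v a}} ⊆ M.E \ {a} := by
    rintro x ⟨hx1, hx2⟩
    refine ⟨hx1, ?_⟩
    rintro rfl
    exact hx2 (mem_span_singleton_self _)
  have h3 := ncard_le_ncard h2 (M.ground_finite.subset sdiff_subset)
  have h4 := ncard_sdiff_singleton_add_one ha M.ground_finite
  -- upper bound
  have h5 : (M.E \ {a}).ncard ≤ Nat.card F := by
    have hGflat : M.IsFlat {a} := by
      rw [Matroid.isFlat_iff_closure_eq]
      apply Subset.antisymm _ (M.subset_closure _ (singleton_subset_iff.2 ha))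
      intro x hx
      have hxE : x ∈ M.E := M.closure_subset_ground _ hx
      rw [hrep.mem_closure_iff (singleton_subset_iff.2 ha) hxE, image_singleton,
        mem_span_singleton] at hx
      obtain ⟨c, hc⟩ := hx
      by_contra hxa
      have hi := (hrep {a, x} (by
        intro z hz
        rcases hz with rfl | rfl <;> assumption)).1 (hM.1.2.1 a ha x hxE)
      rw [linearIndepOn_pair_iff _ (Ne.symm hxa) hva] at hi
      exact hi c hc
    obtain ⟨g, hg0, hg1⟩ := exact_functional hrep hM hGflat (singleton_nonempty a)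
    -- `x ↦ f x / g x` is injective on the points other than `a`
    obtain ⟨f, hf1, hf0⟩ := exists_sep (F := F) (⊥ : Submodule F (Fin m → F)) (x := v a) (by
      rwa [Submodule.mem_bot])
    have hinj : Set.InjOn (fun x => f (v x) / g (v x)) (M.E \ {a}) := by
      intro x hx y hy hxy
      have hgx := hg1 x hx.1 hx.2
      have hgy := hg1 y hy.1 hy.2
      have hxy' : f (v x) / g (v x) = f (v y) / g (v y) := hxy
      rw [div_eq_div_iff hgx hgy] at hxy'
      by_contra hne
      have hi := (hrep {x, y} (by
        intro z hz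
        rcases hz with rfl | rfl
        · exact hx.1
        · exact hy.1)).1 (hM.1.2.1 x hx.1 y hy.1)
      have hvx : v x ≠ 0 := hrep.ne_zero hM.1.2.1 hx.1
      rw [linearIndepOn_pair_iff _ hne hvx] at hi
      -- the difference is a multiple of `v a` killed by `f`
      set z := v y - (g (v y) / g (v x)) • v x with hz
      have hzg : g z = 0 := by
        rw [hz, map_sub, map_smul, smul_eq_mul, div_mul_cancel₀ _ hgx, sub_self]
      have hzf : f z = 0 := by
        rw [hz, map_sub, map_smul, smul_eq_mul, sub_eq_zero, div_mul_eq_mul_div,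
          eq_div_iff hgx, mul_comm (g _), hxy']
      have hker : ∀ w, g w = 0 → ∃ c : F, w = c • v a := by
        intro w hw
        have hle : span F {v a} ≤ LinearMap.ker g := by
          rw [span_le, singleton_subset_iff]
          exact hg0 a rfl
        have hfk : finrank F (LinearMap.ker g) ≤ 1 := by
          have hlt : LinearMap.ker g < ⊤ := by
            rw [lt_top_iff_ne_top]
            intro htop
            have : v x ∈ LinearMap.ker g := by rw [htop]; trivial
            exact hgx this
          have := Submodule.finrank_lt_finrank_of_lt hlt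
          rw [finrank_top, hfr] at this
          omega
        have heq : span F {v a} = LinearMap.ker g := by
          apply Submodule.eq_of_le_of_finrank_le hle
          rw [finrank_span_singleton hva]
          exact hfk
        have hw' : w ∈ span F {v a} := by
          rw [heq]
          exact hw
        obtain ⟨c, hc⟩ := mem_span_singleton.1 hw'
        exact ⟨c, hc.symm⟩
      obtain ⟨c, hc⟩ := hker z hzg
      rw [hc, map_smul, hf1, smul_eq_mul, mul_one] at hzf
      rw [hzf, zero_smul] at hc
      apply hi (g (v y) / g (v x))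
      rw [hz] at hc
      exact (sub_eq_zero.1 hc).symm
    have := ncard_le_ncard_of_injOn (s := M.E \ {a}) (t := (univ : Set F)) _
      (fun x _ => mem_univ _) hinj (Set.toFinite _)
    rwa [ncard_univ] at this
  refine ⟨by omega, ?_⟩
  intro I hI
  constructor
  · intro hi
    have h6 := hi.encard_le_eRk_of_subset hI
    have h7 : M.eRk M.E = 2 := by
      have h8 : M.eRk M.E ≠ ⊤ := by
        intro htop
        rw [rk, htop] at hr
        simp at hr
      rw [rk] at hr
      rw [← ENat.natCast_toNat h8, hr]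
      rfl
    rwa [h7] at h6
  · intro hc
    rcases I.eq_empty_or_nonempty with rfl | ⟨x, hx⟩
    · exact M.empty_indep
    · by_cases hxy : ∃ y ∈ I, y ≠ x
      · obtain ⟨y, hy, hyx⟩ := hxy
        have h8 : ({x, y} : Set α) ⊆ I := by
          rintro z (rfl | rfl) <;> assumption
        have h9 : ({x, y} : Set α) = I := by
          apply (Set.Finite.subset M.ground_finite hI).eq_of_subset_of_encard_le' h8
          rw [encard_pair (Ne.symm hyx)]
          exact hc
        rw [← h9]
        exact hM.1.2.1 x (hI hx) y (hI hy)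
      · push Not at hxy
        have h8 : I ⊆ {x, x} := by
          intro y hy
          left
          exact hxy y hy
        exact (hM.1.2.1 x (hI hx) x (hI hx)).subset h8

/-- no tangential block of rank at most one -/
theorem rank_ge_two [Finite F] (hM : IsTangentialBlock F 1 M) : 2 ≤ rk M M.E := by
  classical
  have hfin : M.Finite := hM.1.1
  obtain ⟨m, v, hrep, hspan, hm⟩ := exists_full hfin hM.1.2.2.1
  obtain ⟨a, ha, -⟩ := block_functional hrep hM.1 0
  have hva : v a ≠ 0 := hrep.ne_zero hM.1.2.1 ha
  by_contra hlt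
  have h1 : ∃ f : (Fin m → F) →ₗ[F] F, ∀ x ∈ M.E, f (v x) ≠ 0 := by
    obtain ⟨f, hf1, -⟩ := exists_sep (F := F) (⊥ : Submodule F (Fin m → F)) (x := v a) (by
      rwa [Submodule.mem_bot])
    refine ⟨f, fun x hx h0 => ?_⟩
    have hfr : Module.finrank F (Fin m → F) ≤ 1 := by
      rw [Module.finrank_fin_fun, hm]
      omega
    have h2 : span F {v a} = ⊤ := by
      apply Submodule.eq_of_le_of_finrank_le le_top
      rw [finrank_top, finrank_span_singleton hva]
      exact hfr
    have h3 : v x ∈ span F {v a} := by rw [h2]; trivial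
    obtain ⟨c, hc⟩ := mem_span_singleton.1 h3
    rw [← hc, map_smul, hf1, smul_eq_mul, mul_one] at h0
    rw [h0, zero_smul] at hc
    exact hrep.ne_zero hM.1.2.1 hx hc.symm
  obtain ⟨f, hf⟩ := h1
  obtain ⟨x, hx, hx0⟩ := block_functional hrep hM.1 f
  exact hf x hx hx0

end Pool.Agent.Helper236.Tug
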