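import Pool.Agent.Helper236.PavCount

namespace Pool.Agent.Helper236.Tug

open Set Module Submodule Pool.Agent.Helper236

section count

variable {F : Type} [Field F] {α : Type} {M : Matroid α} {W : Type*} [AddCommGroup W] [Module F W]
  {v : α → W}

open Classical in
/-- the number of functionals vanishing nowhere on `F0` and everywhere on `S` -/
noncomputable def cnt [Fintype (W →ₗ[F] F)] (v : α → W) (F0 S : Set α) : ℕ :=
  (Finset.univ.filter (fun φ : W →ₗ[F] F =>
    (∀ e ∈ F0, φ (v e) ≠ 0) ∧ ∀ a ∈ S, φ (v a) = 0)).card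

theorem cnt_step [Finite F] [Fintype (W →ₗ[F] F)] {F0 S : Set α} {x : α}
    (hx : v x ∉ span F (v '' (F0 ∪ S))) :
    Nat.card F * cnt (F := F) v F0 (insert x S) = cnt (F := F) v F0 S := by
  classical
  have hFt : Fintype F := Fintype.ofFinite F
  obtain ⟨e, he1, he0⟩ := exists_sep _ hx
  have he0' : ∀ y ∈ F0 ∪ S, e (v y) = 0 := fun y hy =>
    he0 _ (subset_span (mem_image_of_mem v hy))
  rw [Nat.card_eq_fintype_card, ← Finset.card_univ, cnt, cnt, ← Finset.card_product]
  apply Finset.card_nbij' (fun p => p.2 + p.1 • e) (fun ψ => (ψ (v x), ψ - ψ (v x) • e))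
  · rintro ⟨c, φ⟩ hp
    rw [Finset.mem_coe, Finset.mem_product, Finset.mem_filter] at hp
    rw [Finset.mem_coe, Finset.mem_filter]
    refine ⟨Finset.mem_univ _, ?_, ?_⟩
    · intro y hy
      simp only [LinearMap.add_apply, LinearMap.smul_apply, he0' y (Or.inl hy), smul_zero,
        add_zero]
      exact hp.2.2.1 y hy
    · intro y hy
      simp only [LinearMap.add_apply, LinearMap.smul_apply, he0' y (Or.inr hy), smul_zero,
        add_zero]
      exact hp.2.2.2 y (mem_insert_of_mem _ hy)
  · intro ψ hψ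
    rw [Finset.mem_coe, Finset.mem_filter] at hψ
    rw [Finset.mem_coe, Finset.mem_product, Finset.mem_filter]
    refine ⟨Finset.mem_univ _, Finset.mem_univ _, ?_, ?_⟩
    · intro y hy
      simp only [LinearMap.sub_apply, LinearMap.smul_apply, he0' y (Or.inl hy), smul_zero,
        sub_zero]
      exact hψ.2.1 y hy
    · rintro y (rfl | hy)
      · simp [he1]
      · simp only [LinearMap.sub_apply, LinearMap.smul_apply, he0' y (Or.inr hy), smul_zero,
          sub_zero]
        exact hψ.2.2 y hy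
  · rintro ⟨c, φ⟩ hp
    rw [Finset.mem_coe, Finset.mem_product, Finset.mem_filter] at hp
    have h1 : φ (v x) = 0 := hp.2.2.2 x (mem_insert _ _)
    simp [h1, he1]
  · intro ψ _
    simp

theorem cnt_step' [Finite F] [Fintype (W →ₗ[F] F)] {F0 S : Set α} {x f : α} (hf : f ∈ F0)
    (hx : v x ∉ span F (v '' ((F0 \ {f}) ∪ S))) :
    (Nat.card F - 1) * cnt (F := F) v F0 (insert x S) ≤ cnt (F := F) v F0 S := by
  classical
  have hFt : Fintype F := Fintype.ofFinite F
  obtain ⟨e, he1, he0⟩ := exists_sep _ hx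
  have he0' : ∀ y ∈ (F0 \ {f}) ∪ S, e (v y) = 0 := fun y hy =>
    he0 _ (subset_span (mem_image_of_mem v hy))
  have hcu : Nat.card F - 1 = (Finset.univ : Finset Fˣ).card := by
    rw [Finset.card_univ, Fintype.card_units, Nat.card_eq_fintype_card]
  rw [hcu, cnt, cnt, ← Finset.card_product]
  let τ : Fˣ → (W →ₗ[F] F) → F := fun c φ =>
    if e (v f) = 0 then (c : F) else ((c : F) - φ (v f)) / e (v f)
  apply Finset.card_le_card_of_injOn (fun p => p.2 + τ p.1 p.2 • e)
  · rintro ⟨c, φ⟩ hp
    rw [Finset.mem_coe, Finset.mem_product, Finset.mem_filter] at hp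
    rw [Finset.mem_coe, Finset.mem_filter]
    refine ⟨Finset.mem_univ _, ?_, ?_⟩
    · intro y hy
      by_cases hyf : y = f
      · subst hyf
        by_cases hef : e (v y) = 0
        · simp only [LinearMap.add_apply, LinearMap.smul_apply, hef, smul_zero, add_zero]
          exact hp.2.2.1 y hy
        · simp only [LinearMap.add_apply, LinearMap.smul_apply, smul_eq_mul, τ, if_neg hef,
            div_mul_cancel₀ _ hef, add_sub_cancel]
          exact c.ne_zero
      · simp only [LinearMap.add_apply, LinearMap.smul_apply, he0' y (Or.inl ⟨hy, hyf⟩),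
          smul_zero, add_zero]
        exact hp.2.2.1 y hy
    · intro y hy
      simp only [LinearMap.add_apply, LinearMap.smul_apply, he0' y (Or.inr hy), smul_zero,
        add_zero]
      exact hp.2.2.2 y (mem_insert_of_mem _ hy)
  · rintro ⟨c, φ⟩ hp ⟨d, ψ⟩ hp' heq
    rw [Finset.mem_coe, Finset.mem_product, Finset.mem_filter] at hp hp'
    have h1 : φ (v x) = 0 := hp.2.2.2 x (mem_insert _ _)
    have h2 : ψ (v x) = 0 := hp'.2.2.2 x (mem_insert _ _)
    have heq' : φ + τ c φ • e = ψ + τ d ψ • e := heq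
    have h3 := LinearMap.congr_fun heq' (v x)
    rw [LinearMap.add_apply, LinearMap.add_apply, LinearMap.smul_apply, LinearMap.smul_apply,
      h1, h2, he1, smul_eq_mul, smul_eq_mul, mul_one, mul_one, zero_add, zero_add] at h3
    rw [h3] at heq'
    have h4 : φ = ψ := add_right_cancel heq'
    subst h4
    have h5 : (c : F) = d := by
      simp only [τ] at h3
      by_cases hef : e (v f) = 0
      · simpa [hef] using h3
      · rw [if_neg hef, if_neg hef, div_left_inj' hef] at h3
        exact sub_left_injective h3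
    rw [Units.ext h5]

theorem cast_choose_three (n : ℕ) : ((n.choose 3 : ℕ) : ℚ) = n * (n - 1) * (n - 2) / 6 := by
  induction n with
  | zero => simp
  | succ n ih =>
    rw [Nat.choose_succ_succ' n 2]
    push_cast
    rw [ih, Nat.cast_choose_two]
    ring

end count

section

variable {F : Type} [Field F] {α : Type} {M : Matroid α} {W : Type*} [AddCommGroup W] [Module F W]
  {v : α → W} {F0 : Set α} [Fintype (Pt M F0)] [DecidableEq (Pt M F0)]

theorem Setup.moment [Finite F] [FiniteDimensional F W] (h : Setup F M v F0)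
    (h0 : F0.Nonempty) :
    (0 : ℚ) ≤ (Fintype.card (Pt M F0)) * (Fintype.card (Pt M F0) - 1) *
        (Fintype.card (Pt M F0) - 2) -
      6 * (Nat.card F - 1) * (Fintype.card (Pt M F0)) * (Fintype.card (Pt M F0) - 1) +
      16 * Nat.card F * (Nat.card F - 1) * (Fintype.card (Pt M F0)) -
      16 * (Nat.card F) ^ 2 * (Nat.card F - 1) := by
  classical
  have hfin : Finite (W →ₗ[F] F) := Module.finite_of_finite F
  have hft : Fintype (W →ₗ[F] F) := Fintype.ofFinite _
  have hq2 : 2 ≤ Nat.card F := Finite.one_lt_card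
  obtain ⟨f1, hf1⟩ := h0
  have hfin0 := h.finite0
  have hpos : 0 < F0.ncard := (ncard_pos hfin0).2 ⟨f1, hf1⟩
  set q := Nat.card F with hq
  set s := Fintype.card (Pt M F0) with hs
  set Om := Finset.univ.filter (fun φ : W →ₗ[F] F => ∀ e ∈ F0, φ (v e) ≠ 0) with hOm
  -- independence facts
  have hindep : ∀ (I : Set α) (x : α), I ⊆ M.E → x ∈ M.E → x ∉ I → I.ncard < F0.ncard + 2 →
      v x ∉ span F (v '' I) := by
    intro I x hIE hx hxI hc
    have hIf : I.Finite := by
      have := h.tan.1.1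
      exact M.ground_finite.subset hIE
    have h1 := h.hI (insert x I) (insert_subset hx hIE) (by
      rw [ncard_insert_of_notMem hxI hIf]
      omega)
    exact ((linearIndepOn_insert hxI).1 h1).2
  -- counts
  have hN0 : cnt (F := F) v F0 ∅ = Om.card := by
    rw [cnt, hOm]
    congr 1
    ext φ
    simp
  have hN1 : ∀ x : Pt M F0, q * cnt (F := F) v F0 {(x : α)} = Om.card := by
    intro x
    rw [← hN0]
    have h1 := cnt_step (F := F) (v := v) (F0 := F0) (S := ∅) (x := (x : α)) (by
      rw [union_empty]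
      exact hindep F0 x h.hF0 x.2.1 x.2.2 (by omega))
    rw [← h1, insert_empty_eq]
  have hN2 : ∀ x y : Pt M F0, x ≠ y →
      q * cnt (F := F) v F0 {(x : α), (y : α)} = cnt (F := F) v F0 {(y : α)} := by
    intro x y hxy
    apply cnt_step
    have hyF : F0 ∪ {(y : α)} = insert (y : α) F0 := by
      rw [union_singleton]
    rw [hyF]
    apply hindep _ _ (insert_subset y.2.1 h.hF0) x.2.1
    · rintro (h1 | h1)
      · exact hxy (Subtype.ext h1)
      · exact x.2.2 h1
    · rw [ncard_insert_of_notMem y.2.2 hfin0]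
      omega
  have hN3 : ∀ x y z : Pt M F0, x ≠ y → x ≠ z → y ≠ z →
      (q - 1) * cnt (F := F) v F0 {(x : α), (y : α), (z : α)} ≤
        cnt (F := F) v F0 {(y : α), (z : α)} := by
    intro x y z hxy hxz hyz
    apply cnt_step' hf1
    have hset : (F0 \ {f1}) ∪ {(y : α), (z : α)} = insert (y : α) (insert (z : α) (F0 \ {f1})) := by
      ext w
      simp only [mem_union, mem_sdiff, mem_singleton_iff, mem_insert_iff]
      tauto
    rw [hset]
    have hsub : F0 \ {f1} ⊆ F0 := sdiff_subset
    apply hindep _ _ (insert_subset y.2.1 (insert_subset z.2.1 (hsub.trans h.hF0))) x.2.1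
    · rintro (h1 | h1 | h1)
      · exact hxy (Subtype.ext h1)
      · exact hxz (Subtype.ext h1)
      · exact x.2.2 h1.1
    · have h1 : (F0 \ {f1}).ncard + 1 = F0.ncard := ncard_sdiff_singleton_add_one hf1 hfin0
      have h2 := ncard_insert_le (y : α) (insert (z : α) (F0 \ {f1}))
      have h3 := ncard_insert_le (z : α) (F0 \ {f1})
      omega
  -- double counting
  have hdc : ∀ k : ℕ, ∑ φ ∈ Om, (((zs F M v F0 φ).card.choose k : ℕ) : ℚ) =
      ∑ A ∈ Finset.powersetCard k (Finset.univ : Finset (Pt M F0)),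
        (cnt (F := F) v F0 ((↑) '' (A : Set (Pt M F0))) : ℚ) := by
    intro k
    have h1 : ∀ φ : W →ₗ[F] F, (((zs F M v F0 φ).card.choose k : ℕ) : ℚ) =
        ∑ A ∈ Finset.powersetCard k (Finset.univ : Finset (Pt M F0)),
          if (∀ a ∈ ((↑) '' (A : Set (Pt M F0)) : Set α), φ (v a) = 0) then (1 : ℚ) else 0 := by
      intro φ
      rw [Finset.sum_boole, ← Finset.card_powersetCard]
      congr 2
      ext A
      rw [Finset.mem_powersetCard, Finset.mem_filter, Finset.mem_powersetCard]
      constructor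
      · rintro ⟨hA1, hA2⟩
        refine ⟨⟨Finset.subset_univ _, hA2⟩, ?_⟩
        rintro _ ⟨a, ha, rfl⟩
        exact mem_zs.1 (hA1 ha)
      · rintro ⟨⟨-, hA2⟩, hA3⟩
        refine ⟨fun a ha => mem_zs.2 (hA3 a ⟨a, ha, rfl⟩), hA2⟩
    rw [Finset.sum_congr rfl (fun φ _ => h1 φ), Finset.sum_comm]
    refine Finset.sum_congr rfl fun A _ => ?_
    rw [Finset.sum_boole, cnt, hOm, Finset.filter_filter]
  have hqQ : (q : ℚ) ≠ 0 := by
    have : (0 : ℚ) < q := by exact_mod_cast (by omega : 0 < q)
    exact this.ne'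
  have hS1 : ∑ φ ∈ Om, (((zs F M v F0 φ).card : ℕ) : ℚ) = s * (Om.card / q) := by
    have h1 := hdc 1
    simp only [Nat.choose_one_right] at h1
    rw [h1]
    have h2 : ∀ A ∈ Finset.powersetCard 1 (Finset.univ : Finset (Pt M F0)),
        (cnt (F := F) v F0 ((↑) '' (A : Set (Pt M F0))) : ℚ) = Om.card / q := by
      intro A hA
      obtain ⟨x, rfl⟩ := Finset.card_eq_one.1 (Finset.mem_powersetCard.1 hA).2
      rw [Finset.coe_singleton, image_singleton, eq_div_iff hqQ]
      have := hN1 x
      rw [← this]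
      push_cast
      ring
    rw [Finset.sum_congr rfl h2, Finset.sum_const, Finset.card_powersetCard, Finset.card_univ,
      Nat.choose_one_right, nsmul_eq_mul]
  have hpair : ∀ x y : Pt M F0, x ≠ y →
      (cnt (F := F) v F0 {(x : α), (y : α)} : ℚ) = Om.card / q / q := by
    intro x y hxy
    rw [eq_div_iff hqQ, eq_div_iff hqQ]
    have h3 := hN2 x y hxy
    have h4 := hN1 y
    rw [← h3] at h4
    rw [← h4]
    push_cast
    ring
  have hS2 : ∑ φ ∈ Om, (((zs F M v F0 φ).card.choose 2 : ℕ) : ℚ) =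
      (s * (s - 1) / 2) * (Om.card / q / q) := by
    rw [hdc 2]
    have h2 : ∀ A ∈ Finset.powersetCard 2 (Finset.univ : Finset (Pt M F0)),
        (cnt (F := F) v F0 ((↑) '' (A : Set (Pt M F0))) : ℚ) = Om.card / q / q := by
      intro A hA
      obtain ⟨x, y, hxy, rfl⟩ := Finset.card_eq_two.1 (Finset.mem_powersetCard.1 hA).2
      rw [Finset.coe_pair, image_pair]
      exact hpair x y hxy
    rw [Finset.sum_congr rfl h2, Finset.sum_const, Finset.card_powersetCard, Finset.card_univ,
      nsmul_eq_mul, Nat.cast_choose_two]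
  have hq1 : (0 : ℚ) < (q : ℚ) - 1 := by
    have : (2 : ℚ) ≤ q := by exact_mod_cast hq2
    linarith
  have hS3 : ∑ φ ∈ Om, (((zs F M v F0 φ).card.choose 3 : ℕ) : ℚ) ≤
      (s * (s - 1) * (s - 2) / 6) * (Om.card / q / q / (q - 1)) := by
    rw [hdc 3]
    have h2 : ∀ A ∈ Finset.powersetCard 3 (Finset.univ : Finset (Pt M F0)),
        (cnt (F := F) v F0 ((↑) '' (A : Set (Pt M F0))) : ℚ) ≤ Om.card / q / q / (q - 1) := by
      intro A hA
      obtain ⟨x, y, z, hxy, hxz, hyz, rfl⟩ :=
        Finset.card_eq_three.1 (Finset.mem_powersetCard.1 hA).2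
      have hset : ((↑) '' (({x, y, z} : Finset (Pt M F0)) : Set (Pt M F0)) : Set α) =
          {(x : α), (y : α), (z : α)} := by
        simp [image_insert_eq]
      rw [hset, le_div_iff₀ hq1, ← hpair y z hyz]
      have h3 := hN3 x y z hxy hxz hyz
      have h4 : (((q - 1) * cnt (F := F) v F0 {(x : α), (y : α), (z : α)} : ℕ) : ℚ) ≤
        (cnt (F := F) v F0 {(y : α), (z : α)} : ℚ) := by exact_mod_cast h3
      push_cast [Nat.cast_sub (show 1 ≤ q by omega)] at h4
      linarith
    refine (Finset.sum_le_sum h2).trans ?_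
    rw [Finset.sum_const, Finset.card_powersetCard, Finset.card_univ, nsmul_eq_mul,
      cast_choose_three]
  -- the cubic
  have hcub : ∀ φ ∈ Om, (0 : ℚ) ≤ 6 * (((zs F M v F0 φ).card.choose 3 : ℕ) : ℚ) -
      12 * (((zs F M v F0 φ).card.choose 2 : ℕ) : ℚ) + 16 * ((zs F M v F0 φ).card : ℚ) - 16 := by
    intro φ hφ
    have h1 : 1 ≤ (zs F M v F0 φ).card := by
      obtain ⟨e, heE, he⟩ := block_functional h.rep h.tan.1 φ
      rw [Nat.succ_le_iff, Finset.card_pos]
      refine ⟨⟨e, heE, fun heF => ?_⟩, mem_zs.2 he⟩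
      exact (Finset.mem_filter.1 hφ).2 e heF he
    have h2 : (1 : ℚ) ≤ ((zs F M v F0 φ).card : ℚ) := by exact_mod_cast h1
    rw [cast_choose_three, Nat.cast_choose_two]
    have h3 : 0 ≤ (((zs F M v F0 φ).card : ℚ) - 1) * (((zs F M v F0 φ).card : ℚ) - 4) ^ 2 :=
      mul_nonneg (by linarith) (sq_nonneg _)
    linarith
  have htot := Finset.sum_nonneg hcub
  rw [Finset.sum_sub_distrib, Finset.sum_add_distrib, Finset.sum_sub_distrib,
    ← Finset.mul_sum, ← Finset.mul_sum, ← Finset.mul_sum, hS1, hS2, Finset.sum_const,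
    nsmul_eq_mul] at htot
  -- positivity of the number of functionals
  have hOmpos : (0 : ℚ) < Om.card := by
    have hneE : F0 ≠ M.E := by
      intro heq
      have h1 : finrank F (span F (v '' F0)) = F0.ncard :=
        finrank_span_of_linearIndepOn (h.hI F0 h.hF0 (by omega)) hfin0
      have h2 := h.hspan
      rw [← heq] at h2
      rw [h2, finrank_top, h.hrk] at h1
      omega
    obtain ⟨g, hg⟩ := avoid_functional h.rep h.tan h.hF0 hneE
    have : 0 < Om.card := Finset.card_pos.2 ⟨g, Finset.mem_filter.2 ⟨Finset.mem_univ _, hg⟩⟩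
    exact_mod_cast this
  have hqpos : (0 : ℚ) < q := by
    have : (2 : ℚ) ≤ q := by exact_mod_cast hq2
    linarith
  have hkey : (0 : ℚ) ≤ 6 * ((s * (s - 1) * (s - 2) / 6) * (Om.card / q / q / (q - 1))) -
      12 * ((s * (s - 1) / 2) * (Om.card / q / q)) + 16 * (s * (Om.card / q)) - Om.card * 16 := by
    linarith
  have hfac : 6 * ((s * (s - 1) * (s - 2) / 6) * (Om.card / q / q / (q - 1))) -
      12 * ((s * (s - 1) / 2) * (Om.card / q / q)) + 16 * (s * (Om.card / q)) - Om.card * 16 =
      (s * (s - 1) * (s - 2) - 6 * (q - 1) * s * (s - 1) + 16 * q * (q - 1) * s -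
        16 * (q : ℚ) ^ 2 * (q - 1)) * (Om.card / (q ^ 2 * (q - 1))) := by
    field_simp
    ring
  rw [hfac] at hkey
  have hdpos : (0 : ℚ) < (Om.card : ℚ) / (q ^ 2 * (q - 1)) := by positivity
  exact nonneg_of_mul_nonneg_left hkey hdpos

end

end Pool.Agent.Helper236.Tug
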