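import Pool.Agent.Helper236.Paving

namespace Pool.Agent.Helper236.Tug

open Set Module Submodule Pool.Agent.Helper236

variable {F : Type} [Field F] {α : Type} {M : Matroid α} {W : Type*} [AddCommGroup W] [Module F W]
  {v : α → W}

/-- a representation whose vectors span the space -/
theorem exists_full (hM : M.Finite) (hr : Representable F M) :
    ∃ (m : ℕ) (v : α → (Fin m → F)), Rep F M v ∧ span F (v '' M.E) = ⊤ ∧ m = rk M M.E := by
  classical
  obtain ⟨n, v0, h0⟩ := hr
  set U := span F (v0 '' M.E) with hU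
  have hmem : ∀ x ∈ M.E, v0 x ∈ U := fun x hx => subset_span (mem_image_of_mem v0 hx)
  let e : U ≃ₗ[F] (Fin (finrank F U) → F) := LinearEquiv.ofFinrankEq _ _ (by simp)
  let v1 : α → U := fun x => if hx : x ∈ M.E then ⟨v0 x, hmem x hx⟩ else 0
  have h1 : ∀ x ∈ M.E, (v1 x : Fin n → F) = v0 x := by
    intro x hx
    simp [v1, hx]
  have hrep1 : Rep F M v1 := by
    intro I hI
    rw [h0 I hI]
    have h2 : LinearIndepOn F (U.subtype ∘ v1) I ↔ LinearIndepOn F v1 I := by
      constructor
      · intro h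
        exact h.of_comp _
      · intro h
        exact h.map_injOn _ (U.subtype_injective.injOn)
    rw [← h2]
    apply linearIndepOn_congr
    intro x hx
    exact (h1 x (hI hx)).symm
  refine ⟨finrank F U, e ∘ v1, hrep1.comp_injective e.toLinearMap e.injective, ?_, ?_⟩
  · have h3 : span F (v1 '' M.E) = ⊤ := by
      have h4 : (span F (v1 '' M.E)).map U.subtype = U := by
        rw [Submodule.map_span, ← image_comp]
        have h7 : (U.subtype ∘ v1) '' M.E = v0 '' M.E := by
          apply image_congr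
          intro x hx
          exact h1 x hx
        rw [h7]
      have h5 : (span F (v1 '' M.E)).map U.subtype = (⊤ : Submodule F U).map U.subtype := by
        rw [h4, Submodule.map_subtype_top]
      exact Submodule.map_injective_of_injective U.subtype_injective h5
    rw [image_comp]
    have h6 : span F (e '' (v1 '' M.E)) = (span F (v1 '' M.E)).map e.toLinearMap := by
      rw [Submodule.map_span]
      rfl
    rw [h6, h3, Submodule.map_top, LinearMap.range_eq_top]
    exact e.surjective
  · exact ((show Rep F M v0 from h0).rk_eq (Subset.refl _)).symm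

/-- a hyperplane is the kernel of a functional -/
theorem exists_ker [FiniteDimensional F W] (U : Submodule F W) (hU : finrank F U + 1 = finrank F W) :
    ∃ h : W →ₗ[F] F, ∀ x, h x = 0 ↔ x ∈ U := by
  have hne : U ≠ ⊤ := by
    intro h
    rw [h, finrank_top] at hU
    omega
  obtain ⟨x, -, hx⟩ := SetLike.exists_of_lt (lt_top_iff_ne_top.2 hne)
  obtain ⟨h, hh1, hh2⟩ := exists_sep U hx
  refine ⟨h, fun y => ⟨fun hy => ?_, fun hy => hh2 y hy⟩⟩
  have hle : U ≤ LinearMap.ker h := fun z hz => hh2 z hz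
  have hlt : LinearMap.ker h < ⊤ := by
    rw [lt_top_iff_ne_top]
    intro htop
    have : x ∈ LinearMap.ker h := by rw [htop]; trivial
    rw [LinearMap.mem_ker, hh1] at this
    exact one_ne_zero this
  have h1 := Submodule.finrank_lt_finrank_of_lt hlt
  rw [finrank_top] at h1
  have h2 : U = LinearMap.ker h := Submodule.eq_of_le_of_finrank_le hle (by omega)
  rw [h2]
  exact hy

/-- counting off a hyperplane -/
theorem hyp_count [Finite F] [FiniteDimensional F W] (h : Rep F M v)
    (hM : IsTangentialBlock F 1 M) (hspan : span F (v '' M.E) = ⊤)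
    (U : Submodule F W) (hU : finrank F U + 1 = finrank F W) :
    Nat.card F ≤ {x ∈ M.E | v x ∉ U}.ncard := by
  classical
  have hfin := hM.1.1
  have hne : {x ∈ M.E | v x ∈ U} ≠ M.E := by
    intro heq
    have h1 : span F (v '' M.E) ≤ U := by
      rw [span_le]
      rintro _ ⟨x, hx, rfl⟩
      rw [← heq] at hx
      exact hx.2
    rw [hspan] at h1
    have h2 : U = ⊤ := top_le_iff.1 h1
    rw [h2, finrank_top] at hU
    omega
  obtain ⟨g, hg⟩ := avoid_functional h hM (X := {x ∈ M.E | v x ∈ U}) (fun x hx => hx.1) hne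
  obtain ⟨f, hf⟩ := exists_ker U hU
  have hz : ∀ c : F, ∃ e ∈ M.E, (g + c • f) (v e) = 0 := fun c => block_functional h hM.1 _
  choose z hzE hz0 using hz
  have hzU : ∀ c, v (z c) ∉ U := by
    intro c hc
    have h1 := hz0 c
    rw [LinearMap.add_apply, LinearMap.smul_apply, (hf _).2 hc, smul_zero, add_zero] at h1
    exact hg (z c) ⟨hzE c, hc⟩ h1
  have hinj : Function.Injective (fun c : F => (⟨z c, hzE c, hzU c⟩ : {x ∈ M.E | v x ∉ U})) := by
    intro c d hcd
    have hcd' : z c = z d := congrArg Subtype.val hcd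
    have h1 := hz0 c
    have h2 := hz0 d
    rw [← hcd', LinearMap.add_apply, LinearMap.smul_apply, smul_eq_mul] at h2
    rw [LinearMap.add_apply, LinearMap.smul_apply, smul_eq_mul] at h1
    have h3 : f (v (z c)) ≠ 0 := fun h0 => hzU c ((hf _).1 h0)
    have h4 : c * f (v (z c)) = d * f (v (z c)) := by
      have := h1.trans h2.symm
      exact add_left_cancel this
    exact mul_right_cancel₀ h3 h4
  have hfs : Finite ({x ∈ M.E | v x ∉ U} : Set α) := (M.ground_finite.subset (fun x hx => hx.1))
  exact Nat.card_le_card_of_injective _ hinj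

/-- data for the contraction of a set of size `r - 3` in a paving matroid -/
structure Setup (F : Type) [Field F] {α : Type} (M : Matroid α) {W : Type*} [AddCommGroup W]
    [Module F W] (v : α → W) (F0 : Set α) : Prop where
  rep : Rep F M v
  tan : IsTangentialBlock F 1 M
  hspan : span F (v '' M.E) = ⊤
  hF0 : F0 ⊆ M.E
  hrk : finrank F W = F0.ncard + 3
  hI : ∀ I ⊆ M.E, I.ncard < F0.ncard + 3 → LinearIndepOn F v I

/-- points of the contraction -/
abbrev Pt (M : Matroid α) (F0 : Set α) : Type := {x : α // x ∈ M.E ∧ x ∉ F0}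

/-- the span of a line -/
def sp (F : Type) [Field F] {α : Type} {W : Type*} [AddCommGroup W] [Module F W] (v : α → W)
    (F0 : Set α) (a b : α) : Submodule F W := span F (v '' insert a (insert b F0))

section

variable {F0 : Set α}

theorem Setup.finite (h : Setup F M v F0) : Finite (Pt M F0) := by
  have := h.tan.1.1
  exact M.ground_finite.subset (fun x (hx : x ∈ M.E ∧ x ∉ F0) => hx.1)

theorem Setup.finite0 (h : Setup F M v F0) : F0.Finite := by
  have := h.tan.1.1
  exact M.ground_finite.subset h.hF0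

theorem Setup.ncard_pair (h : Setup F M v F0) {a b : α} (ha : a ∉ F0) (hb : b ∉ F0)
    (hab : a ≠ b) : (insert a (insert b F0)).ncard = F0.ncard + 2 := by
  have h1 : a ∉ insert b F0 := by
    rintro (h2 | h2)
    · exact hab h2
    · exact ha h2
  rw [ncard_insert_of_notMem h1 (h.finite0.insert _), ncard_insert_of_notMem hb h.finite0]

theorem Setup.indep_pair (h : Setup F M v F0) {a b : α} (haE : a ∈ M.E) (hbE : b ∈ M.E)
    (ha : a ∉ F0) (hb : b ∉ F0) (hab : a ≠ b) : LinearIndepOn F v (insert a (insert b F0)) := by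
  apply h.hI _ (insert_subset haE (insert_subset hbE h.hF0))
  rw [h.ncard_pair ha hb hab]
  omega

theorem Setup.finrank_sp (h : Setup F M v F0) {a b : α} (haE : a ∈ M.E) (hbE : b ∈ M.E)
    (ha : a ∉ F0) (hb : b ∉ F0) (hab : a ≠ b) : finrank F (sp F v F0 a b) = F0.ncard + 2 := by
  rw [sp, finrank_span_of_linearIndepOn (h.indep_pair haE hbE ha hb hab)
    ((h.finite0.insert _).insert _), h.ncard_pair ha hb hab]

theorem mem_sp_left (a b : α) : v a ∈ sp F v F0 a b :=
  subset_span (mem_image_of_mem v (mem_insert _ _))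

theorem mem_sp_right (a b : α) : v b ∈ sp F v F0 a b :=
  subset_span (mem_image_of_mem v (mem_insert_of_mem _ (mem_insert _ _)))

theorem mem_sp_F0 (a b : α) {x : α} (hx : x ∈ F0) : v x ∈ sp F v F0 a b :=
  subset_span (mem_image_of_mem v (mem_insert_of_mem _ (mem_insert_of_mem _ hx)))

theorem Setup.sp_eq [FiniteDimensional F W] (h : Setup F M v F0) {a b c d : Pt M F0}
    (hab : a ≠ b) (hcd : c ≠ d) (hc : v c ∈ sp F v F0 a b) (hd : v d ∈ sp F v F0 a b) :
    sp F v F0 (c : α) d = sp F v F0 (a : α) b := by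
  apply Submodule.eq_of_le_of_finrank_le
  · rw [sp, span_le]
    rintro _ ⟨x, hx, rfl⟩
    rcases hx with rfl | rfl | hx
    · exact hc
    · exact hd
    · exact mem_sp_F0 _ _ hx
  · rw [h.finrank_sp c.2.1 d.2.1 c.2.2 d.2.2 (fun h => hcd (Subtype.ext h)),
      h.finrank_sp a.2.1 b.2.1 a.2.2 b.2.2 (fun h => hab (Subtype.ext h))]

end

section

variable {F0 : Set α} [Fintype (Pt M F0)] [DecidableEq (Pt M F0)]

open Classical in
/-- the lines of the contraction -/
noncomputable def ln (F : Type) [Field F] {α : Type} (M : Matroid α) {W : Type*} [AddCommGroup W]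
    [Module F W] (v : α → W) (F0 : Set α) [Fintype (Pt M F0)] (a b : Pt M F0) :
    Finset (Pt M F0) := Finset.univ.filter (fun c => v c ∈ sp F v F0 a b)

omit [DecidableEq (Pt M F0)] in
theorem mem_ln {a b c : Pt M F0} : c ∈ ln F M v F0 a b ↔ v c ∈ sp F v F0 a b := by
  simp [ln]

omit [DecidableEq (Pt M F0)] in
theorem Setup.axioms [FiniteDimensional F W] (h : Setup F M v F0) :
    LinSpace.Axioms (ln F M v F0) where
  left a b _ := mem_ln.2 (mem_sp_left _ _)
  right a b _ := mem_ln.2 (mem_sp_right _ _)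
  uniq a b c d hab hc hd hcd := by
    ext x
    rw [mem_ln, mem_ln, h.sp_eq hab hcd (mem_ln.1 hc) (mem_ln.1 hd)]

theorem Setup.card_line [Finite F] [FiniteDimensional F W] (h : Setup F M v F0)
    (a : Pt M F0) (L : Finset (Pt M F0)) (hL : L ∈ LinSpace.lines (ln F M v F0) a) :
    L.card + Nat.card F ≤ Fintype.card (Pt M F0) := by
  classical
  obtain ⟨b, hb, rfl⟩ := LinSpace.mem_lines.1 hL
  have hrk := h.finrank_sp a.2.1 b.2.1 a.2.2 b.2.2 (fun h => hb (Subtype.ext h.symm))
  have h1 := hyp_count h.rep h.tan h.hspan (sp F v F0 a b) (by rw [hrk, h.hrk])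
  have h2 : {x ∈ M.E | v x ∉ sp F v F0 a b} =
      ((↑) : Pt M F0 → α) '' ((ln F M v F0 a b)ᶜ : Finset (Pt M F0)) := by
    ext x
    constructor
    · rintro ⟨hx1, hx2⟩
      have hx3 : x ∉ F0 := fun h0 => hx2 (mem_sp_F0 _ _ h0)
      refine ⟨⟨x, hx1, hx3⟩, ?_, rfl⟩
      rw [Finset.mem_coe, Finset.mem_compl, mem_ln]
      exact hx2
    · rintro ⟨y, hy, rfl⟩
      rw [Finset.mem_coe, Finset.mem_compl, mem_ln] at hy
      exact ⟨y.2.1, hy⟩
  rw [h2, ncard_image_of_injective _ Subtype.val_injective, ncard_coe_finset,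
    Finset.card_compl] at h1
  have h3 := Finset.card_le_univ (ln F M v F0 a b)
  change Nat.card F ≤ Fintype.card (Pt M F0) - _ at h1
  omega

omit [Fintype (Pt M F0)] [DecidableEq (Pt M F0)] in
theorem Setup.isFlat [FiniteDimensional F W] (h : Setup F M v F0) (a : Pt M F0) :
    M.IsFlat (insert (a : α) F0) := by
  have hsub : insert (a : α) F0 ⊆ M.E := insert_subset a.2.1 h.hF0
  rw [Matroid.isFlat_iff_closure_eq]
  apply Subset.antisymm _ (M.subset_closure _ hsub)
  intro x hx
  have hxE : x ∈ M.E := M.closure_subset_ground _ hx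
  rw [h.rep.mem_closure_iff hsub hxE] at hx
  by_contra hxn
  have h1 : x ∉ F0 := fun h0 => hxn (mem_insert_of_mem _ h0)
  have h2 : x ≠ a := fun h0 => hxn (h0 ▸ mem_insert _ _)
  have h3 := h.indep_pair hxE a.2.1 h1 a.2.2 h2
  exact ((linearIndepOn_insert hxn).1 h3).2 hx

theorem Setup.card_lines [Finite F] [FiniteDimensional F W] (h : Setup F M v F0)
    (a : Pt M F0) : (LinSpace.lines (ln F M v F0) a).card ≤ Nat.card F := by
  classical
  have hFt : Fintype F := Fintype.ofFinite F
  by_cases hemp : ∃ b : Pt M F0, b ≠ a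
  swap
  · push Not at hemp
    have : LinSpace.lines (ln F M v F0) a = ∅ := by
      rw [Finset.eq_empty_iff_forall_notMem]
      intro L hL
      obtain ⟨b, hb, -⟩ := LinSpace.mem_lines.1 hL
      exact hb (hemp b)
    rw [this, Finset.card_empty]
    omega
  obtain ⟨b0, hb0⟩ := hemp
  obtain ⟨g, hg0, hg1⟩ := exact_functional h.rep h.tan (h.isFlat a) (insert_nonempty _ _)
  set U := span F (v '' insert (a : α) F0) with hU
  have hUf : finrank F U = F0.ncard + 1 := by
    rw [hU, finrank_span_of_linearIndepOn (h.hI _ (insert_subset a.2.1 h.hF0) _)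
      (h.finite0.insert _), ncard_insert_of_notMem a.2.2 h.finite0]
    rw [ncard_insert_of_notMem a.2.2 h.finite0]
    omega
  have hb0G : (b0 : α) ∉ insert (a : α) F0 := by
    rintro (h0 | h0)
    · exact hb0 (Subtype.ext h0)
    · exact b0.2.2 h0
  have hgb0 := hg1 b0 b0.2.1 hb0G
  have hUg : U ≤ LinearMap.ker g := by
    rw [hU, span_le]
    rintro _ ⟨x, hx, rfl⟩
    exact hg0 x hx
  have hkg : finrank F (LinearMap.ker g) = F0.ncard + 2 := by
    have h1 := LinearMap.finrank_range_add_finrank_ker g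
    have h2 : LinearMap.range g = ⊤ := by
      rw [LinearMap.range_eq_top]
      intro y
      refine ⟨(y * (g (v b0))⁻¹) • v b0, ?_⟩
      rw [map_smul, smul_eq_mul, mul_assoc, inv_mul_cancel₀ hgb0, mul_one]
    rw [h2, finrank_top, Module.finrank_self, h.hrk] at h1
    omega
  obtain ⟨w, hwg, hwU⟩ : ∃ w ∈ LinearMap.ker g, w ∉ U := by
    by_contra hcon
    push Not at hcon
    have : LinearMap.ker g ≤ U := hcon
    have h2 := Submodule.finrank_mono this
    omega
  obtain ⟨f, hfw, hfU⟩ := exists_sep U hwU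
  have hker : ∀ x, g x = 0 → f x = 0 → x ∈ U := by
    intro x hx1 hx2
    have h1 : U ≤ LinearMap.ker g ⊓ LinearMap.ker f := le_inf hUg (fun y hy => hfU y hy)
    have h2 : LinearMap.ker g ⊓ LinearMap.ker f < LinearMap.ker g := by
      refine lt_of_le_of_ne inf_le_left fun heq => ?_
      rw [← heq] at hwg
      have this : f w = 0 := hwg.2
      rw [hfw] at this
      exact one_ne_zero this
    have h3 := Submodule.finrank_lt_finrank_of_lt h2
    have h4 : U = LinearMap.ker g ⊓ LinearMap.ker f :=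
      Submodule.eq_of_le_of_finrank_le h1 (by omega)
    rw [h4]
    exact ⟨hx1, hx2⟩
  -- choose a second point of each line
  have hch : ∀ L : Finset (Pt M F0), ∃ b : Pt M F0,
      L ∈ LinSpace.lines (ln F M v F0) a → b ≠ a ∧ ln F M v F0 a b = L := by
    intro L
    by_cases hL : L ∈ LinSpace.lines (ln F M v F0) a
    · obtain ⟨b, hb, hb'⟩ := LinSpace.mem_lines.1 hL
      exact ⟨b, fun _ => ⟨hb, hb'⟩⟩
    · exact ⟨a, fun h => absurd h hL⟩
  choose b hb using hch
  have hinj : Set.InjOn (fun L => f (v (b L)) / g (v (b L)))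
      (LinSpace.lines (ln F M v F0) a : Set (Finset (Pt M F0))) := by
    intro L hL L' hL' heq
    obtain ⟨h1, h2⟩ := hb L hL
    obtain ⟨h1', h2'⟩ := hb L' hL'
    have hg : g (v (b L)) ≠ 0 := by
      apply hg1 _ (b L).2.1
      rintro (h0 | h0)
      · exact h1 (Subtype.ext h0)
      · exact (b L).2.2 h0
    have hg' : g (v (b L')) ≠ 0 := by
      apply hg1 _ (b L').2.1
      rintro (h0 | h0)
      · exact h1' (Subtype.ext h0)
      · exact (b L').2.2 h0
    have heq' : f (v (b L)) / g (v (b L)) = f (v (b L')) / g (v (b L')) := heq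
    rw [div_eq_div_iff hg hg'] at heq'
    set x := v (b L') - (g (v (b L')) / g (v (b L))) • v (b L) with hx
    have hxg : g x = 0 := by
      rw [hx, map_sub, map_smul, smul_eq_mul, div_mul_cancel₀ _ hg, sub_self]
    have hxf : f x = 0 := by
      rw [hx, map_sub, map_smul, smul_eq_mul, sub_eq_zero, div_mul_eq_mul_div, eq_div_iff hg,
        mul_comm (g _), heq']
    have hxU := hker x hxg hxf
    have hmem : v (b L') ∈ sp F v F0 a (b L) := by
      have : v (b L') = x + (g (v (b L')) / g (v (b L))) • v (b L) := by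
        rw [hx]
        abel
      rw [this]
      refine Submodule.add_mem _ ?_ (Submodule.smul_mem _ _ (mem_sp_right _ _))
      refine span_mono ?_ hxU
      apply image_mono
      apply insert_subset_insert
      exact subset_insert _ _
    have h3 := h.sp_eq (Ne.symm h1) (Ne.symm h1') (mem_sp_left _ _) hmem
    rw [← h2, ← h2']
    ext y
    rw [mem_ln, mem_ln, h3]
  have h5 := Finset.card_le_card_of_injOn _ (fun L _ => Finset.mem_univ _) hinj
  rw [Finset.card_univ, ← Nat.card_eq_fintype_card] at h5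
  exact h5

theorem Setup.tri [FiniteDimensional F W] (h : Setup F M v F0)
    (hno : ∀ N : Matroid α, N.IsMinor M → ¬ IsK4 N ∧ ¬ IsWhirl3 N)
    (a b c : Pt M F0) (hab : a ≠ b) (hac : a ≠ c) (hbc : b ≠ c)
    (h1 : 3 ≤ (ln F M v F0 a b).card) (h2 : 3 ≤ (ln F M v F0 a c).card)
    (h3 : 3 ≤ (ln F M v F0 b c).card) : c ∈ ln F M v F0 a b := by
  classical
  by_contra hcn
  have hthird : ∀ p q : Pt M F0, 3 ≤ (ln F M v F0 p q).card →
      ∃ x : Pt M F0, x ≠ p ∧ x ≠ q ∧ v x ∈ sp F v F0 p q := by
    intro p q hpq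
    by_contra hcon
    push Not at hcon
    have hsub : ln F M v F0 p q ⊆ {p, q} := by
      intro x hx
      rw [Finset.mem_insert, Finset.mem_singleton]
      by_contra hx'
      push Not at hx'
      exact hcon x hx'.1 hx'.2 (mem_ln.1 hx)
    have h5 := Finset.card_le_card hsub
    have h6 : ({p, q} : Finset (Pt M F0)).card ≤ 2 := Finset.card_le_two
    omega
  obtain ⟨x, hxa, hxb, hx⟩ := hthird a b h1
  obtain ⟨y, hya, hyc, hy⟩ := hthird a c h2
  obtain ⟨z, hzb, hzc, hz⟩ := hthird b c h3
  have hne : ∀ {p q : Pt M F0}, p ≠ q → (p : α) ≠ q := fun hpq h0 => hpq (Subtype.ext h0)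
  have hind : LinearIndepOn F v (insert (c : α) (insert (a : α) (insert (b : α) F0))) := by
    apply (h.indep_pair a.2.1 b.2.1 a.2.2 b.2.2 (hne hab)).insert
    intro h0
    exact hcn (mem_ln.2 h0)
  obtain ⟨N, hN, hN'⟩ := tri_minor h.rep h.hF0
    (fun p hp q hq hpF hqF hpq => h.indep_pair hp hq hpF hqF hpq)
    a.2.1 b.2.1 c.2.1 x.2.1 y.2.1 z.2.1 a.2.2 b.2.2 c.2.2 x.2.2 y.2.2 z.2.2
    (hne hab) (hne hac) (hne hbc) hind (hne hxa) (hne hxb) (hne hya) (hne hyc) (hne hzb)
    (hne hzc) hx hy hz
  rcases hN' with h5 | h5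
  · exact (hno N hN).1 h5
  · exact (hno N hN).2 h5

end

end Pool.Agent.Helper236.Tug
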