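import Pool.Agent.Helper236.TugDefs

namespace Pool.Agent.Helper236.Tug

open Set Module Submodule Pool.Agent.Helper236

variable {F : Type} [Field F] {α : Type} {M : Matroid α} {W : Type*} [AddCommGroup W] [Module F W]
  {v : α → W}

theorem six_injective {a b c d e f : F} (ha : a ≠ 0) (hb : b ≠ 0) (hc : c ≠ 0) (hd : d ≠ 0)
    (he : e ≠ 0) (hf : f ≠ 0) : Function.Injective (six a b c d e f) := by
  intro i j hij
  by_contra hne
  have h0 := congrFun hij 0
  have h1 := congrFun hij 1
  have h2 := congrFun hij 2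
  fin_cases i <;> fin_cases j <;>
    simp [six, ha, hb, hc, hd, he, hf, ha.symm, hb.symm, hc.symm, hd.symm, he.symm, hf.symm]
      at h0 h1 h2 hne

/-- the coefficients of a third point on a line of the contraction -/
theorem exists_coeff {F0 : Set α} {a b x : α} (hxa : x ≠ a) (hxb : x ≠ b)
    (ha : a ∉ F0) (hb : b ∉ F0) (hx : x ∉ F0)
    (h1 : LinearIndepOn F v (insert x (insert a F0)))
    (h2 : LinearIndepOn F v (insert x (insert b F0)))
    (hmem : v x ∈ span F (v '' insert a (insert b F0))) :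
    ∃ s t : F, s ≠ 0 ∧ t ≠ 0 ∧ (span F (v '' F0)).mkQ (v x) =
      s • (span F (v '' F0)).mkQ (v a) + t • (span F (v '' F0)).mkQ (v b) := by
  rw [Set.image_insert_eq, Submodule.mem_span_insert] at hmem
  obtain ⟨s, z1, hz1, hx1⟩ := hmem
  rw [Set.image_insert_eq, Submodule.mem_span_insert] at hz1
  obtain ⟨t, z2, hz2, hx2⟩ := hz1
  have hz0 : (span F (v '' F0)).mkQ z2 = 0 := by simpa using hz2
  have heq : (span F (v '' F0)).mkQ (v x) =
      s • (span F (v '' F0)).mkQ (v a) + t • (span F (v '' F0)).mkQ (v b) := by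
    rw [hx1, hx2, map_add, map_add, map_smul, map_smul, hz0, add_zero]
  -- a point is not parallel to another one in the contraction
  have hpar : ∀ p : α, p ∉ F0 → x ≠ p → LinearIndepOn F v (insert x (insert p F0)) →
      ∀ r : F, (span F (v '' F0)).mkQ (v x) ≠ r • (span F (v '' F0)).mkQ (v p) := by
    intro p hp hxp hi r hr
    have h3 : v x - r • v p ∈ span F (v '' F0) := by
      rw [← Submodule.ker_mkQ (span F (v '' F0)), LinearMap.mem_ker, map_sub, map_smul, hr,
        sub_self]
    have hxn : x ∉ insert p F0 := by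
      rintro (h | h)
      · exact hxp h
      · exact hx h
    have h4 := (linearIndepOn_insert hxn).1 hi
    apply h4.2
    rw [Set.image_insert_eq]
    have h5 : v x = r • v p + (v x - r • v p) := by abel
    rw [h5]
    refine Submodule.add_mem _ (Submodule.smul_mem _ _ (subset_span (mem_insert _ _))) ?_
    exact span_mono (subset_insert _ _) h3
  refine ⟨s, t, ?_, ?_, heq⟩
  · rintro rfl
    rw [zero_smul, zero_add] at heq
    exact hpar b hb hxb h2 t heq
  · rintro rfl
    rw [zero_smul, add_zero] at heq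
    exact hpar a ha hxa h1 s heq

/-- a triangle of long lines in a contraction of rank three -/
theorem tri_minor (h : Rep F M v) {F0 : Set α} (hF0 : F0 ⊆ M.E)
    (hI : ∀ p ∈ M.E, ∀ q ∈ M.E, p ∉ F0 → q ∉ F0 → p ≠ q →
      LinearIndepOn F v (insert p (insert q F0)))
    {a b c x y z : α} (haE : a ∈ M.E) (hbE : b ∈ M.E) (hcE : c ∈ M.E) (hxE : x ∈ M.E)
    (hyE : y ∈ M.E) (hzE : z ∈ M.E) (ha : a ∉ F0) (hb : b ∉ F0) (hc : c ∉ F0) (hx : x ∉ F0)
    (hy : y ∉ F0) (hz : z ∉ F0) (hab : a ≠ b) (hac : a ≠ c) (hbc : b ≠ c)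
    (hind : LinearIndepOn F v (insert c (insert a (insert b F0))))
    (hxa : x ≠ a) (hxb : x ≠ b) (hya : y ≠ a) (hyc : y ≠ c) (hzb : z ≠ b) (hzc : z ≠ c)
    (hx' : v x ∈ span F (v '' insert a (insert b F0)))
    (hy' : v y ∈ span F (v '' insert a (insert c F0)))
    (hz' : v z ∈ span F (v '' insert b (insert c F0))) :
    ∃ N : Matroid α, N.IsMinor M ∧ (IsK4 N ∨ IsWhirl3 N) := by
  classical
  obtain ⟨s1, t1, hs1, ht1, e1⟩ := exists_coeff hxa hxb ha hb hx (hI x hxE a haE hx ha hxa)
    (hI x hxE b hbE hx hb hxb) hx'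
  obtain ⟨s2, t2, hs2, ht2, e2⟩ := exists_coeff hya hyc ha hc hy (hI y hyE a haE hy ha hya)
    (hI y hyE c hcE hy hc hyc) hy'
  obtain ⟨s3, t3, hs3, ht3, e3⟩ := exists_coeff hzb hzc hb hc hz (hI z hzE b hbE hz hb hzb)
    (hI z hzE c hcE hz hc hzc) hz'
  set U := span F (v '' F0) with hU
  set u : α → W ⧸ U := U.mkQ ∘ v with hu
  have hdisj : Disjoint F0 {a, b, c} := by
    rw [Set.disjoint_right]
    rintro w (rfl | rfl | rfl)
    · exact ha
    · exact hb
    · exact hc
  have hset : insert c (insert a (insert b F0)) = F0 ∪ {a, b, c} := by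
    ext w
    simp only [mem_insert_iff, mem_union, mem_singleton_iff]
    tauto
  rw [hset, linearIndepOn_union_iff_quotient hdisj] at hind
  have hli : LinearIndependent F ![u a, u b, u c] :=
    (linearIndepOn_triple u hab hac hbc).1 hind.2
  let T : (Fin 3 → F) →ₗ[F] (W ⧸ U) := Fintype.linearCombination F ![u a, u b, u c]
  have hT : Function.Injective T := by
    rw [linearIndependent_iff_injective_fintypeLinearCombination] at hli
    exact hli
  have hTx : ∀ p : Fin 3 → F, T p = p 0 • u a + p 1 • u b + p 2 • u c := by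
    intro p
    simp [T, Fintype.linearCombination_apply, Fin.sum_univ_three]
  let ι : Fin 6 → α := ![a, b, c, x, y, z]
  have hu6 : ∀ i, u (ι i) = T (six s1 t1 s2 t2 s3 t3 i) := by
    intro i
    rw [hTx]
    fin_cases i
    · simp [ι, six]
    · simp [ι, six]
    · simp [ι, six]
    · have h : u x = s1 • u a + t1 • u b := e1
      simpa only [ι, six, Fin.isValue, Matrix.cons_val, Fin.reduceFinMk, zero_smul, add_zero]
        using h
    · have h : u y = s2 • u a + t2 • u c := e2
      simpa only [ι, six, Fin.isValue, Matrix.cons_val, Fin.reduceFinMk, zero_smul, add_zero]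
        using h
    · have h : u z = s3 • u b + t3 • u c := e3
      simpa only [ι, six, Fin.isValue, Matrix.cons_val, Fin.reduceFinMk, zero_smul, zero_add]
        using h
  have hι : Function.Injective ι := by
    intro i j hij
    apply six_injective hs1 ht1 hs2 ht2 hs3 ht3
    apply hT
    rw [← hu6, ← hu6, hij]
  have hιE : ∀ i, ι i ∈ M.E ∧ ι i ∉ F0 := by
    intro i
    fin_cases i
    · exact ⟨haE, ha⟩
    · exact ⟨hbE, hb⟩
    · exact ⟨hcE, hc⟩
    · exact ⟨hxE, hx⟩
    · exact ⟨hyE, hy⟩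
    · exact ⟨hzE, hz⟩
  set N := (M.contract F0).delete (M.E \ range ι) with hN
  have hNE : N.E = range ι := by
    ext w
    constructor
    · rintro ⟨⟨hw1, hw2⟩, hw3⟩
      by_contra hw
      exact hw3 ⟨hw1, hw⟩
    · rintro ⟨i, rfl⟩
      exact ⟨⟨(hιE i).1, (hιE i).2⟩, fun hw => hw.2 ⟨i, rfl⟩⟩
  exact ⟨N, ⟨F0, _, rfl⟩, six_minor (h.minor F0 _ hF0) hι hNE hs1 ht1 hs2 ht2 hs3 ht3 T hT hu6⟩

end Pool.Agent.Helper236.Tug
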