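import Pool.Agent.Helper236.Tang

namespace Pool.Agent.Helper236

open Set Module Submodule

/-! A generic treatment of a finite family of points in a projective plane, with the finite
facts as hypotheses. -/

variable {F : Type} [Field F] {m : ℕ}

/-- evaluation of a coordinate functional -/
def ev3 (a b c : F) (x : Fin 3 → F) : F := a * x 0 + b * x 1 + c * x 2

/-- the linear functional with given coefficients -/
def ev3L (a b c : F) : (Fin 3 → F) →ₗ[F] F where
  toFun := ev3 a b c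
  map_add' x y := by simp only [ev3, Pi.add_apply]; ring
  map_smul' d x := by simp only [ev3, Pi.smul_apply, smul_eq_mul, RingHom.id_apply]; ring

theorem eq_ev3 (f : (Fin 3 → F) →ₗ[F] F) (x : Fin 3 → F) :
    f x = ev3 (f (Pi.single 0 1)) (f (Pi.single 1 1)) (f (Pi.single 2 1)) x := by
  have hx : x = x 0 • Pi.single 0 1 + x 1 • Pi.single 1 1 + x 2 • Pi.single 2 1 := by
    ext i
    fin_cases i <;> simp
  conv_lhs => rw [hx]
  simp only [map_add, map_smul, smul_eq_mul, ev3]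
  ring

/-- the matroid of a finite family of points of the plane -/
noncomputable def planeMat (pt : Fin m → (Fin 3 → F)) : Matroid (Fin m) :=
  linMatroid F pt univ (Set.toFinite _)

variable (pt : Fin m → (Fin 3 → F))

theorem planeMat_E : (planeMat pt).E = univ := rfl

theorem planeMat_finite : (planeMat pt).Finite := ⟨Set.toFinite _⟩

theorem planeMat_rep : Rep F (planeMat pt) pt := linMatroid_rep _ _ _

theorem planeMat_simple (h0 : ∀ i, pt i ≠ 0) (h1 : ∀ i j, i ≠ j → ∀ c : F, c • pt i ≠ pt j) :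
    IsSimple (planeMat pt) := by
  intro e _ f _
  rw [planeMat_rep pt _ (subset_univ _)]
  by_cases hef : e = f
  · subst hef
    simpa using h0 e
  · rw [linearIndepOn_pair_iff _ hef (h0 e)]
    exact h1 e f hef

theorem planeMat_rank : rk (planeMat pt) (planeMat pt).E ≤ 3 := by
  have := planeMat_finite pt
  rw [(planeMat_rep pt).rk_eq Subset.rfl]
  refine (Submodule.finrank_le _).trans ?_
  rw [Module.finrank_fin_fun]

theorem planeMat_block (hb : ∀ a b c : F, ∃ i, ev3 a b c (pt i) = 0)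
    (f : (Fin 3 → F) →ₗ[F] (Fin 1 → F)) : ∃ e ∈ (planeMat pt).E, f (pt e) = 0 := by
  let g : (Fin 3 → F) →ₗ[F] F := (LinearMap.proj 0).comp f
  obtain ⟨i, hi⟩ := hb (g (Pi.single 0 1)) (g (Pi.single 1 1)) (g (Pi.single 2 1))
  rw [← eq_ev3] at hi
  refine ⟨i, mem_univ _, ?_⟩
  ext j
  rw [Subsingleton.elim j 0]
  exact hi

theorem planeMat_tangent (ht : ∀ i, ∃ a b c : F, ev3 a b c (pt i) = 0 ∧
      ∀ j, j ≠ i → ev3 a b c (pt j) ≠ 0) :
    ∀ e ∈ (planeMat pt).E, ∃ f : (Fin 3 → F) →ₗ[F] F,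
      f (pt e) = 0 ∧ ∀ x ∈ (planeMat pt).E, x ≠ e → f (pt x) ≠ 0 := by
  intro e _
  obtain ⟨a, b, c, h1, h2⟩ := ht e
  exact ⟨ev3L a b c, h1, fun x _ hx => h2 x hx⟩

theorem planeMat_not_modular (hs : IsSimple (planeMat pt))
    (hm : ∀ a b c : F, (∃ i, ev3 a b c (pt i) ≠ 0) →
      ∃ i j, i ≠ j ∧ ev3 a b c (pt i) ≠ 0 ∧ ev3 a b c (pt j) ≠ 0 ∧
        ∀ l (d : F), ev3 a b c (pt j) • pt i - ev3 a b c (pt i) • pt j ≠ d • pt l) :
    ¬ ∃ H, IsModularHyperplane (planeMat pt) H := by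
  have := planeMat_finite pt
  rintro ⟨H, hH⟩
  obtain ⟨φ, hφ0, hφ1⟩ := exists_functional (planeMat_rep pt) hH.1.1 hH.2
  have hne : ∃ i, i ∉ H := by
    by_contra hcon
    push Not at hcon
    have h1 : H = (planeMat pt).E := Subset.antisymm (subset_univ _) (fun x _ => hcon x)
    have h2 := hH.2
    rw [h1] at h2
    omega
  obtain ⟨i₀, hi₀⟩ := hne
  obtain ⟨i, j, hij, hi, hj, hl⟩ := hm (φ (Pi.single 0 1)) (φ (Pi.single 1 1))
    (φ (Pi.single 2 1)) ⟨i₀, by rw [← eq_ev3]; exact hφ1 _ (mem_univ _) hi₀⟩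
  simp only [← eq_ev3] at hi hj hl
  have hiH : i ∉ H := fun h => hi (hφ0 i h)
  have hjH : j ∉ H := fun h => hj (hφ0 j h)
  obtain ⟨x, hx, c, hc, hxc⟩ := modular_diff (planeMat_rep pt) hs hH hφ0 hφ1 (mem_univ i) hiH
    (mem_univ j) hjH hij
  apply hl x (φ (pt i) * φ (pt j) * c)
  have h3 : (φ (pt i) * φ (pt j)) • ((φ (pt i))⁻¹ • pt i - (φ (pt j))⁻¹ • pt j) =
      (φ (pt i) * φ (pt j)) • (c • pt x) := by rw [hxc]
  rw [smul_sub, smul_smul, smul_smul, smul_smul] at h3
  rw [← h3]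
  congr 2
  · field_simp
  · field_simp

/-- a set that contains three independent points has rank three -/
theorem planeMat_rank_eq (h : ∃ i j l, LinearIndependent F ![pt i, pt j, pt l]) :
    rk (planeMat pt) (planeMat pt).E = 3 := by
  have := planeMat_finite pt
  apply le_antisymm (planeMat_rank pt)
  obtain ⟨i, j, l, h⟩ := h
  rw [(planeMat_rep pt).rk_eq Subset.rfl]
  have h1 := finrank_span_eq_card h
  have h2 : finrank F (span F (range ![pt i, pt j, pt l])) = 3 := by
    rw [h1]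
    simp
  refine h2.symm.le.trans ?_
  apply Submodule.finrank_mono
  apply span_mono
  rintro _ ⟨x, rfl⟩
  fin_cases x
  · exact ⟨i, mem_univ _, rfl⟩
  · exact ⟨j, mem_univ _, rfl⟩
  · exact ⟨l, mem_univ _, rfl⟩

end Pool.Agent.Helper236
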