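import Pool.Agent.Helper236.K4
import Pool.Agent.Helper236.Normal

namespace Pool.Agent.Helper236

open Set Module Submodule

/-- `W` is obtained from `K` by relaxing the circuit-hyperplane `X`. -/
def IsRelaxation {β : Type*} (W K : Matroid β) (X : Set β) : Prop :=
  W.E = K.E ∧ ∀ I ⊆ K.E, W.Indep I ↔ K.Indep I ∨ I = X

/-- `N` is isomorphic to `M(K_4)`. -/
def IsK4 {α : Type*} (N : Matroid α) : Prop :=
  ∃ K : Matroid (Sym2 (Fin 4)), IsCompleteGraphMatroid 4 K ∧ Iso N K

/-- `N` is isomorphic to the whirl `W_3`, obtained from `M(K_4)` by relaxing the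
circuit-hyperplane formed by the triangle `1, 2, 3`. -/
def IsWhirl3 {α : Type*} (N : Matroid α) : Prop :=
  ∃ K W : Matroid (Sym2 (Fin 4)), IsCompleteGraphMatroid 4 K ∧
    IsRelaxation W K {s(1, 2), s(1, 3), s(2, 3)} ∧ Iso N W

section

variable {F : Type} [Field F]

theorem det3_iff {x y z : Fin 3 → F} : LinearIndependent F ![x, y, z] ↔
    x 0 * (y 1 * z 2 - y 2 * z 1) - x 1 * (y 0 * z 2 - y 2 * z 0) +
      x 2 * (y 0 * z 1 - y 1 * z 0) ≠ 0 := by
  have h3 := Matrix.linearIndependent_rows_iff_isUnit (A := Matrix.of ![x, y, z])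
  have h4 : LinearIndependent F (Matrix.of ![x, y, z]).row ↔ LinearIndependent F ![x, y, z] :=
    Iff.rfl
  rw [← h4, h3, Matrix.isUnit_iff_isUnit_det, isUnit_iff_ne_zero, Matrix.det_fin_three]
  simp only [Matrix.of_apply, Matrix.cons_val_zero, Matrix.cons_val_one, Matrix.cons_val]
  rw [not_iff_not]
  constructor
  · intro h
    linear_combination h
  · intro h
    linear_combination h

/-- six points of a plane forming a triangle with a further point on each side -/
def six (a b c d e f : F) : Fin 6 → (Fin 3 → F) :=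
  ![![1, 0, 0], ![0, 1, 0], ![0, 0, 1], ![a, b, 0], ![c, 0, d], ![0, e, f]]

/-- the good triples -/
def good : List (Finset (Fin 6)) :=
  [{0, 1, 2}, {0, 1, 4}, {0, 1, 5}, {0, 2, 3}, {0, 2, 5}, {0, 3, 4}, {0, 3, 5}, {0, 4, 5},
    {1, 2, 3}, {1, 2, 4}, {1, 3, 4}, {1, 3, 5}, {1, 4, 5}, {2, 3, 4}, {2, 3, 5}, {2, 4, 5}]

theorem good_cover : ∀ J : Finset (Fin 6), J.card ≤ 3 → J ≠ {0, 1, 3} → J ≠ {0, 2, 4} →
    J ≠ {1, 2, 5} → J = {3, 4, 5} ∨ ∃ T ∈ good, J ⊆ T := by
  decide

theorem six_triple (a b c d e f : F) {i j l : Fin 6} (hij : i ≠ j) (hil : i ≠ l) (hjl : j ≠ l) :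
    LinearIndepOn F (six a b c d e f) (({i, j, l} : Finset (Fin 6)) : Set (Fin 6)) ↔
    LinearIndependent F ![six a b c d e f i, six a b c d e f j, six a b c d e f l] := by
  rw [← linearIndepOn_triple _ hij hil hjl]
  simp

theorem six_indep {a b c d e f : F} (ha : a ≠ 0) (hb : b ≠ 0) (hc : c ≠ 0) (hd : d ≠ 0)
    (he : e ≠ 0) (hf : f ≠ 0) (J : Finset (Fin 6)) :
    LinearIndepOn F (six a b c d e f) (J : Set (Fin 6)) ↔
      J.card ≤ 3 ∧ J ≠ {0, 1, 3} ∧ J ≠ {0, 2, 4} ∧ J ≠ {1, 2, 5} ∧
        (a * d * e + b * c * f = 0 → J ≠ {3, 4, 5}) := by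
  constructor
  · intro h
    refine ⟨?_, ?_, ?_, ?_, ?_⟩
    · have h1 := h.linearIndependent.fintype_card_le_finrank
      simpa using h1
    · rintro rfl
      rw [six_triple _ _ _ _ _ _ (by decide) (by decide) (by decide), det3_iff] at h
      simp [six] at h
    · rintro rfl
      rw [six_triple _ _ _ _ _ _ (by decide) (by decide) (by decide), det3_iff] at h
      simp [six] at h
    · rintro rfl
      rw [six_triple _ _ _ _ _ _ (by decide) (by decide) (by decide), det3_iff] at h
      simp [six] at h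
    · rintro h0 rfl
      rw [six_triple _ _ _ _ _ _ (by decide) (by decide) (by decide), det3_iff] at h
      apply h
      simp [six]
      linear_combination -h0
  · rintro ⟨h1, h2, h3, h4, h5⟩
    have h345 : J = {3, 4, 5} → LinearIndepOn F (six a b c d e f) (J : Set (Fin 6)) := by
      rintro rfl
      rw [six_triple _ _ _ _ _ _ (by decide) (by decide) (by decide), det3_iff]
      intro h0
      refine h5 ?_ rfl
      simp [six] at h0
      linear_combination -h0
    rcases good_cover J h1 h2 h3 h4 with h6 | ⟨T, hT, hJT⟩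
    · exact h345 h6
    · have hTi : LinearIndepOn F (six a b c d e f) (T : Set (Fin 6)) := by
        simp only [good, List.mem_cons, List.not_mem_nil, or_false] at hT
        rcases hT with rfl | rfl | rfl | rfl | rfl | rfl | rfl | rfl | rfl | rfl | rfl | rfl |
          rfl | rfl | rfl | rfl <;>
        (rw [six_triple _ _ _ _ _ _ (by decide) (by decide) (by decide), det3_iff]
         simp [six, ha, hb, hc, hd, he, hf])
      exact hTi.mono (by exact_mod_cast hJT)

/-- the edges of the complete graph on four vertices -/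
def ed : Fin 6 → Sym2 (Fin 4) := ![s(0, 1), s(0, 2), s(0, 3), s(1, 2), s(1, 3), s(2, 3)]

theorem ed_inj : Function.Injective ed := by
  decide

theorem range_ed : Set.range ed = (⊤ : SimpleGraph (Fin 4)).edgeSet := by
  ext x
  induction x with
  | _ i j =>
  have h : ∀ i j : Fin 4, (∃ l, ed l = s(i, j)) ↔ i ≠ j := by decide
  simpa using h i j


theorem iso_of_maps {α β : Type*} {m : ℕ} {N : Matroid α} {K : Matroid β} {ι : Fin m → α}
    {κ : Fin m → β} (hι : Function.Injective ι) (hκ : Function.Injective κ)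
    (hN : N.E = Set.range ι) (hK : K.E = Set.range κ)
    (h : ∀ J : Set (Fin m), N.Indep (ι '' J) ↔ K.Indep (κ '' J)) : Iso N K := by
  have b1 : Function.Bijective (fun i => (⟨ι i, hN ▸ Set.mem_range_self i⟩ : N.E)) := by
    refine ⟨fun i j hij => hι (Subtype.ext_iff.1 hij), fun x => ?_⟩
    have h2 : (x : α) ∈ Set.range ι := hN ▸ x.2
    obtain ⟨i, hi⟩ := h2
    exact ⟨i, Subtype.ext hi⟩
  have b2 : Function.Bijective (fun i => (⟨κ i, hK ▸ Set.mem_range_self i⟩ : K.E)) := by
    refine ⟨fun i j hij => hκ (Subtype.ext_iff.1 hij), fun x => ?_⟩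
    have h2 : (x : β) ∈ Set.range κ := hK ▸ x.2
    obtain ⟨i, hi⟩ := h2
    exact ⟨i, Subtype.ext hi⟩
  let e : N.E ≃ K.E := (Equiv.ofBijective _ b1).symm.trans (Equiv.ofBijective _ b2)
  have he : ∀ i (hi : ι i ∈ N.E), ((e ⟨ι i, hi⟩ : K.E) : β) = κ i := by
    intro i hi
    have h3 : (Equiv.ofBijective _ b1).symm ⟨ι i, hi⟩ = i :=
      (Equiv.symm_apply_eq _).2 rfl
    simp only [e, Equiv.trans_apply, h3, Equiv.ofBijective_apply]
  refine ⟨e, fun I => ?_⟩
  set J : Set (Fin m) := {i | ι i ∈ ((↑) '' I : Set α)} with hJ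
  have h1 : ((↑) '' I : Set α) = ι '' J := by
    ext x
    constructor
    · rintro ⟨y, hy, rfl⟩
      have h2 : (y : α) ∈ Set.range ι := hN ▸ y.2
      obtain ⟨i, hi⟩ := h2
      refine ⟨i, ?_, hi⟩
      rw [hJ]
      exact ⟨y, hy, hi.symm⟩
    · rintro ⟨i, hi, rfl⟩
      exact hi
  have h2 : ((↑) '' (e '' I) : Set β) = κ '' J := by
    ext x
    constructor
    · rintro ⟨_, ⟨y, hy, rfl⟩, rfl⟩
      have h2 : (y : α) ∈ Set.range ι := hN ▸ y.2
      obtain ⟨i, hi⟩ := h2
      have h3 : y = ⟨ι i, hi ▸ y.2⟩ := Subtype.ext hi.symm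
      refine ⟨i, ⟨y, hy, hi.symm⟩, ?_⟩
      rw [h3, he]
    · rintro ⟨i, ⟨y, hy, hi⟩, rfl⟩
      have h3 : y = ⟨ι i, hi ▸ y.2⟩ := Subtype.ext hi
      refine ⟨e y, ⟨y, hy, rfl⟩, ?_⟩
      rw [h3, he]
  rw [h1, h2]
  exact h J

theorem indep_image_iff {α W : Type*} [AddCommGroup W] [Module F W] {N : Matroid α} {u : α → W}
    (h : Rep F N u) {m : ℕ} {ι : Fin m → α} (hι : Function.Injective ι) (hN : N.E = Set.range ι)
    {p : Fin m → (Fin 3 → F)} (T : (Fin 3 → F) →ₗ[F] W) (hT : Function.Injective T)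
    {c : Fin m → F} (hc : ∀ i, c i ≠ 0) (hu : ∀ i, u (ι i) = c i • T (p i))
    (J : Set (Fin m)) : N.Indep (ι '' J) ↔ LinearIndepOn F p J := by
  rw [h _ (by rw [hN]; exact Set.image_subset_range _ _)]
  have h1 : LinearIndepOn F u (ι '' J) ↔ LinearIndepOn F (u ∘ ι) J :=
    ⟨fun h' => h'.comp_of_image hι.injOn, fun h' => h'.image_of_comp _ _⟩
  have h3 : LinearIndepOn F (u ∘ ι) J ↔ LinearIndepOn F (T ∘ p) J :=
    (linearIndepOn_scale_iff (c := c) (fun i _ => hu i) (fun i _ => hc i)).symm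
  rw [h1, h3]
  constructor
  · intro h2
    exact h2.of_comp T
  · intro h2
    exact h2.map_injOn T hT.injOn

theorem cyc_indep (J : Set (Fin 6)) :
    (cyc F 4).Indep (ed '' J) ↔ LinearIndepOn F (six (1 : F) (-1) 1 (-1) 1 (-1)) J := by
  let T : (Fin 3 → F) →ₗ[F] (Fin 4 → F) := Fintype.linearCombination F
    ![std F 4 0 - std F 4 1, std F 4 0 - std F 4 2, std F 4 0 - std F 4 3]
  have hT : Function.Injective T := by
    rw [← LinearMap.ker_eq_bot, LinearMap.ker_eq_bot']
    intro x hx
    have e1 := congrFun hx 1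
    have e2 := congrFun hx 2
    have e3 := congrFun hx 3
    simp [T, Fintype.linearCombination_apply, Fin.sum_univ_three, std] at e1 e2 e3
    ext i
    fin_cases i
    · simpa using e1
    · simpa using e2
    · simpa using e3
  have hu : ∀ i, ∃ c : F, c ≠ 0 ∧ diffVec (std F 4) (ed i) =
      c • T (six (1 : F) (-1) 1 (-1) 1 (-1) i) := by
    have hpm : ∀ (i j : Fin 4) (x : Fin 3 → F), std F 4 i - std F 4 j = T x →
        ∃ c : F, c ≠ 0 ∧ diffVec (std F 4) s(i, j) = c • T x := by
      intro i j x hx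
      rcases diffVec_mk (std F 4) i j with h | h
      · exact ⟨1, one_ne_zero, by rw [h, hx, one_smul]⟩
      · exact ⟨-1, by simp, by rw [h, ← hx, neg_smul, one_smul, neg_sub]⟩
    have hpm' : ∀ (i j : Fin 4) (x : Fin 3 → F), std F 4 j - std F 4 i = T x →
        ∃ c : F, c ≠ 0 ∧ diffVec (std F 4) s(i, j) = c • T x := by
      intro i j x hx
      rw [Sym2.eq_swap]
      exact hpm j i x hx
    intro i
    fin_cases i
    · exact hpm 0 1 _ (by
        simp [T, Fintype.linearCombination_apply, Fin.sum_univ_three, six])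
    · exact hpm 0 2 _ (by
        simp [T, Fintype.linearCombination_apply, Fin.sum_univ_three, six])
    · exact hpm 0 3 _ (by
        simp [T, Fintype.linearCombination_apply, Fin.sum_univ_three, six])
    · exact hpm' 1 2 _ (by
        simp [T, Fintype.linearCombination_apply, Fin.sum_univ_three, six])
    · exact hpm' 1 3 _ (by
        simp [T, Fintype.linearCombination_apply, Fin.sum_univ_three, six])
    · exact hpm' 2 3 _ (by
        simp [T, Fintype.linearCombination_apply, Fin.sum_univ_three, six])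
  choose c hc hu using hu
  exact indep_image_iff (linMatroid_rep _ _ _) ed_inj range_ed.symm T hT hc hu J

/-- six points in the configuration give `M(K_4)` or the whirl -/
theorem six_minor {α W : Type*} [AddCommGroup W] [Module F W] {N : Matroid α} {u : α → W}
    (h : Rep F N u) {ι : Fin 6 → α} (hι : Function.Injective ι) (hN : N.E = Set.range ι)
    {a b c d e f : F} (ha : a ≠ 0) (hb : b ≠ 0) (hc : c ≠ 0) (hd : d ≠ 0)
    (he : e ≠ 0) (hf : f ≠ 0) (T : (Fin 3 → F) →ₗ[F] W) (hT : Function.Injective T)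
    (hu : ∀ i, u (ι i) = T (six a b c d e f i)) : IsK4 N ∨ IsWhirl3 N := by
  classical
  have h1 : ∀ J : Set (Fin 6), N.Indep (ι '' J) ↔ LinearIndepOn F (six a b c d e f) J :=
    indep_image_iff h hι hN T hT (c := fun _ => 1) (fun _ => one_ne_zero)
      (fun i => by rw [hu, one_smul])
  have hK := cyc_isCompleteGraphMatroid F 4
  have hKE : (cyc F 4).E = Set.range ed := range_ed.symm
  have hone : (1 : F) ≠ 0 := one_ne_zero
  have hneg : (-1 : F) ≠ 0 := by simp
  by_cases hδ : a * d * e + b * c * f = 0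
  · left
    refine ⟨cyc F 4, hK, iso_of_maps hι ed_inj hN hKE fun J => ?_⟩
    rw [h1, cyc_indep]
    have hJ : J = ((J.toFinset : Finset (Fin 6)) : Set (Fin 6)) := by simp
    rw [hJ, six_indep ha hb hc hd he hf, six_indep hone hneg hone hneg hone hneg]
    have : (1 : F) * (-1) * 1 + -1 * 1 * (-1) = 0 := by ring
    simp only [hδ, this]
  · right
    let w : Sym2 (Fin 4) → (Fin 3 → F) := Function.extend ed (six a b c d e f) 0
    have hw : ∀ i, w (ed i) = six a b c d e f i := fun i => ed_inj.extend_apply _ _ _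
    let Wh : Matroid (Sym2 (Fin 4)) := linMatroid F w (⊤ : SimpleGraph (Fin 4)).edgeSet
      (Set.toFinite _)
    have hWrep : Rep F Wh w := linMatroid_rep _ _ _
    have hWE : Wh.E = Set.range ed := range_ed.symm
    have h2 : ∀ J : Set (Fin 6), Wh.Indep (ed '' J) ↔ LinearIndepOn F (six a b c d e f) J :=
      indep_image_iff hWrep ed_inj hWE LinearMap.id Function.injective_id (c := fun _ => 1)
        (fun _ => one_ne_zero) (fun i => by rw [hw, one_smul, LinearMap.id_apply])
    refine ⟨cyc F 4, Wh, hK, ⟨rfl, fun I hI => ?_⟩, iso_of_maps hι ed_inj hN hWE fun J => ?_⟩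
    · obtain ⟨J, rfl⟩ : ∃ J : Set (Fin 6), I = ed '' J := by
        refine ⟨ed ⁻¹' I, ?_⟩
        rw [Set.image_preimage_eq_iff.2]
        rw [range_ed]
        exact hI
      rw [h2, cyc_indep]
      have hJ : J = ((J.toFinset : Finset (Fin 6)) : Set (Fin 6)) := by simp
      have h345 : (ed '' J = {s(1, 2), s(1, 3), s(2, 3)}) ↔ J.toFinset = {3, 4, 5} := by
        have e1 : ({s(1, 2), s(1, 3), s(2, 3)} : Set (Sym2 (Fin 4))) =
            ed '' (({3, 4, 5} : Finset (Fin 6)) : Set (Fin 6)) := by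
          simp [Set.image_insert_eq, ed]
        rw [e1, ed_inj.image_injective.eq_iff]
        conv_lhs => rw [hJ]
        exact Finset.coe_inj
      rw [h345]
      conv_lhs => rw [hJ, six_indep ha hb hc hd he hf]
      conv_rhs => rw [hJ, six_indep hone hneg hone hneg hone hneg]
      have : (1 : F) * (-1) * 1 + -1 * 1 * (-1) = 0 := by ring
      simp only [hδ, this, Finset.toFinset_coe]
      constructor
      · rintro ⟨h3, h4, h5, h6, -⟩
        by_cases h7 : J.toFinset = {3, 4, 5}
        · exact Or.inr h7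
        · exact Or.inl ⟨h3, h4, h5, h6, fun _ => h7⟩
      · rintro (⟨h3, h4, h5, h6, -⟩ | h7)
        · exact ⟨h3, h4, h5, h6, fun h => h.elim⟩
        · rw [h7]
          refine ⟨by decide, by decide, by decide, by decide, fun h => h.elim⟩
    · rw [h1, h2]

end

end Pool.Agent.Helper236
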