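import Pool.Agent.Helper236.Plane
import Pool.Agent.Helper236.F4

namespace Pool.Agent.Helper236.Unital4

open Set Module Submodule

/-- the nine points `x ^ 3 + y ^ 3 + z ^ 3 = 0` of the projective plane over `F4` -/
def pt : Fin 9 → (Fin 3 → F4) :=
  ![![0, 1, ⟨1, 0⟩], ![0, 1, ⟨0, 1⟩], ![0, 1, ⟨1, 1⟩],
    ![1, 0, ⟨1, 0⟩], ![1, 0, ⟨0, 1⟩], ![1, 0, ⟨1, 1⟩],
    ![1, ⟨1, 0⟩, 0], ![1, ⟨0, 1⟩, 0], ![1, ⟨1, 1⟩, 0]]

theorem fact_block : ∀ a b c : F4, ∃ i : Fin 9, ev3 a b c (pt i) = 0 := by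
  decide +kernel

theorem fact_tangent : ∀ i : Fin 9, ∃ a b c : F4, ev3 a b c (pt i) = 0 ∧
    ∀ j : Fin 9, j ≠ i → ev3 a b c (pt j) ≠ 0 := by
  decide +kernel

theorem fact_ne_zero : ∀ i : Fin 9, pt i ≠ 0 := by
  decide +kernel

theorem fact_simple : ∀ i j : Fin 9, i ≠ j → ∀ c : F4, c • pt i ≠ pt j := by
  decide +kernel

theorem fact_nomod : ∀ a b c : F4, (∃ i : Fin 9, ev3 a b c (pt i) ≠ 0) →
    ∃ i j : Fin 9, i ≠ j ∧ ev3 a b c (pt i) ≠ 0 ∧ ev3 a b c (pt j) ≠ 0 ∧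
      ∀ (l : Fin 9) (d : F4),
        ev3 a b c (pt j) • pt i - ev3 a b c (pt i) • pt j ≠ d • pt l := by
  decide +kernel

theorem fact_indep : ∀ a b c : F4, a • pt 0 + b • pt 1 + c • pt 3 = 0 →
    a = 0 ∧ b = 0 ∧ c = 0 := by
  decide +kernel

theorem simple : IsSimple (planeMat pt) := planeMat_simple pt fact_ne_zero fact_simple

theorem not_modular : ¬ ∃ H, IsModularHyperplane (planeMat pt) H :=
  planeMat_not_modular pt simple fact_nomod

theorem rank : rk (planeMat pt) (planeMat pt).E = 3 := by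
  refine planeMat_rank_eq pt ⟨0, 1, 3, ?_⟩
  rw [Fintype.linearIndependent_iff]
  intro g hg
  rw [Fin.sum_univ_three] at hg
  obtain ⟨h0, h1, h2⟩ := fact_indep (g 0) (g 1) (g 2) hg
  intro i
  fin_cases i
  · exact h0
  · exact h1
  · exact h2

theorem critExp_gt : ((1 : ℕ) : ℕ∞) < critExp (planeMat pt) (Nat.card F4) := by
  have := planeMat_finite pt
  exact (lt_critExp_iff (planeMat_rep pt) 1).2 (planeMat_block pt fact_block)

theorem minor_le' {N : Matroid (Fin 9)} (hN : N.IsMinor (planeMat pt)) (hne : N ≠ planeMat pt)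
    (hl : ∀ e ∈ N.E, N.IsNonloop e) : critExp N (Nat.card F4) ≤ (1 : ℕ) := by
  have := planeMat_finite pt
  exact minor_le (planeMat_rep pt) simple (fun G hG hGne => rank_three_flats (planeMat_rep pt)
    simple (planeMat_rank pt) (planeMat_tangent pt fact_tangent) G hG hGne) hN hne hl

end Pool.Agent.Helper236.Unital4
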