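import Pool.Agent.Helper236.SizeDefs
import Pool.Agent.Helper236.Count
import Pool.Agent.Helper236.Unital4

namespace Pool.Agent.Helper236.Size

open Set Module Submodule Pool.Agent.Helper236

variable {F : Type} [Field F] {α : Type} {k : ℕ}

theorem representable_of_rep {W : Type*} [AddCommGroup W] [Module F W] [FiniteDimensional F W]
    {M : Matroid α} {v : α → W} (h : Rep F M v) : Representable F M := by
  let e := (Module.finBasis F W).equivFun
  exact ⟨finrank F W, _, h.comp_injective e.toLinearMap e.injective⟩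

theorem representable_minor {M N : Matroid α} (h : Representable F M) (hN : N.IsMinor M) :
    Representable F N := by
  obtain ⟨n, v, hv⟩ := h
  obtain ⟨C, D, hC, -, -, rfl⟩ := hN.exists_eq_contract_delete_disjoint
  exact representable_of_rep (Rep.minor (F := F) hv C D hC)

theorem finite_minor {M N : Matroid α} (h : M.Finite) (hN : N.IsMinor M) : N.Finite :=
  ⟨M.ground_finite.subset hN.subset⟩

/-- A block has a tangential block as a minor. -/
theorem exists_tangential (m : ℕ) : ∀ M : Matroid α, InL F M → (k : ℕ∞) < critExp M (Nat.card F) →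
    M.E.ncard = m → ∃ N : Matroid α, N.IsMinor M ∧ IsTangentialBlock F k N := by
  induction m using Nat.strong_induction_on with
  | _ m ih =>
  intro M hM hk hm
  by_cases h : ∀ N : Matroid α, N.IsMinor M → N ≠ M → IsSimple N → critExp N (Nat.card F) ≤ k
  · exact ⟨M, Matroid.IsMinor.refl, hM, hk, h⟩
  · push Not at h
    obtain ⟨N, hN, hne, hs, hlt⟩ := h
    have hfin := hM.1
    have hss : N.E ⊂ M.E := by
      refine hN.subset.ssubset_of_ne fun heq => hne ?_
      exact (hN.eq_of_ground_subset heq.symm.subset).symm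
    have hcard : N.E.ncard < m := by
      rw [← hm]
      exact Set.ncard_lt_ncard hss M.ground_finite
    obtain ⟨N', hN', ht⟩ := ih _ hcard N ⟨finite_minor hfin hN, hs, representable_minor hM.2.2 hN⟩
      hlt rfl
    exact ⟨N', hN'.trans hN, ht⟩

theorem critExp_le_of_inM {M N : Matroid α} (hM : InM F k α M) (hN : N.IsMinor M)
    (hs : IsSimple N) : critExp N (Nat.card F) ≤ k := by
  by_contra hlt
  obtain ⟨N', hN', ht⟩ := exists_tangential (F := F) (k := k) _ N
    ⟨finite_minor hM.1.1 hN, hs, representable_minor hM.1.2.2 hN⟩ (not_le.1 hlt) rfl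
  exact hM.2 N' (hN'.trans hN) ht

/-- In a member of the class every point lies on a tangent. -/
theorem exists_tangent [Finite F] {W : Type*} [AddCommGroup W] [Module F W]
    [FiniteDimensional F W] {M : Matroid α} {v : α → W} (h : Rep F M v)
    (hM : InM F k α M) {e : α} (he : e ∈ M.E) :
    ∃ f : W →ₗ[F] (Fin k → F), f (v e) = 0 ∧ ∀ x ∈ M.E, x ≠ e → f (v x) ≠ 0 := by
  classical
  have hfin := hM.1.1
  have hs := hM.1.2.1
  set U := span F (v '' {e}) with hU
  set u : α → W ⧸ U := U.mkQ ∘ v with hu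
  have hu0 : ∀ x ∈ M.E, x ≠ e → u x ≠ 0 := by
    intro x hx hxe h0
    have h1 : v x ∈ U := by simpa [hu] using h0
    rw [hU, image_singleton, mem_span_singleton] at h1
    obtain ⟨c, hc⟩ := h1
    exact hxe (h.eq_of_smul hs hx he hc.symm)
  -- representatives of the parallel classes of the contraction
  have hchoose : ∀ P : Submodule F (W ⧸ U), ∃ t : α,
      (∃ x ∈ M.E, x ≠ e ∧ span F {u x} = P) → t ∈ M.E ∧ t ≠ e ∧ span F {u t} = P := by
    intro P
    by_cases hP : ∃ x ∈ M.E, x ≠ e ∧ span F {u x} = P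
    · obtain ⟨x, hx⟩ := hP
      exact ⟨x, fun _ => hx⟩
    · exact ⟨e, fun h => absurd h hP⟩
  choose s hs' using hchoose
  set T : Set α := {x | x ∈ M.E ∧ x ≠ e ∧ s (span F {u x}) = x} with hT
  have hrep : ∀ x ∈ M.E, x ≠ e → s (span F {u x}) ∈ T ∧
      span F {u (s (span F {u x}))} = span F {u x} := by
    intro x hx hxe
    obtain ⟨h1, h2, h3⟩ := hs' (span F {u x}) ⟨x, hx, hxe, rfl⟩
    refine ⟨⟨h1, h2, ?_⟩, h3⟩
    rw [h3]
  set D : Set α := M.E \ T with hD
  set N := (M.contract {e}).delete D with hN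
  have hNE : N.E = T := by
    ext x
    constructor
    · rintro ⟨⟨hx1, hx2⟩, hx3⟩
      by_contra hxT
      exact hx3 ⟨hx1, hxT⟩
    · intro hx
      exact ⟨⟨hx.1, fun h => hx.2.1 h⟩, fun h => h.2 hx⟩
  have heE : ({e} : Set α) ⊆ M.E := by simpa using he
  have hNrep : Rep F N u := h.minor {e} D heE
  have hNs : IsSimple N := by
    intro x hx y hy
    have hx' : x ∈ T := hNE ▸ hx
    have hy' : y ∈ T := hNE ▸ hy
    rw [hNrep _ (by
      intro z hz
      rcases hz with rfl | rfl <;> assumption)]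
    by_cases hxy : x = y
    · subst hxy
      simpa using hu0 x hx'.1 hx'.2.1
    · rw [linearIndepOn_pair_iff _ hxy (hu0 x hx'.1 hx'.2.1)]
      intro c hc
      apply hxy
      have hc0 : c ≠ 0 := by
        rintro rfl
        rw [zero_smul] at hc
        exact hu0 y hy'.1 hy'.2.1 hc.symm
      have : span F {u x} = span F {u y} := by
        rw [← hc]
        exact (span_singleton_smul_eq (IsUnit.mk0 c hc0) _).symm
      rw [← hx'.2.2, ← hy'.2.2, this]
  have hle := critExp_le_of_inM hM ⟨{e}, D, rfl⟩ hNs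
  rw [minor_critExp_le_iff h k {e} D heE] at hle
  obtain ⟨f, hf1, hf2⟩ := hle
  refine ⟨f, hf1 e rfl, ?_⟩
  intro x hx hxe h0
  obtain ⟨h1, h2⟩ := hrep x hx hxe
  set t := s (span F {u x}) with ht
  have h3 : u t ∈ span F {u x} := by
    rw [← h2]
    exact mem_span_singleton_self _
  obtain ⟨c, hc⟩ := mem_span_singleton.1 h3
  have h4 : v t - c • v x ∈ U := by
    rw [← Submodule.ker_mkQ U, LinearMap.mem_ker, map_sub, map_smul]
    rw [sub_eq_zero]
    exact hc.symm
  have h5 : f (v t - c • v x) = 0 := by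
    have hle : U ≤ LinearMap.ker f := by
      rw [hU, span_le]
      rintro _ ⟨y, hy, rfl⟩
      exact hf1 y hy
    exact hle h4
  rw [map_sub, map_smul, h0, smul_zero, sub_zero] at h5
  have htN : t ∈ N.E := by
    rw [hNE]
    exact h1
  exact hf2 t htN h5

/-- A member of `M(1; 4)` of rank three has at most eight points. -/
theorem upper [Finite F] (hF : Nat.card F = 4) {M : Matroid α} (hM : InM F 1 α M)
    (hr : rk M M.E = 3) : M.E.ncard ≤ 8 := by
  by_contra hlt
  have hfin := hM.1.1
  obtain ⟨n, v, hv⟩ := hM.1.2.2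
  have h : Rep F M v := hv
  have hft : Fintype M.E := M.ground_finite.fintype
  have hcard : Fintype.card (Fin 9) ≤ Fintype.card M.E := by
    rw [Fintype.card_fin, ← Nat.card_eq_fintype_card, Nat.card_coe_set_eq]
    omega
  obtain ⟨a⟩ := Function.Embedding.nonempty_of_card_le hcard
  set V := span F (v '' M.E) with hV
  have hVr : finrank F V = 3 := by
    rw [← hr, h.rk_eq Subset.rfl]
  let w : Fin 9 → V := fun i => ⟨v (a i), subset_span (mem_image_of_mem v (a i).2)⟩
  have hex : ∀ i : Fin 9, ∃ f : (Fin n → F) →ₗ[F] (Fin 1 → F), f (v (a i)) = 0 ∧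
      ∀ x ∈ M.E, x ≠ a i → f (v x) ≠ 0 := fun i => exists_tangent h hM (a i).2
  choose f hf0 hf using hex
  obtain ⟨g, hg⟩ := (critExp_le_iff h 1).1
    (critExp_le_of_inM hM Matroid.IsMinor.refl hM.1.2.1)
  have hzero : ∀ y : Fin 1 → F, y 0 = 0 → y = 0 := by
    intro y hy
    ext i
    rw [Subsingleton.elim i 0]
    exact hy
  refine no_nine hF hVr w (fun i => ((LinearMap.proj 0).comp (f i)).comp V.subtype)
    (((LinearMap.proj 0).comp g).comp V.subtype) ?_ ?_ ?_
  · intro i
    change f i (v (a i)) 0 = 0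
    rw [hf0]
    rfl
  · intro i j hij h0
    refine hf i (a j) (a j).2 ?_ (hzero _ h0)
    intro heq
    exact hij (a.injective (Subtype.ext heq)).symm
  · intro j h0
    exact hg (a j) (a j).2 (hzero _ h0)

theorem card_le [Finite F] {M : Matroid α} (hM : InL F M) :
    M.E.ncard ≤ Nat.card F ^ rk M M.E := by
  have hfin := hM.1
  obtain ⟨n, v, hv⟩ := hM.2.2
  have h : Rep F M v := hv
  have hfV : Finite (span F (v '' M.E)) := Module.finite_of_finite F
  rw [h.rk_eq Subset.rfl, ← Module.natCard_eq_pow_finrank (K := F), ← Nat.card_coe_set_eq]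
  refine Nat.card_le_card_of_injective
    (fun e : M.E => (⟨v e, subset_span (mem_image_of_mem v e.2)⟩ : span F (v '' M.E))) ?_
  intro x y hxy
  have h1 : v x = v y := congrArg Subtype.val hxy
  exact Subtype.ext (h.eq_of_smul hM.2.1 x.2 y.2 (c := 1) (by rw [one_smul]; exact h1))

theorem unital_inL : InL F4 (planeMat Unital4.pt) :=
  ⟨planeMat_finite _, Unital4.simple, ⟨3, _, planeMat_rep _⟩⟩

theorem unital_inExS : InExS F4 1 _ (planeMat Unital4.pt) := by
  refine ⟨unital_inL, ?_⟩
  rintro N hN ⟨ht, hss⟩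
  by_cases hne : N = planeMat Unital4.pt
  · subst hne
    obtain ⟨G, hG, -⟩ := hss
    have hr := Unital4.rank
    obtain ⟨h1, h2⟩ := hG 2 (by omega)
    exact Unital4.not_modular ⟨G 2, h1, by omega⟩
  · exact absurd (Unital4.minor_le' hN hne (isSimple_nonloop ht.1.2.1)) (not_le.2 ht.2.1)

theorem nat_card_F4 : Nat.card F4 = 4 := by
  rw [Nat.card_congr F4.equiv.symm, Nat.card_prod, Nat.card_zmod]

theorem main : ∃ (F : Type) (_ : Field F) (_ : Finite F) (k n : ℕ), 1 ≤ k ∧ 1 ≤ n ∧
    sizeFn (InM F k) n < sizeFn (InExS F k) n := by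
  refine ⟨F4, inferInstance, inferInstance, 1, 3, le_refl 1, by norm_num, ?_⟩
  have h1 : sizeFn (InM F4 1) 3 ≤ 8 := by
    rw [sizeFn]
    rcases Set.eq_empty_or_nonempty {m : ℕ | ∃ (α : Type) (M : Matroid α), InM F4 1 α M ∧
      rk M M.E = 3 ∧ M.E.ncard = m} with h | h
    · rw [h, csSup_empty]
      norm_num
    · refine csSup_le h ?_
      rintro m ⟨α, M, hM, hr, rfl⟩
      exact upper nat_card_F4 hM hr
  have h2 : 9 ≤ sizeFn (InExS F4 1) 3 := by
    rw [sizeFn]
    refine le_csSup ⟨4 ^ 3, ?_⟩ ⟨Fin 9, planeMat Unital4.pt, unital_inExS, Unital4.rank, ?_⟩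
    · rintro m ⟨α, M, hM, hr, rfl⟩
      have := card_le hM.1
      rwa [hr, nat_card_F4] at this
    · rw [planeMat_E, Set.ncard_univ, Nat.card_fin]
  omega

end Pool.Agent.Helper236.Size
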