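import Pool.Agent.Helper236.Defs

namespace Pool.Agent.Helper236.Size

open Pool.Agent.Helper236

/-- `M` is a geometry (finite simple matroid) representable over `F`. -/
def InL (F : Type) [Field F] {α : Type} (M : Matroid α) : Prop :=
  M.Finite ∧ IsSimple M ∧ Representable F M

/-- `M` is a tangential `k`-block over the finite field `F`: it is a geometry representable over
`F` with critical exponent larger than `k`, and every proper minor that is a geometry has critical
exponent at most `k`. -/
def IsTangentialBlock (F : Type) [Field F] (k : ℕ) {α : Type} (M : Matroid α) : Prop :=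
  InL F M ∧ (k : ℕ∞) < critExp M (Nat.card F) ∧
    ∀ N : Matroid α, N.IsMinor M → N ≠ M → IsSimple N → critExp N (Nat.card F) ≤ k

/-- `M` is supersolvable: there are modular flats `G 0 ⊆ G 1 ⊆ ... ⊆ G r` with `r (G i) = i`,
where `r` is the rank of `M`. -/
def IsSupersolvable {α : Type} (M : Matroid α) : Prop :=
  ∃ G : ℕ → Set α, (∀ i ≤ rk M M.E, IsModularFlat M (G i) ∧ rk M (G i) = i) ∧
    ∀ i < rk M M.E, G i ⊆ G (i + 1)

/-- The class `M(k; q)`: geometries representable over `F` without a minor that is a tangential
`k`-block over `F`. -/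
def InM (F : Type) [Field F] (k : ℕ) (α : Type) (M : Matroid α) : Prop :=
  InL F M ∧ ∀ N : Matroid α, N.IsMinor M → ¬ IsTangentialBlock F k N

/-- The class `EX(S_k(q)) ∩ L(q)`: geometries representable over `F` without a minor that is a
supersolvable tangential `k`-block over `F`. -/
def InExS (F : Type) [Field F] (k : ℕ) (α : Type) (M : Matroid α) : Prop :=
  InL F M ∧ ∀ N : Matroid α, N.IsMinor M → ¬ (IsTangentialBlock F k N ∧ IsSupersolvable N)

/-- The size function `h(C; n)` of a class `C` of geometries: the maximum number of points of a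
geometry of rank `n` in the class. -/
noncomputable def sizeFn (C : ∀ α : Type, Matroid α → Prop) (n : ℕ) : ℕ :=
  sSup {m : ℕ | ∃ (α : Type) (M : Matroid α), C α M ∧ rk M M.E = n ∧ M.E.ncard = m}

end Pool.Agent.Helper236.Size
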