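import Pool.Agent.Helper236.Normal

namespace Pool.Agent.Helper236

open Set Module Submodule

variable {α F W : Type*} [Field F] [AddCommGroup W] [Module F W] {k : ℕ}
  {M : Matroid α} {v : α → W}

theorem closure_singleton_of_simple (h : Rep F M v) (hs : IsSimple M) {e : α} (he : e ∈ M.E) :
    M.closure {e} = {e} := by
  apply Set.Subset.antisymm _ (Set.singleton_subset_iff.2 (M.mem_closure_self e he))
  intro x hx
  have hxE : x ∈ M.E := M.closure_subset_ground _ hx
  rw [h.mem_closure_iff (Set.singleton_subset_iff.2 he) hxE, Set.image_singleton,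
    Submodule.mem_span_singleton] at hx
  obtain ⟨c, hc⟩ := hx
  exact h.eq_of_smul hs hxE he hc.symm

theorem isFlat_singleton_of_simple (h : Rep F M v) (hs : IsSimple M) {e : α} (he : e ∈ M.E) :
    M.IsFlat {e} := by
  rw [Matroid.isFlat_iff_closure_eq, closure_singleton_of_simple h hs he]

/-- Loopless proper minors of `M` have critical exponent at most `k` if every nonempty flat is
the zero set of a linear map to `F ^ k`. -/
theorem minor_le [Finite F] [FiniteDimensional F W] [M.Finite] (h : Rep F M v) (hs : IsSimple M)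
    (hT : ∀ G, M.IsFlat G → G.Nonempty → ∃ f : W →ₗ[F] (Fin k → F),
      (∀ x ∈ G, f (v x) = 0) ∧ ∀ x ∈ M.E, x ∉ G → f (v x) ≠ 0)
    {N : Matroid α} (hN : N.IsMinor M) (hne : N ≠ M) (hl : ∀ e ∈ N.E, N.IsNonloop e) :
    critExp N (Nat.card F) ≤ k := by
  obtain ⟨C, D, hC, hD, hCD, rfl⟩ := hN.exists_eq_contract_delete_disjoint
  rw [minor_critExp_le_iff h k C D hC]
  by_cases hCe : C.Nonempty
  · obtain ⟨f, hf1, hf2⟩ := hT (M.closure C) (M.isFlat_closure C)
      (hCe.mono (M.subset_closure C hC))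
    refine ⟨f, fun c hc => hf1 c (M.subset_closure C hC hc), fun e he => hf2 e he.1.1 ?_⟩
    intro hecl
    have h1 := (hl e he).of_delete
    rw [Matroid.contract_isNonloop_iff] at h1
    exact h1.2 hecl
  · rw [Set.not_nonempty_iff_eq_empty] at hCe
    subst hCe
    have hDne : D.Nonempty := by
      by_contra hcon
      rw [Set.not_nonempty_iff_eq_empty] at hcon
      subst hcon
      apply hne
      rw [Matroid.contract_empty, Matroid.delete_empty]
    obtain ⟨d, hd⟩ := hDne
    obtain ⟨f, -, hf2⟩ := hT {d} (isFlat_singleton_of_simple h hs (hD hd)) ⟨d, rfl⟩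
    refine ⟨f, by simp, fun e he => hf2 e he.1.1 ?_⟩
    rintro rfl
    exact he.2 hd

theorem isSimple_nonloop {N : Matroid α} (hN : IsSimple N) : ∀ e ∈ N.E, N.IsNonloop e := by
  intro e he
  have := hN e he e he
  simpa using this

/-- The same for simple proper minors. -/
theorem minor_le_simple [Finite F] [FiniteDimensional F W] [M.Finite] (h : Rep F M v)
    (hs : IsSimple M)
    (hT : ∀ G, M.IsFlat G → G.Nonempty → ∃ f : W →ₗ[F] (Fin k → F),
      (∀ x ∈ G, f (v x) = 0) ∧ ∀ x ∈ M.E, x ∉ G → f (v x) ≠ 0)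
    {N : Matroid α} (hN : N.IsMinor M) (hne : N ≠ M) (hl : IsSimple N) :
    critExp N (Nat.card F) ≤ k :=
  minor_le h hs hT hN hne (isSimple_nonloop hl)

/-- In rank 3 and for `k = 1` only the one-point flats have to be checked. -/
theorem rank_three_flats [Finite F] [FiniteDimensional F W] [M.Finite] (h : Rep F M v)
    (hs : IsSimple M) (hr : rk M M.E ≤ 3)
    (hT : ∀ e ∈ M.E, ∃ f : W →ₗ[F] F, f (v e) = 0 ∧ ∀ x ∈ M.E, x ≠ e → f (v x) ≠ 0)
    (G : Set α) (hG : M.IsFlat G) (hGne : G.Nonempty) :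
    ∃ f : W →ₗ[F] (Fin 1 → F), (∀ x ∈ G, f (v x) = 0) ∧ ∀ x ∈ M.E, x ∉ G → f (v x) ≠ 0 := by
  suffices hsuff : ∃ f : W →ₗ[F] F, (∀ x ∈ G, f (v x) = 0) ∧ ∀ x ∈ M.E, x ∉ G → f (v x) ≠ 0 by
    obtain ⟨f, hf1, hf2⟩ := hsuff
    refine ⟨LinearMap.pi (fun _ => f), ?_, ?_⟩
    · intro x hx
      ext i
      simpa using hf1 x hx
    · intro x hx hxG h0
      apply hf2 x hx hxG
      have := congrFun h0 0
      simpa using this
  have hGE : G ⊆ M.E := hG.subset_ground
  obtain ⟨e, he⟩ := hGne
  by_cases h1 : G = {e}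
  · obtain ⟨f, hf1, hf2⟩ := hT e (hGE he)
    refine ⟨f, ?_, ?_⟩
    · intro x hx
      rw [h1] at hx
      rw [hx]
      exact hf1
    · intro x hx hxG
      refine hf2 x hx ?_
      rintro rfl
      exact hxG he
  by_cases h2 : G = M.E
  · refine ⟨0, by simp, ?_⟩
    intro x hx hxG
    rw [h2] at hxG
    exact absurd hx hxG
  -- now `G` has rank 2 and `M` has rank 3
  have hlt : ∀ X Y : Set α, M.IsFlat X → Y ⊆ M.E → X ⊆ Y → X ≠ Y → rk M X < rk M Y := by
    intro X Y hX hYE hXY hne
    have hXE : X ⊆ M.E := hXY.trans hYE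
    rw [h.rk_eq hXE, h.rk_eq hYE]
    have hfd : FiniteDimensional F (span F (v '' Y)) :=
      FiniteDimensional.span_of_finite F ((M.ground_finite.subset hYE).image v)
    apply Submodule.finrank_lt_finrank_of_lt
    refine lt_of_le_of_ne (span_mono (image_mono hXY)) fun heq => ?_
    obtain ⟨y, hyY, hyX⟩ := Set.exists_of_ssubset (hXY.ssubset_of_ne hne)
    have : y ∈ M.closure X := (h.mem_closure_iff hXE (hYE hyY)).2 (by
      rw [heq]
      exact subset_span (mem_image_of_mem v hyY))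
    rw [hX.closure] at this
    exact hyX this
  have hE : ({e} : Set α) ⊆ M.E := by simpa using hGE he
  have ha := hlt {e} G (isFlat_singleton_of_simple h hs (hGE he)) hGE (by simpa using he)
    (Ne.symm h1)
  have hb := hlt G M.E hG Subset.rfl hGE h2
  have hc : rk M {e} = 1 := by
    rw [rk, ((isSimple_nonloop hs) e (hGE he)).eRk_eq]
    rfl
  obtain ⟨f, hf1, hf2⟩ := exists_functional h hG (by omega)
  exact ⟨f, hf1, hf2⟩

end Pool.Agent.Helper236
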