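import Pool.Agent.Helper236.Six
import Pool.Agent.Helper236.LinSpace
import Pool.Agent.Helper236.Size

namespace Pool.Agent.Helper236.Tug

open Set Module Submodule Pool.Agent.Helper236

/-- The critical exponent `c(M; q)`: the least `j ≥ 1` with `p(M; q ^ j) > 0`. -/
noncomputable def critExpPos {α : Type} (M : Matroid α) (q : ℕ) : ℕ∞ :=
  ⨅ j ∈ {j : ℕ | 1 ≤ j ∧ 0 < (charPoly M).eval ((q : ℤ) ^ j)}, (j : ℕ∞)

/-- `M` is a `k`-block over the finite field `F`: a finite simple matroid representable over `F`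
with critical exponent larger than `k`. -/
def IsBlock (F : Type) [Field F] (k : ℕ) {α : Type} (M : Matroid α) : Prop :=
  M.Finite ∧ IsSimple M ∧ Representable F M ∧ (k : ℕ∞) < critExpPos M (Nat.card F)

/-- `M` is a tangential `k`-block over `F`: it is a `k`-block and no proper minor of it is a
(simple) `k`-block. -/
def IsTangentialBlock (F : Type) [Field F] (k : ℕ) {α : Type} (M : Matroid α) : Prop :=
  IsBlock F k M ∧ ∀ N : Matroid α, N.IsMinor M → N ≠ M → ¬ IsBlock F k N

/-- `N` is the `m`-point line `U_{2,m}`. -/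
def IsLine (m : ℕ) {α : Type} (N : Matroid α) : Prop :=
  N.E.ncard = m ∧ ∀ I ⊆ N.E, N.Indep I ↔ I.encard ≤ 2

/-- `M` is a paving matroid: every circuit has at least `r(M)` elements. -/
def IsPaving {α : Type} (M : Matroid α) : Prop := ∀ C, M.IsCircuit C → rk M M.E ≤ C.ncard

variable {F : Type} [Field F] {α : Type} {M : Matroid α} {W : Type*} [AddCommGroup W] [Module F W]
  {v : α → W}

theorem exists_sep (U : Submodule F W) {x : W} (hx : x ∉ U) :
    ∃ e : W →ₗ[F] F, e x = 1 ∧ ∀ y ∈ U, e y = 0 := by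
  obtain ⟨f, hf, hf'⟩ := U.exists_dual_map_eq_bot_of_notMem hx inferInstance
  refine ⟨(f x)⁻¹ • f, ?_, fun y hy => ?_⟩
  · simp [hf]
  · have : f y ∈ U.map f := Submodule.mem_map_of_mem hy
    rw [hf'] at this
    have h0 : f y = 0 := by simpa using this
    simp [h0]

/-- Crapo and Rota: `critExpPos` is the least `c ≥ 1` such that some `c` linear functionals
(hyperplanes) have no common zero in the point set. This is a check of the definition. -/
theorem critExpPos_le_iff [Finite F] [FiniteDimensional F W] [M.Finite]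
    (h : Rep F M v) (c : ℕ) (hc : 1 ≤ c) :
    critExpPos M (Nat.card F) ≤ c ↔
      ∃ f : Fin c → (W →ₗ[F] F), ∀ e ∈ M.E, ∃ i, f i (v e) ≠ 0 := by
  constructor
  · intro hle
    have h1 : critExp M (Nat.card F) ≤ c := by
      refine le_trans ?_ hle
      refine le_iInf₂ fun j hj => ?_
      exact (critExp_le_iff h j).2 ((eval_pos_iff h j).1 hj.2)
    obtain ⟨f, hf⟩ := (critExp_le_iff h c).1 h1
    refine ⟨fun i => (LinearMap.proj i).comp f, fun e he => ?_⟩
    by_contra hcon
    push Not at hcon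
    apply hf e he
    ext i
    exact hcon i
  · rintro ⟨f, hf⟩
    refine iInf₂_le c ⟨hc, (eval_pos_iff h c).2 ⟨LinearMap.pi f, fun e he h0 => ?_⟩⟩
    obtain ⟨i, hi⟩ := hf e he
    exact hi (congrFun h0 i)

theorem block_functional [Finite F] [FiniteDimensional F W] (h : Rep F M v)
    (hM : IsBlock F 1 M) (f : W →ₗ[F] F) : ∃ e ∈ M.E, f (v e) = 0 := by
  have hfin := hM.1
  by_contra hcon
  push Not at hcon
  have h1 := (critExpPos_le_iff h 1 le_rfl).2 ⟨fun _ => f, fun e he => ⟨0, hcon e he⟩⟩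
  exact absurd h1 (not_le.2 hM.2.2.2)

theorem minor_functional [Finite F] [FiniteDimensional F W] (h : Rep F M v)
    (hM : IsTangentialBlock F 1 M) (C D : Set α) (hC : C ⊆ M.E)
    (hne : (M.contract C).delete D ≠ M) (hs : IsSimple ((M.contract C).delete D)) :
    ∃ f : W →ₗ[F] F, (∀ c ∈ C, f (v c) = 0) ∧
      ∀ e ∈ ((M.contract C).delete D).E, f (v e) ≠ 0 := by
  have hfin := hM.1.1
  set N := (M.contract C).delete D with hN
  have hNM : N.IsMinor M := ⟨C, D, rfl⟩
  have hNf : N.Finite := Size.finite_minor hfin hNM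
  have hNr := h.minor C D hC
  have h1 := hM.2 N hNM hne
  have h2 : critExpPos N (Nat.card F) ≤ (1 : ℕ) := by
    by_contra hlt
    exact h1 ⟨hNf, hs, Size.representable_minor hM.1.2.2.1 hNM, not_le.1 hlt⟩
  obtain ⟨g, hg⟩ := (critExpPos_le_iff hNr 1 le_rfl).1 h2
  refine ⟨(g 0).comp (span F (v '' C)).mkQ, ?_, ?_⟩
  · intro c hc
    have : (span F (v '' C)).mkQ (v c) = 0 := by
      simpa using subset_span (mem_image_of_mem v hc)
    rw [LinearMap.comp_apply, this, map_zero]
  · intro e he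
    obtain ⟨i, hi⟩ := hg e he
    have : i = 0 := Subsingleton.elim _ _
    rw [this] at hi
    exact hi

/-- every nonempty flat is the exact zero set of some functional -/
theorem exact_functional [Finite F] [FiniteDimensional F W] (h : Rep F M v)
    (hM : IsTangentialBlock F 1 M) {G : Set α} (hG : M.IsFlat G) (hGne : G.Nonempty) :
    ∃ f : W →ₗ[F] F, (∀ x ∈ G, f (v x) = 0) ∧ ∀ x ∈ M.E, x ∉ G → f (v x) ≠ 0 := by
  classical
  have hfin := hM.1.1
  have hGE : G ⊆ M.E := hG.subset_ground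
  set U := span F (v '' G) with hU
  set u : α → W ⧸ U := U.mkQ ∘ v with hu
  have hu0 : ∀ x ∈ M.E, x ∉ G → u x ≠ 0 := by
    intro x hx hxe h0
    have h1 : v x ∈ U := by simpa [hu] using h0
    apply hxe
    rw [← hG.closure]
    exact (h.mem_closure_iff hGE hx).2 h1
  have hchoose : ∀ P : Submodule F (W ⧸ U), ∃ t : α,
      (∃ x ∈ M.E, x ∉ G ∧ span F {u x} = P) → t ∈ M.E ∧ t ∉ G ∧ span F {u t} = P := by
    intro P
    by_cases hP : ∃ x ∈ M.E, x ∉ G ∧ span F {u x} = P
    · obtain ⟨x, hx⟩ := hP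
      exact ⟨x, fun _ => hx⟩
    · obtain ⟨e, _⟩ := hGne
      exact ⟨e, fun h => absurd h hP⟩
  choose s hs' using hchoose
  set T : Set α := {x | x ∈ M.E ∧ x ∉ G ∧ s (span F {u x}) = x} with hT
  have hrep : ∀ x ∈ M.E, x ∉ G → s (span F {u x}) ∈ T ∧
      span F {u (s (span F {u x}))} = span F {u x} := by
    intro x hx hxe
    obtain ⟨h1, h2, h3⟩ := hs' (span F {u x}) ⟨x, hx, hxe, rfl⟩
    refine ⟨⟨h1, h2, ?_⟩, h3⟩
    rw [h3]
  set D : Set α := M.E \ T with hD
  set N := (M.contract G).delete D with hN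
  have hNE : N.E = T := by
    ext x
    constructor
    · rintro ⟨⟨hx1, hx2⟩, hx3⟩
      by_contra hxT
      exact hx3 ⟨hx1, hxT⟩
    · intro hx
      exact ⟨⟨hx.1, fun h => hx.2.1 h⟩, fun h => h.2 hx⟩
  have hNrep : Rep F N u := h.minor G D hGE
  have hNs : IsSimple N := by
    intro x hx y hy
    have hx' : x ∈ T := hNE ▸ hx
    have hy' : y ∈ T := hNE ▸ hy
    rw [hNrep _ (by
      intro z hz
      rcases hz with rfl | rfl <;> assumption)]
    by_cases hxy : x = y
    · subst hxy
      simpa using hu0 x hx'.1 hx'.2.1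
    · rw [linearIndepOn_pair_iff _ hxy (hu0 x hx'.1 hx'.2.1)]
      intro c hc
      apply hxy
      have hc0 : c ≠ 0 := by
        rintro rfl
        rw [zero_smul] at hc
        exact hu0 y hy'.1 hy'.2.1 hc.symm
      have : span F {u x} = span F {u y} := by
        rw [← hc]
        exact (span_singleton_smul_eq (IsUnit.mk0 c hc0) _).symm
      rw [← hx'.2.2, ← hy'.2.2, this]
  have hne : N ≠ M := by
    intro heq
    obtain ⟨e, he⟩ := hGne
    have h1 : e ∈ N.E := by rw [heq]; exact hGE he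
    rw [hNE] at h1
    exact h1.2.1 he
  obtain ⟨f, hf1, hf2⟩ := minor_functional h hM G D hGE hne hNs
  refine ⟨f, hf1, ?_⟩
  intro x hx hxe h0
  obtain ⟨h1, h2⟩ := hrep x hx hxe
  set t := s (span F {u x}) with ht
  have h3 : u t ∈ span F {u x} := by
    rw [← h2]
    exact mem_span_singleton_self _
  obtain ⟨c, hc⟩ := mem_span_singleton.1 h3
  have h4 : v t - c • v x ∈ U := by
    rw [← Submodule.ker_mkQ U, LinearMap.mem_ker, map_sub, map_smul]
    rw [sub_eq_zero]
    exact hc.symm
  have h5 : f (v t - c • v x) = 0 := by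
    have hle : U ≤ LinearMap.ker f := by
      rw [hU, span_le]
      rintro _ ⟨y, hy, rfl⟩
      exact hf1 y hy
    exact hle h4
  rw [map_sub, map_smul, h0, smul_zero, sub_zero] at h5
  have htN : t ∈ N.E := by
    rw [hNE]
    exact h1
  exact hf2 t htN h5

/-- every proper subset `X ⊂ E` is avoided by some functional -/
theorem avoid_functional [Finite F] [FiniteDimensional F W] (h : Rep F M v)
    (hM : IsTangentialBlock F 1 M) {X : Set α} (hX : X ⊆ M.E) (hne : X ≠ M.E) :
    ∃ f : W →ₗ[F] F, ∀ x ∈ X, f (v x) ≠ 0 := by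
  have hNE : ((M.contract ∅).delete (M.E \ X)).E = X := by
    rw [Matroid.contract_empty, Matroid.delete_ground, Set.sdiff_sdiff_cancel_left hX]
  have hs : IsSimple ((M.contract ∅).delete (M.E \ X)) := by
    intro x hx y hy
    rw [hNE] at hx hy
    rw [Matroid.contract_empty, Matroid.delete_indep_iff]
    refine ⟨hM.1.2.1 x (hX hx) y (hX hy), ?_⟩
    rw [Set.disjoint_left]
    rintro z (rfl | rfl) hz
    · exact hz.2 hx
    · exact hz.2 hy
  obtain ⟨f, -, hf⟩ := minor_functional h hM ∅ (M.E \ X) (empty_subset _) (by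
    intro heq
    rw [heq] at hNE
    exact hne hNE.symm) hs
  rw [hNE] at hf
  exact ⟨f, hf⟩

end Pool.Agent.Helper236.Tug
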