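import Pool.Agent.Helper236.K4
import Pool.Agent.Helper236.F9

namespace Pool.Agent.Helper236.Unital9

open Set Module Submodule

/-- the points `x ^ 4 + y ^ 4 + z ^ 4 = 0` of the projective plane over `F9` -/
def pt : Fin 28 → (Fin 3 → F9) :=
  ![![⟨0, 0⟩, ⟨1, 0⟩, ⟨1, 1⟩],
    ![⟨0, 0⟩, ⟨1, 0⟩, ⟨1, 2⟩],
    ![⟨0, 0⟩, ⟨1, 0⟩, ⟨2, 1⟩],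
    ![⟨0, 0⟩, ⟨1, 0⟩, ⟨2, 2⟩],
    ![⟨1, 0⟩, ⟨0, 0⟩, ⟨1, 1⟩],
    ![⟨1, 0⟩, ⟨0, 0⟩, ⟨1, 2⟩],
    ![⟨1, 0⟩, ⟨0, 0⟩, ⟨2, 1⟩],
    ![⟨1, 0⟩, ⟨0, 0⟩, ⟨2, 2⟩],
    ![⟨1, 0⟩, ⟨0, 1⟩, ⟨0, 1⟩],
    ![⟨1, 0⟩, ⟨0, 1⟩, ⟨0, 2⟩],
    ![⟨1, 0⟩, ⟨0, 1⟩, ⟨1, 0⟩],
    ![⟨1, 0⟩, ⟨0, 1⟩, ⟨2, 0⟩],
    ![⟨1, 0⟩, ⟨0, 2⟩, ⟨0, 1⟩],
    ![⟨1, 0⟩, ⟨0, 2⟩, ⟨0, 2⟩],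
    ![⟨1, 0⟩, ⟨0, 2⟩, ⟨1, 0⟩],
    ![⟨1, 0⟩, ⟨0, 2⟩, ⟨2, 0⟩],
    ![⟨1, 0⟩, ⟨1, 0⟩, ⟨0, 1⟩],
    ![⟨1, 0⟩, ⟨1, 0⟩, ⟨0, 2⟩],
    ![⟨1, 0⟩, ⟨1, 0⟩, ⟨1, 0⟩],
    ![⟨1, 0⟩, ⟨1, 0⟩, ⟨2, 0⟩],
    ![⟨1, 0⟩, ⟨1, 1⟩, ⟨0, 0⟩],
    ![⟨1, 0⟩, ⟨1, 2⟩, ⟨0, 0⟩],
    ![⟨1, 0⟩, ⟨2, 0⟩, ⟨0, 1⟩],
    ![⟨1, 0⟩, ⟨2, 0⟩, ⟨0, 2⟩],
    ![⟨1, 0⟩, ⟨2, 0⟩, ⟨1, 0⟩],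
    ![⟨1, 0⟩, ⟨2, 0⟩, ⟨2, 0⟩],
    ![⟨1, 0⟩, ⟨2, 1⟩, ⟨0, 0⟩],
    ![⟨1, 0⟩, ⟨2, 2⟩, ⟨0, 0⟩]]

theorem fact_herm : ∀ i : Fin 28, herm F9.conj (pt i) (pt i) = 0 := by
  decide +kernel

theorem fact_block : ∀ a b c : F9, ∃ i : Fin 28, ev3 a b c (pt i) = 0 := by
  decide +kernel

theorem fact_tangent : ∀ i : Fin 28,
    ev3 (F9.conj (pt i 0)) (F9.conj (pt i 1)) (F9.conj (pt i 2)) (pt i) = 0 ∧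
    ∀ j : Fin 28, j ≠ i →
      ev3 (F9.conj (pt i 0)) (F9.conj (pt i 1)) (F9.conj (pt i 2)) (pt j) ≠ 0 := by
  decide +kernel

theorem fact_ne_zero : ∀ i : Fin 28, pt i ≠ 0 := by
  decide +kernel

theorem fact_simple : ∀ i j : Fin 28, i ≠ j → ∀ c : F9, c • pt i ≠ pt j := by
  decide +kernel

end Pool.Agent.Helper236.Unital9
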